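import Pool.Agent.H6.LU.Crit

/-!
# LU Bad: the bad set
-/

set_option autoImplicit false

open Topology Filter Metric

open scoped Pointwise

noncomputable section

namespace Pool.Agent.H6.LU

open Pool.Agent.H62.EL (BadSet)

/-- the period group of `V_m` -/
def Gam (m : ℕ) : AddSubgroup ℂ where
  carrier := {w | Complex.exp (w / m) = 1}
  add_mem' := fun {a b} ha hb => by
    show Complex.exp ((a + b) / m) = 1
    rw [add_div, Complex.exp_add, show Complex.exp (a / m) = 1 from ha, show Complex.exp (b / m) = 1 from hb, one_mul]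
  zero_mem' := by
    show Complex.exp (0 / m) = 1
    rw [zero_div, Complex.exp_zero]
  neg_mem' := fun {a} ha => by
    show Complex.exp (-a / m) = 1
    rw [neg_div, Complex.exp_neg, show Complex.exp (a / m) = 1 from ha, inv_one]

theorem mem_Gam {m : ℕ} {w : ℂ} : w ∈ Gam m ↔ Complex.exp (w / m) = 1 := Iff.rfl

theorem mem_Gam_iff {m : ℕ} (hm : 1 ≤ m) {w : ℂ} : w ∈ Gam m ↔ ∃ n : ℤ, w = n * (2 * Real.pi * Complex.I * m) := by
  have hm0 : (m : ℂ) ≠ 0 := by exact_mod_cast Nat.one_le_iff_ne_zero.1 hm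
  rw [mem_Gam, Complex.exp_eq_one_iff]
  constructor
  · rintro ⟨n, hn⟩
    refine ⟨n, ?_⟩
    rw [div_eq_iff hm0] at hn
    rw [hn]
    ring
  · rintro ⟨n, hn⟩
    refine ⟨n, ?_⟩
    rw [div_eq_iff hm0, hn]
    ring

theorem mem_Lam_iff {w : ℂ} : w ∈ Lam ↔ ∃ n : ℤ, w = n * (2 * Real.pi * Complex.I) := by
  rw [mem_Lam, Complex.exp_eq_one_iff]

theorem Gam_le {m : ℕ} (hm : 1 ≤ m) : Gam m ≤ Lam := by
  intro w hw
  obtain ⟨n, rfl⟩ := (mem_Gam_iff hm).1 hw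
  rw [mem_Lam_iff]
  exact ⟨n * m, by push_cast; ring⟩

theorem Gam_cof {m : ℕ} (hm : 1 ≤ m) : ∃ R : ℝ, 0 < R ∧ ∀ l ∈ Lam, ∃ l' ∈ Gam m, ‖l - l'‖ ≤ R := by
  refine ⟨2 * Real.pi * m, by positivity, fun l hl => ?_⟩
  obtain ⟨n, rfl⟩ := mem_Lam_iff.1 hl
  have hm0 : (m : ℤ) ≠ 0 := by exact_mod_cast Nat.one_le_iff_ne_zero.1 hm
  refine ⟨(n / m : ℤ) * (2 * Real.pi * Complex.I * m), (mem_Gam_iff hm).2 ⟨_, rfl⟩, ?_⟩
  have h1 : (n : ℂ) * (2 * Real.pi * Complex.I) - (n / m : ℤ) * (2 * Real.pi * Complex.I * m) = ((n % m : ℤ) : ℂ) * (2 * Real.pi * Complex.I) := by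
    have h2 : (n : ℂ) = ((n % m : ℤ) : ℂ) + (m : ℂ) * ((n / m : ℤ) : ℂ) := by
      have h3 := Int.emod_add_mul_ediv n m
      have h4 : ((n % m + m * (n / m) : ℤ) : ℂ) = ((n : ℤ) : ℂ) := by rw [h3]
      push_cast at h4 ⊢
      exact h4.symm
    rw [h2]
    ring
  rw [h1, norm_mul, norm_mul, norm_mul, Complex.norm_I, mul_one, Complex.norm_intCast]
  have h5 : |((n % m : ℤ) : ℝ)| ≤ m := by
    rw [abs_of_nonneg (by exact_mod_cast Int.emod_nonneg n hm0)]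
    have h6 := (Int.emod_lt_of_pos n (by omega : (0 : ℤ) < m)).le
    exact_mod_cast h6
  have h7 : ‖(2 : ℂ)‖ * ‖(Real.pi : ℂ)‖ = 2 * Real.pi := by
    rw [Complex.norm_real, Real.norm_of_nonneg Real.pi_pos.le]
    simp
  rw [h7]
  have h8 : 0 ≤ 2 * Real.pi := by positivity
  nlinarith [h5, h8]

theorem Lam_re {l : ℂ} (hl : l ∈ Lam) : l.re = 0 := by
  obtain ⟨n, rfl⟩ := mem_Lam_iff.1 hl
  simp

theorem Lam_isClosed : IsClosed (Lam : Set ℂ) := by
  have h1 : (Lam : Set ℂ) = Complex.exp ⁻¹' {1} := rfl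
  rw [h1]
  exact isClosed_singleton.preimage Complex.continuous_exp

theorem Lam_norm {l : ℂ} (hl : l ∈ Lam) (h0 : l ≠ 0) : 2 * Real.pi ≤ ‖l‖ := by
  obtain ⟨n, rfl⟩ := mem_Lam_iff.1 hl
  have hn : n ≠ 0 := by
    rintro rfl
    simp at h0
  rw [norm_mul, norm_mul, norm_mul, Complex.norm_I, mul_one, Complex.norm_intCast, Complex.norm_real, Real.norm_of_nonneg Real.pi_pos.le]
  have h1 : (1 : ℝ) ≤ |(n : ℝ)| := by
    have h2 := Int.one_le_abs hn
    exact_mod_cast h2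
  have h3 : ‖(2 : ℂ)‖ = 2 := by simp
  rw [h3]
  nlinarith [Real.pi_pos]

theorem dsc_Lam : Pool.Agent.H18.LU.Dsc Lam := by
  refine ⟨1, one_pos, fun l hl h1 => ?_⟩
  by_contra h0
  have h2 := Lam_norm hl h0
  have h3 := Real.pi_gt_three
  linarith

/-- the logarithms of the bad values of `e`, translated by `a` -/
def BB (B₁ : Set ℂ) (a : ℂ) : Set ℂ := {b | Complex.exp (b + a) ∈ B₁}

theorem exp_close {w : ℂ} {δ : ℝ} (hδ : δ ≤ 1 / 8) (hw : ‖w‖ < 8 * δ) : ‖Complex.exp w - 1‖ ≤ 16 * δ := by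
  have h1 := Complex.norm_exp_sub_one_le (x := w) (by linarith)
  linarith

theorem exists_gap {B₁ : Set ℂ} (hB : B₁.Finite) {w : ℂ} (hw : w ≠ 0) : ∃ η : ℝ, 0 < η ∧ ∀ c ∈ B₁, c ≠ w → η ≤ ‖c / w - 1‖ := by
  have h1 : (fun c => ‖c / w - 1‖) '' (B₁ \ {w}) ⊆ Set.Ioi 0 := by
    rintro _ ⟨c, ⟨hc, hcw⟩, rfl⟩
    refine norm_pos_iff.2 fun h2 => hcw ?_
    rw [sub_eq_zero, div_eq_one_iff_eq hw] at h2
    exact h2
  have h2 : ((fun c => ‖c / w - 1‖) '' (B₁ \ {w})).Finite := (hB.subset Set.sdiff_subset).image _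
  by_cases hne : ((fun c => ‖c / w - 1‖) '' (B₁ \ {w})).Nonempty
  · obtain ⟨η, hη, hmin⟩ := h2.exists_minimalFor id _ hne
    refine ⟨η, h1 hη, fun c hc hcw => ?_⟩
    by_contra hlt
    push Not at hlt
    have h3 := hmin ⟨c, ⟨hc, hcw⟩, rfl⟩ hlt.le
    exact absurd h3 (not_le.2 hlt)
  · refine ⟨1, one_pos, fun c hc hcw => ?_⟩
    exact absurd ⟨_, c, ⟨hc, hcw⟩, rfl⟩ hne

theorem bad_set {B₁ : Set ℂ} (hB : B₁.Finite) (h0 : (0 : ℂ) ∉ B₁) {a : ℂ} (ha : Complex.exp a ∉ B₁) :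
    ∃ δ₀ : ℝ, 0 < δ₀ ∧ ∀ δ : ℝ, 0 < δ → δ ≤ δ₀ → BadSet (BB B₁ a) Lam δ ∧ ∀ b ∈ BB B₁ a, 4 * δ ≤ ‖b‖ := by
  -- a common gap
  have hgap : ∃ η : ℝ, 0 < η ∧ ∀ w ∈ B₁ ∪ {Complex.exp a}, ∀ c ∈ B₁, c ≠ w → η ≤ ‖c / w - 1‖ := by
    have h1 : ∀ S : Set ℂ, S.Finite → S ⊆ B₁ ∪ {Complex.exp a} → ∃ η : ℝ, 0 < η ∧ ∀ w ∈ S, ∀ c ∈ B₁, c ≠ w → η ≤ ‖c / w - 1‖ := by
      intro S hS
      induction S, hS using Set.Finite.induction_on with
      | empty => exact fun _ => ⟨1, one_pos, fun w hw => absurd hw (Set.notMem_empty _)⟩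
      | @insert x S hx hS ih =>
        intro hsub
        obtain ⟨η, hη, h2⟩ := ih fun y hy => hsub (Set.mem_insert_of_mem _ hy)
        have hx0 : x ≠ 0 := by
          rintro rfl
          rcases hsub (Set.mem_insert _ _) with h3 | h3
          · exact h0 h3
          · exact Complex.exp_ne_zero a (Set.mem_singleton_iff.1 h3).symm
        obtain ⟨η', hη', h3⟩ := exists_gap hB hx0
        refine ⟨min η η', lt_min hη hη', fun w hw c hc hcw => ?_⟩
        rcases Set.mem_insert_iff.1 hw with rfl | hw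
        · exact (min_le_right _ _).trans (h3 c hc hcw)
        · exact (min_le_left _ _).trans (h2 w hw c hc hcw)
    exact h1 _ (hB.union (Set.finite_singleton _)) (le_refl _)
  obtain ⟨η, hη, hgap⟩ := hgap
  refine ⟨min (1 / 8) (η / 32), by positivity, fun δ hδ hδ₀ => ?_⟩
  have hδ1 : δ ≤ 1 / 8 := hδ₀.trans (min_le_left _ _)
  have hδ2 : 16 * δ < η := by
    have := hδ₀.trans (min_le_right _ _)
    linarith
  refine ⟨⟨hδ, ?_, ?_⟩, ?_⟩
  · intro b hb l hl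
    show Complex.exp (b + l + a) ∈ B₁
    have h1 : b + l + a = (b + a) + l := by ring
    rw [h1, Complex.exp_add, mem_Lam.1 hl, mul_one]
    exact hb
  · intro b hb b' hb' hne
    by_contra hlt
    push Not at hlt
    by_cases heq : Complex.exp (b + a) = Complex.exp (b' + a)
    · have h1 : b - b' ∈ Lam := by
        have h2 := sub_mem_Lam.2 heq
        have h3 : b + a - (b' + a) = b - b' := by ring
        rwa [h3] at h2
      have h2 := Lam_norm h1 (sub_ne_zero.2 hne)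
      have h3 := Real.pi_gt_three
      linarith
    · have h1 := hgap _ (Or.inl hb') _ hb heq
      rw [← Complex.exp_sub] at h1
      have h3 : b + a - (b' + a) = b - b' := by ring
      rw [h3] at h1
      have h4 := exp_close hδ1 hlt
      linarith
  · intro b hb
    by_contra hlt
    push Not at hlt
    have h1 := hgap _ (Or.inr rfl) _ hb (fun h => ha (h ▸ hb))
    rw [← Complex.exp_sub] at h1
    have h3 : b + a - a = b := by ring
    rw [h3] at h1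
    have h4 := exp_close (w := b) hδ1 (by linarith)
    linarith

theorem bad_re {B₁ : Set ℂ} (hB : B₁.Finite) (a : ℂ) : ∃ W : ℝ, 0 < W ∧ ∀ b ∈ BB B₁ a, |b.re| ≤ W := by
  obtain ⟨W, hW⟩ := (hB.image fun c => |Real.log ‖c‖ - a.re|).bddAbove
  refine ⟨max W 1, by positivity, fun b hb => ?_⟩
  have h1 := hW ⟨_, hb, rfl⟩
  simp only at h1
  rw [Complex.norm_exp, Real.log_exp, Complex.add_re, add_sub_cancel_right] at h1
  exact h1.trans (le_max_left _ _)

theorem Nb_closed (R : ℝ) : IsClosed (Pool.Agent.H18.LU.Nb Lam R) := by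
  have h1 : Pool.Agent.H18.LU.Nb Lam R = (Lam : Set ℂ) + closedBall (0 : ℂ) R := by
    ext z
    rw [Set.mem_add]
    constructor
    · rintro ⟨l, hl, h⟩
      exact ⟨l, hl, z - l, by simpa using h, by ring⟩
    · rintro ⟨l, hl, w, hw, rfl⟩
      exact ⟨l, hl, by simpa using hw⟩
  rw [h1]
  exact Lam_isClosed.add_right_of_isCompact (isCompact_closedBall _ _)

end Pool.Agent.H6.LU
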