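import Pool.Agent.H6.LU.Bad
import Pool.Agent.H6.LU.ChEx

/-!
# LU LBs: the geometric data `LBase` of a model
-/

set_option autoImplicit false

open Topology Filter Metric

noncomputable section

namespace Pool.Agent.H6.LU

open Pool.Agent.H17 (PN HolomorphicInto)
open Pool.Agent.H36.BP (EN coneOf coneOf_smul ne_zero_of_ofLp ofLp_ne_zero IsGermChart)
open Pool.Agent.H4.LU (Mem val IsParam IsInner IsHorChart IsEndChart IsEnd IsRegularEnd IsModel)
open Pool.Agent.H18.LU (OCone Dsc Nb part HorAt LFib LBase)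
open Pool.Agent.H62.EF (TorusMap Charts)
open Pool.Agent.H62.EL (BadSet IsNC)

variable {M : ℕ} {Y V : Set (PN M)} {e : PN M → ℂ}

/-- the boundary curve over `ℂ^*` -/
def DH (Y V : Set (PN M)) (e : PN M → ℂ) : Set (EN M) := {x | x ∈ XX Y V e ∧ x ∉ coneOf V}

theorem ocone_XX (Y V : Set (PN M)) (e : PN M → ℂ) : OCone (XX Y V e) where
  zero_notMem := fun h => zero_notMem_coneOf Y h.1
  smul_mem := by
    rintro x ⟨hx, c, hc0, hc⟩ a ha
    exact ⟨coneOf_smul hx ha, c, hc0, tendsto_ev_smul ha hc⟩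

theorem XX_diff (h : IsModel Y V e) : XX Y V e \ DH Y V e = coneOf V := by
  ext x
  constructor
  · rintro ⟨h1, h2⟩
    by_contra h3
    exact h2 ⟨h1, h3⟩
  · intro h1
    exact ⟨V_sub_XX h h1, fun h2 => h2.2 h1⟩

theorem GP.germ {X : Set (EN M)} {σ : ℂ × ℂ → EN M} {τ : EN M → ℂ × ℂ} {x : EN M} (h : GP X 1 σ τ x) : IsGermChart X σ τ where
  σ_an := h.σ_an
  σ_mem := h.mem
  τ_an := by rw [h.center]; exact h.τ_an
  left := by
    filter_upwards [h.coord] with p hp
    rw [hp, pow_one, pow_one]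
  right := by
    rw [h.center]
    filter_upwards [h.onto] with y hy hyX
    obtain ⟨a, p, ha, h1, h2⟩ := hy hyX
    rw [pow_one, pow_one] at h2
    exact ⟨a, ha, by rw [h2]; exact h1⟩
  inv := by rw [h.center]; exact h.inv

theorem MCh.germ (h : IsModel Y V e) {hor : Bool} {σ : ℂ × ℂ → EN M} {τ : EN M → ℂ × ℂ} {c : ℂ} {i j : ℕ} {x : EN M}
    (hx : MCh Y V e hor σ τ c i j x) : IsGermChart (XX Y V e) σ τ := by
  have h1 := hx.gp.germ
  exact ⟨h1.σ_an, (hx.uu_sigma h 0).mono fun p hp => hp.1, h1.τ_an, h1.left, h1.right.mono fun y hy hyX => hy hyX.1, h1.inv⟩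

/-- the translation of the base -/
theorem uu_mem {x : EN M} (h : IsModel Y V e) {w : ℂ} (hx : x ∈ coneOf Y) (hw : w ≠ 0) (hlim : Tendsto (ev e) (𝓝[coneOf V] x) (𝓝 w)) (a z : ℂ) :
    uu V e a x - z ∈ Lam ↔ w = Complex.exp (z + a) := by
  rw [sub_mem_Lam, exp_uu h hx hw hlim, Complex.exp_add, Complex.exp_neg, ← div_eq_mul_inv, div_eq_iff (Complex.exp_ne_zero a)]

theorem torus_XX (h : IsModel Y V e) (a : ℂ) : TorusMap (XX Y V e) Lam (uu V e a) where
  smul := by
    rintro x ⟨hx, w, hw, hlim⟩ c hc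
    rw [uu_mem h (coneOf_smul hx hc) hw (tendsto_ev_smul hc hlim)]
    have h1 : uu V e a x - uu V e a x ∈ Lam := by
      rw [sub_self]
      exact Lam.zero_mem
    exact (uu_mem h hx hw hlim a _).1 h1
  loc := by
    intro x hx
    obtain ⟨hor, σ, τ, c, i, j, h1⟩ := exists_mch h hx
    refine ⟨fun y => c - a + (τ y).1 ^ i * (τ y).2 ^ j, ?_, ?_⟩
    · have h2 := h1.gp.τ_an
      have h3 : AnalyticAt ℂ (fun y => (τ y).1) x := analyticAt_fst.comp h2
      have h4 : AnalyticAt ℂ (fun y => (τ y).2) x := analyticAt_snd.comp h2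
      exact analyticAt_const.add ((h3.pow i).mul (h4.pow j))
    · filter_upwards [h1.uu_sub h a] with y hy hyX
      exact (hy hyX.1).2

/-- the distance to the period group -/
theorem Nb_congr {z w : ℂ} (h : z - w ∈ Lam) {R : ℝ} (hz : z ∈ Nb Lam R) : w ∈ Nb Lam R := by
  obtain ⟨l, hl, h1⟩ := hz
  refine ⟨l - (z - w), Lam.sub_mem hl h, ?_⟩
  have h2 : w - (l - (z - w)) = z - l := by ring
  rw [h2]
  exact h1

theorem Nb_re {z : ℂ} {R : ℝ} (hz : z ∈ Nb Lam R) : |z.re| ≤ R := by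
  obtain ⟨l, hl, h1⟩ := hz
  have h2 := (Complex.abs_re_le_norm (z - l)).trans h1
  rwa [Complex.sub_re, Lam_re hl, sub_zero] at h2

/-- near a point over `0` the function `e` is small -/
theorem small_near {e' : PN M → ℂ} {x : EN M} (hx : Tendsto (ev e') (𝓝[coneOf V] x) (𝓝 0)) {ε : ℝ} (hε : 0 < ε) :
    ∀ᶠ y in 𝓝 x, ∀ w : ℂ, (𝓝[coneOf V] y).NeBot → Tendsto (ev e') (𝓝[coneOf V] y) (𝓝 w) → ‖w‖ ≤ ε := by
  have h1 := Metric.tendsto_nhds.1 hx ε hε
  have h2 : ∀ᶠ y in 𝓝 x, y ∈ coneOf V → dist (ev e' y) 0 < ε := eventually_nhdsWithin_iff.1 h1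
  filter_upwards [h2.eventually_nhds] with y hy w hne hw
  refine le_of_tendsto hw.norm ?_
  rw [eventually_nhdsWithin_iff]
  filter_upwards [hy] with y' hy' hyV
  have := hy' hyV
  rw [dist_zero_right] at this
  exact this.le

theorem closed_part (h : IsModel Y V e) (a : ℂ) (R : ℝ) : IsClosed (insert (0 : EN M) (part (XX Y V e) Lam (uu V e a) R)) := by
  rw [← closure_subset_iff_isClosed]
  intro x hx
  by_cases hx0 : x = 0
  · exact Or.inl hx0
  right
  have hxS : x ∈ closure (part (XX Y V e) Lam (uu V e a) R) := by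
    rw [Set.insert_eq, closure_union, closure_singleton] at hx
    exact hx.resolve_left hx0
  have hxY : x ∈ coneOf Y := closed_coneOf h x (closure_mono (fun y hy => hy.1.1) hxS) hx0
  rw [mem_closure_iff_frequently] at hxS
  rcases cover h hxY with h1 | h1 | h1
  · refine ⟨h1, ?_⟩
    obtain ⟨v, hv, hvu⟩ := (torus_XX h a).loc x h1
    have hfr : ∃ᶠ y in 𝓝 x, v y ∈ Nb Lam R := by
      refine (hxS.and_eventually hvu).mono ?_
      rintro y ⟨⟨hy1, hy2⟩, hy3⟩
      exact Nb_congr (hy3 hy1) hy2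
    have h2 : v x ∈ Nb Lam R := by
      have h3 : v x ∈ closure (Nb Lam R) := by
        rw [mem_closure_iff_frequently]
        exact hv.continuousAt.tendsto.frequently hfr
      rwa [(Nb_closed R).closure_eq] at h3
    have h3 : v x - uu V e a x ∈ Lam := by
      have h4 := Lam.neg_mem (hvu.self_of_nhds h1)
      rwa [neg_sub] at h4
    exact Nb_congr h3 h2
  · exfalso
    have hε : 0 < Real.exp (a.re - R) / 2 := by positivity
    obtain ⟨y, ⟨⟨hyY, w, hw0, hw⟩, hy2⟩, hy3⟩ := (hxS.and_eventually (small_near h1.2 hε)).exists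
    have h4 := hy3 w (neBot_V h hyY) hw
    have h5 := Nb_re hy2
    have h6 := congrArg norm (exp_uu (a := a) h hyY hw0 hw)
    rw [Complex.norm_exp, norm_mul, Complex.norm_exp, Complex.neg_re] at h6
    have h7 : Real.exp (a.re - R) ≤ ‖w‖ := by
      have h8 : ‖w‖ = Real.exp ((uu V e a y).re + a.re) := by
        rw [Real.exp_add, h6, mul_assoc, ← Real.exp_add, neg_add_cancel, Real.exp_zero, mul_one]
      rw [h8]
      refine Real.exp_le_exp.2 ?_
      have := (abs_le.1 h5).1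
      linarith
    have h9 : 0 < Real.exp (a.re - R) := Real.exp_pos _
    linarith
  · exfalso
    have hε : 0 < Real.exp (-(a.re + R)) / 2 := by positivity
    obtain ⟨y, ⟨⟨hyY, w, hw0, hw⟩, hy2⟩, hy3⟩ := (hxS.and_eventually (small_near h1.2 hε)).exists
    have h4 := hy3 w⁻¹ (neBot_V h hyY) (tendsto_inv hw0 hw)
    have h5 := Nb_re hy2
    have h6 := congrArg norm (exp_uu (a := a) h hyY hw0 hw)
    rw [Complex.norm_exp, norm_mul, Complex.norm_exp, Complex.neg_re] at h6
    have h7 : Real.exp (-(a.re + R)) ≤ ‖w⁻¹‖ := by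
      have h8 : ‖w‖ = Real.exp ((uu V e a y).re + a.re) := by
        rw [Real.exp_add, h6, mul_assoc, ← Real.exp_add, neg_add_cancel, Real.exp_zero, mul_one]
      rw [norm_inv, h8, ← Real.exp_neg]
      refine Real.exp_le_exp.2 ?_
      have := (abs_le.1 h5).2
      linarith
    have h9 : 0 < Real.exp (-(a.re + R)) := Real.exp_pos _
    linarith

theorem charts_XX (h : IsModel Y V e) : Charts (XX Y V e) := by
  intro x hx
  obtain ⟨hor, σ, τ, c, i, j, h1⟩ := exists_mch h hx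
  obtain ⟨χ, h2, h3⟩ := exists_chart_of_germ (ocone_XX Y V e) (h1.germ h)
  rw [h1.gp.center] at h2 h3
  exact ⟨χ, h2, h3⟩

/-- the chart at a point of the boundary curve -/
theorem exists_horAt (h : IsModel Y V e) {x : EN M} (hx : x ∈ DH Y V e) : ∃ σ τ c i, MCh Y V e true σ τ c i 0 x := by
  obtain ⟨hor, σ, τ, c, i, j, h1⟩ := exists_mch h hx.1
  cases hor with
  | false =>
    exfalso
    have h8 := h1.form.self_of_nhds
    rw [h1.gp.center] at h8
    exact hx.2 (h8.1.2 (by simp))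
  | true =>
    have hj := h1.j_zero rfl
    subst hj
    exact ⟨σ, τ, c, i, h1⟩

theorem MCh.horAt (h : IsModel Y V e) {σ : ℂ × ℂ → EN M} {τ : EN M → ℂ × ℂ} {c : ℂ} {i : ℕ} {x : EN M}
    (hx : MCh Y V e true σ τ c i 0 x) {a b : ℂ} (hb : uu V e a x - b ∈ Lam) : HorAt (XX Y V e) Lam (uu V e a) (DH Y V e) x b i := by
  have h0 : uu V e a x - (c - a) ∈ Lam := (uu_mem h hx.gp.center_mem (Complex.exp_ne_zero c) (hx.tendsto_center h.sub) a _).2 (by
    congr 1
    ring)
  have h1 : c - a - b ∈ Lam := by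
    have h2 := Lam.sub_mem hb h0
    have h3 : uu V e a x - b - (uu V e a x - (c - a)) = c - a - b := by ring
    rwa [h3] at h2
  refine ⟨σ, τ, hx.germ h, hx.gp.center, ?_, ?_⟩
  · filter_upwards [hx.uu_sigma h a] with p hp
    have h2 := Lam.add_mem hp.2 h1
    have h3 : uu V e a (σ p) - (c - a + p.1 ^ i * p.2 ^ 0) + (c - a - b) = uu V e a (σ p) - (b + p.1 ^ i) := by
      rw [pow_zero]
      ring
    rwa [h3] at h2
  · filter_upwards [hx.form, hx.uu_sigma h a] with p hp hp2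
    constructor
    · rintro ⟨-, h2⟩
      by_contra h3
      exact h2 (hp.1.2 fun _ => h3)
    · intro h2
      exact ⟨hp2.1, fun h3 => hp.1.1 h3 rfl h2⟩

/-- **The geometric data.** -/
theorem lbase (h : IsModel Y V e) {m : ℕ} (hm : 1 ≤ m) {B₁ : Set ℂ} {a : ℂ} {δ : ℝ} (hbad : BadSet (BB B₁ a) Lam δ) (hzero : ∀ b ∈ BB B₁ a, 4 * δ ≤ ‖b‖)
    (hCV : CV Y V e ⊆ B₁)
    (hfib : ∀ c, c ∉ B₁ → ∀ f : ℂ → PN M, HolomorphicInto f Set.univ → (∀ z, f z ∈ V ∧ e (f z) = c) → ∀ z w, f z = f w) :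
    LBase (XX Y V e) (DH Y V e) Lam (Gam m) (uu V e a) (BB B₁ a) δ where
  cone := ocone_XX Y V e
  closed := closed_part h a
  charts := charts_XX h
  tor := torus_XX h a
  dsc := dsc_Lam
  le := Gam_le hm
  cof := Gam_cof hm
  bad := hbad
  zero := hzero
  D_sub := fun x hx => hx.1
  D_smul := fun x hx c hc => ⟨(ocone_XX Y V e).smul_mem x hx.1 c hc, fun h1 => hx.2 ((coneOf_smul_iff hc).1 h1)⟩
  D_closed := by
    intro x hx hxD
    have hxV : x ∈ coneOf V := by
      by_contra h1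
      exact hxD ⟨hx, h1⟩
    filter_upwards [V_open h hxV] with y hy hyD
    exact hyD.2 (hy hyD.1.1)
  hor := by
    intro x hx hxB
    obtain ⟨σ, τ, c, i, h1⟩ := exists_horAt h hx
    have h0 : uu V e a x - (c - a) ∈ Lam := (uu_mem h h1.gp.center_mem (Complex.exp_ne_zero c) (h1.tendsto_center h.sub) a _).2 (by
      congr 1
      ring)
    have hi : i = 1 := by
      by_contra hne
      have hi2 : 2 ≤ i := by
        have := h1.i_pos
        omega
      refine hxB (c - a) ?_ h0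
      show Complex.exp (c - a + a) ∈ B₁
      rw [sub_add_cancel]
      exact hCV ⟨x, σ, τ, c, i, 0, h1, hi2, rfl⟩
    subst hi
    exact h1.horAt h (by rw [sub_self]; exact Lam.zero_mem)
  fib := by
    intro F hF hFX hFu hne
    by_contra hcon
    push Not at hcon
    have hV : ∀ z, F z ∈ coneOf V := fun z => by
      by_contra h1
      exact (hFX z).2 ⟨(hFX z).1, h1⟩
    set c := ev e (F 0) with hc
    have hcB : c ∉ B₁ := by
      intro h1
      refine hcon (uu V e a (F 0)) ?_ (by rw [sub_self]; exact Lam.zero_mem)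
      show Complex.exp (uu V e a (F 0) + a) ∈ B₁
      rw [Complex.exp_add, exp_uu_V h (hV 0), mul_assoc, ← Complex.exp_add, neg_add_cancel, Complex.exp_zero, mul_one]
      exact h1
    have hconst : ∀ z, ev e (F z) = c := by
      intro z
      have h1 := (sub_mem_Lam.1 (hFu z 0))
      rw [exp_uu_V h (hV z), exp_uu_V h (hV 0)] at h1
      exact mul_right_cancel₀ (Complex.exp_ne_zero _) h1
    have hall := hfib c hcB (fun z => Projectivization.mk ℂ (F z).ofLp (hV z).1) (by
      intro z _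
      refine ⟨fun w => (F w).ofLp, Pool.Agent.H36.BP.analyticAt_ofLp (hF.analyticAt z), Eventually.of_forall fun w => ⟨(hV w).1, rfl⟩⟩) (by
      intro z
      refine ⟨(hV z).2, ?_⟩
      exact (ev_of (e := e) (hV z).1).symm.trans (hconst z))
    obtain ⟨z, w, hzw⟩ := hne
    have h2 := hall z w
    rw [Projectivization.mk_eq_mk_iff'] at h2
    obtain ⟨b, hb⟩ := h2
    refine hzw b ?_
    ext i
    exact (congrFun hb i).symm
  horB := by
    intro b _ x hx hb
    obtain ⟨σ, τ, c, i, h1⟩ := exists_horAt h hx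
    exact ⟨i, h1.i_pos, h1.horAt h hb⟩
  nc := by
    intro b _ x hx hxD hb
    have hxV : x ∈ coneOf V := by
      by_contra h1
      exact hxD ⟨hx, h1⟩
    obtain ⟨σ, τ, c, i, j, h1⟩ := exists_inner h hxV
    have h0 : uu V e a x - (c - a) ∈ Lam := (uu_mem h h1.gp.center_mem (Complex.exp_ne_zero c) (h1.tendsto_center h.sub) a _).2 (by
      congr 1
      ring)
    have h2 : c - a - b ∈ Lam := by
      have h2 := Lam.sub_mem hb h0
      have h3 : uu V e a x - b - (uu V e a x - (c - a)) = c - a - b := by ring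
      rwa [h3] at h2
    refine ⟨σ, τ, i, j, h1.germ h, h1.gp.center, by have := h1.i_pos; omega, ?_⟩
    filter_upwards [h1.uu_sigma h a] with p hp
    have h3 := Lam.add_mem hp.2 h2
    have h4 : uu V e a (σ p) - (c - a + p.1 ^ i * p.2 ^ j) + (c - a - b) = uu V e a (σ p) - (b + p.1 ^ i * p.2 ^ j) := by ring
    rwa [h4] at h3

end Pool.Agent.H6.LU
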