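import Pool.Agent.H6.LU.As
import Pool.Agent.H36.BP.Lift
import Pool.Agent.H4.LU.Out
import Pool.Agent.H87.LV.Uniq

/-!
# LU Ot: back to projective space
-/

set_option autoImplicit false

open Topology Filter Metric

noncomputable section

namespace Pool.Agent.H6.LU

open Pool.Agent.H17 (PN HolomorphicInto)
open Pool.Agent.H36.BP (EN coneOf coneOf_smul ne_zero_of_ofLp ofLp_ne_zero IsGermChart lift_disc)
open Pool.Agent.H36.LB (ConvPN)
open Pool.Agent.H4.LU (Mem val IsModel IsHyperbolic HasLogForms SecPN LimSec HPl Out)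
open Pool.Agent.H18.LU (OCone Dsc Nb part LData SO SecAt so_limO so_mem so_lift mem_nb_norm)
open Pool.Agent.H62.EF (TorusMap pr MN pr_smul pr_eq_iff isCompact_pr continuousAt_pr)
open Pool.Agent.H62.EL (BadSet Gd)
open Pool.Agent.H87.LU (HP)
open Pool.Agent.H7.Per (prP prP_mk toLp_ne)

variable {M : ℕ} {Y V : Set (PN M)} {e : PN M → ℂ}

theorem toLp_ofLp (x : EN M) : (WithLp.toLp 2 x.ofLp : EN M) = x := rfl

theorem prP_inj {x y : PN M} (h : prP x = prP y) : x = y := by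
  obtain ⟨c, hc, h1⟩ := (pr_eq_iff (toLp_ne x.rep_nonzero) (toLp_ne y.rep_nonzero)).1 h
  rw [← x.mk_rep, ← y.mk_rep, Projectivization.mk_eq_mk_iff']
  refine ⟨c, ?_⟩
  have h2 := congrArg (fun x : EN M => x.ofLp) h1
  exact h2.symm

/-- the point of projective space with a given matrix -/
def tp (y : MN M) : PN M := by
  classical exact if h : ∃ x : PN M, prP x = y then h.choose else Projectivization.mk ℂ (fun _ => 1) (by
    intro h1
    have h2 := congrFun h1 0
    exact one_ne_zero h2)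

theorem tp_prP (x : PN M) : tp (prP x) = x := by
  have h : ∃ x' : PN M, prP x' = prP x := ⟨x, rfl⟩
  unfold tp
  rw [dif_pos h]
  exact prP_inj h.choose_spec

theorem prP_of {x : EN M} (hx : x.ofLp ≠ 0) : prP (Projectivization.mk ℂ x.ofLp hx) = pr x := by
  rw [prP_mk (h := hx) rfl, toLp_ofLp]

/-- the lift of a holomorphic map on a ball -/
theorem lift_ball {f : ℂ → PN M} {c : ℂ} {R r : ℝ} (hr : 0 < r) (hrR : r < R) (hf : HolomorphicInto f (ball c R)) :
    ∃ F : ℂ → EN M, DifferentiableOn ℂ F (ball c r) ∧ ∀ z ∈ ball c r, ∃ h : (F z).ofLp ≠ 0, f z = Projectivization.mk ℂ (F z).ofLp h := by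
  have hR : 0 < R := hr.trans hrR
  have hRC : (R : ℂ) ≠ 0 := by exact_mod_cast hR.ne'
  have h1 : HolomorphicInto (fun w => f (c + R * w)) (ball 0 1) := by
    intro w hw
    have hm : c + R * w ∈ ball c R := by
      rw [mem_ball_zero_iff] at hw
      rw [mem_ball, dist_eq_norm, add_sub_cancel_left, norm_mul, Complex.norm_real, Real.norm_of_nonneg hR.le]
      nlinarith
    obtain ⟨φ, hφ, he⟩ := hf _ hm
    have ha : AnalyticAt ℂ (fun w : ℂ => c + R * w) w := by fun_prop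
    exact ⟨fun w => φ (c + R * w), AnalyticAt.comp (g := φ) (f := fun w : ℂ => c + R * w) hφ ha, ha.continuousAt.tendsto.eventually he⟩
  obtain ⟨F, hF, hFf⟩ := lift_disc h1 (r := r / R) (by positivity) ((div_lt_one hR).2 hrR)
  have hmap : ∀ z ∈ ball c r, (z - c) / R ∈ ball (0 : ℂ) (r / R) := by
    intro z hz
    rw [mem_ball, dist_eq_norm] at hz
    rw [mem_ball_zero_iff, norm_div, Complex.norm_real, Real.norm_of_nonneg hR.le]
    exact div_lt_div_of_pos_right hz hR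
  refine ⟨fun z => F ((z - c) / R), ?_, fun z hz => ?_⟩
  · refine hF.comp ?_ hmap
    exact ((differentiable_id.sub_const c).div_const _).differentiableOn
  · obtain ⟨h2, h3⟩ := hFf _ (hmap z hz)
    refine ⟨h2, ?_⟩
    have h4 : c + R * ((z - c) / R) = z := by
      rw [mul_div_cancel₀ _ hRC]
      ring
    rw [← h3, h4]

/-- a lift of a section is a section -/
theorem secAt_of (h : IsModel Y V e) {a : ℂ} {G : ℂ → PN M} {F : ℂ → EN M} {z : ℂ} (hF : AnalyticAt ℂ F z)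
    (hFG : ∀ᶠ w in 𝓝 z, ∃ h : (F w).ofLp ≠ 0, G (w + a) = Projectivization.mk ℂ (F w).ofLp h) (hG : SecPN V e G (z + a)) :
    SecAt (XX Y V e) (DH Y V e) Lam (uu V e a) F z := by
  have ht : Tendsto (fun w : ℂ => w + a) (𝓝 z) (𝓝 (z + a)) := (continuous_id.add continuous_const).tendsto z
  refine ⟨hF, ?_⟩
  filter_upwards [hFG, ht.eventually hG.2] with w h1 h2
  obtain ⟨h3, h4⟩ := h1
  have hV : F w ∈ coneOf V := ⟨h3, h4 ▸ h2.1⟩
  refine ⟨V_sub_XX h hV, fun h5 => h5.2 hV, (uu_sub_iff h hV a w).2 ?_⟩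
  rw [ev_of h3, ← h4]
  exact h2.2

/-- the balls in a domain -/
structure Balls (Ω : Set ℂ) (c : ℕ → ℂ) (R : ℕ → ℝ) : Prop where
  pos : ∀ n, 0 < R n
  mono : ∀ n, ball (c n) (R n) ⊆ ball (c (n + 1)) (R (n + 1))
  sub : ∀ n, closedBall (c n) (R n) ⊆ Ω
  exh : ∀ K : Set ℂ, K ⊆ Ω → IsCompact K → ∃ n, K ⊆ ball (c n) (R n)

theorem Balls.le {Ω : Set ℂ} {c : ℕ → ℂ} {R : ℕ → ℝ} (h : Balls Ω c R) {n k : ℕ} (hnk : n ≤ k) : ball (c n) (R n) ⊆ ball (c k) (R k) := by
  induction k, hnk using Nat.le_induction with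
  | base => exact subset_rfl
  | succ k _ ih => exact ih.trans (h.mono k)

theorem balls_univ : Balls Set.univ (fun _ => 0) fun n => n + 1 where
  pos := fun n => by positivity
  mono := fun n => ball_subset_ball (by push_cast; linarith)
  sub := fun n => Set.subset_univ _
  exh := by
    intro K _ hK
    obtain ⟨R, hR⟩ := hK.isBounded.subset_ball (0 : ℂ)
    obtain ⟨n, hn⟩ := exists_nat_ge R
    exact ⟨n, hR.trans (ball_subset_ball (by linarith))⟩

/-- the balls in a half plane -/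
theorem balls_half {σ : ℝ} (hσ : σ = 1 ∨ σ = -1) (ρ : ℝ) :
    Balls (HPl σ ρ) (fun n => (σ * (ρ + 1 / (n + 1) + (n + 1)) : ℝ) * Complex.I) fun n => n + 1 := by
  have hσ2 : σ * σ = 1 := by rcases hσ with rfl | rfl <;> norm_num
  have hσa : |σ| = 1 := by rcases hσ with rfl | rfl <;> simp
  have himI : ∀ (z : ℂ) (x : ℝ), (z - (x : ℂ) * Complex.I).im = z.im - x := by
    intro z x
    simp
  refine ⟨fun n => by positivity, fun n => ?_, fun n => ?_, fun K hK hKc => ?_⟩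
  · refine ball_subset_ball' ?_
    have h1 : dist (((σ * (ρ + 1 / ((n : ℝ) + 1) + (n + 1)) : ℝ) : ℂ) * Complex.I)
        (((σ * (ρ + 1 / (((n + 1 : ℕ) : ℝ) + 1) + ((n + 1 : ℕ) + 1)) : ℝ) : ℂ) * Complex.I) = |1 / ((n : ℝ) + 1) - 1 / ((n : ℝ) + 1 + 1) - 1| := by
      rw [dist_eq_norm, ← sub_mul, norm_mul, Complex.norm_I, mul_one, ← Complex.ofReal_sub, Complex.norm_real, Real.norm_eq_abs]
      have h2 : σ * (ρ + 1 / ((n : ℝ) + 1) + (n + 1)) - σ * (ρ + 1 / (((n + 1 : ℕ) : ℝ) + 1) + ((n + 1 : ℕ) + 1)) =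
          σ * (1 / ((n : ℝ) + 1) - 1 / ((n : ℝ) + 1 + 1) - 1) := by
        push_cast
        ring
      rw [h2, abs_mul, hσa, one_mul]
    have hn : (0 : ℝ) ≤ n := Nat.cast_nonneg n
    have h3 : 1 / ((n : ℝ) + 1 + 1) ≤ 1 / ((n : ℝ) + 1) := one_div_le_one_div_of_le (by positivity) (by linarith)
    have h4 : 1 / ((n : ℝ) + 1) ≤ 1 := by
      rw [div_le_one (by positivity)]
      linarith
    have h5 : 0 < 1 / ((n : ℝ) + 1 + 1) := by positivity
    have h6 : |1 / ((n : ℝ) + 1) - 1 / ((n : ℝ) + 1 + 1) - 1| ≤ 1 := abs_le.2 ⟨by linarith, by linarith⟩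
    rw [h1]
    push_cast
    linarith
  · intro z hz
    rw [mem_closedBall, dist_eq_norm] at hz
    have h1 := (Complex.abs_im_le_norm _).trans hz
    have h2 : (z - ((σ * (ρ + 1 / ((n : ℝ) + 1) + (n + 1)) : ℝ) : ℂ) * Complex.I).im = z.im - σ * (ρ + 1 / ((n : ℝ) + 1) + (n + 1)) := himI _ _
    rw [h2] at h1
    have h3 : |σ * z.im - (ρ + 1 / ((n : ℝ) + 1) + (n + 1))| ≤ n + 1 := by
      have h4 : σ * z.im - (ρ + 1 / ((n : ℝ) + 1) + (n + 1)) = σ * (z.im - σ * (ρ + 1 / ((n : ℝ) + 1) + (n + 1))) := by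
        rw [mul_sub, ← mul_assoc, hσ2, one_mul]
      rw [h4, abs_mul, hσa, one_mul]
      exact h1
    have h5 := (abs_le.1 h3).1
    have h6 : 0 < 1 / ((n : ℝ) + 1) := by positivity
    show ρ < σ * z.im
    linarith
  · -- the minimum of `σ Im` on `K`
    obtain ⟨η, hη, hηK⟩ : ∃ η : ℝ, 0 < η ∧ ∀ z ∈ K, ρ + η ≤ σ * z.im := by
      rcases K.eq_empty_or_nonempty with rfl | hne
      · exact ⟨1, one_pos, fun z hz => absurd hz (Set.notMem_empty z)⟩
      · have hcont : ContinuousOn (fun z : ℂ => σ * z.im) K := (continuous_const.mul Complex.continuous_im).continuousOn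
        obtain ⟨z₀, hz₀, hmin⟩ := hKc.exists_isMinOn hne hcont
        have h1 : ρ < σ * z₀.im := hK hz₀
        refine ⟨σ * z₀.im - ρ, by linarith, fun z hz => ?_⟩
        have h2 : σ * z₀.im ≤ σ * z.im := hmin hz
        linarith
    obtain ⟨A, hA⟩ := hKc.isBounded.subset_closedBall (0 : ℂ)
    set T : ℝ := A ^ 2 + (A + |ρ| + 1) ^ 2 with hT
    obtain ⟨n, hn⟩ := exists_nat_gt (max (2 / η) (T / η))
    have hn1 : 2 / η < n := (le_max_left _ _).trans_lt hn
    have hn2 : T / η < n := (le_max_right _ _).trans_lt hn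
    have hn0 : (0 : ℝ) ≤ n := Nat.cast_nonneg n
    rw [div_lt_iff₀ hη] at hn1 hn2
    refine ⟨n, fun z hz => ?_⟩
    have h1 := hηK z hz
    have h2 : ‖z‖ ≤ A := by
      have := hA hz
      rwa [mem_closedBall_zero_iff] at this
    have hre : |z.re| ≤ A := (Complex.abs_re_le_norm z).trans h2
    have him : |z.im| ≤ A := (Complex.abs_im_le_norm z).trans h2
    have hA0 : 0 ≤ A := (norm_nonneg z).trans h2
    have hinv : 1 / ((n : ℝ) + 1) ≤ η / 2 := by
      rw [div_le_div_iff₀ (by positivity) two_pos]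
      nlinarith
    have hinv0 : 0 < 1 / ((n : ℝ) + 1) := by positivity
    have hinv1 : 1 / ((n : ℝ) + 1) ≤ 1 := by
      rw [div_le_one (by positivity)]
      linarith
    set t : ℝ := σ * z.im - ρ - 1 / ((n : ℝ) + 1) with ht
    have ht0 : η / 2 ≤ t := by linarith
    have ht1 : t ≤ A + |ρ| + 1 := by
      have h3 : σ * z.im ≤ A := by
        have h4 : |σ * z.im| ≤ A := by rw [abs_mul, hσa, one_mul]; exact him
        exact (le_abs_self _).trans h4
      have h5 := neg_abs_le ρ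
      linarith
    rw [mem_ball, dist_eq_norm]
    have h3 : ‖z - ((σ * (ρ + 1 / ((n : ℝ) + 1) + (n + 1)) : ℝ) : ℂ) * Complex.I‖ ^ 2 = z.re ^ 2 + (t - (n + 1)) ^ 2 := by
      rw [← Complex.normSq_eq_norm_sq, Complex.normSq_apply]
      have h4 : (z - ((σ * (ρ + 1 / ((n : ℝ) + 1) + (n + 1)) : ℝ) : ℂ) * Complex.I).re = z.re := by simp
      have h5 : (z - ((σ * (ρ + 1 / ((n : ℝ) + 1) + (n + 1)) : ℝ) : ℂ) * Complex.I).im = σ * (t - (n + 1)) := by
        have h6 : (z - ((σ * (ρ + 1 / ((n : ℝ) + 1) + (n + 1)) : ℝ) : ℂ) * Complex.I).im = z.im - σ * (ρ + 1 / ((n : ℝ) + 1) + (n + 1)) := himI _ _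
        rw [h6, ht]
        have h7 : σ * (σ * z.im - ρ - 1 / ((n : ℝ) + 1) - (n + 1)) = σ * σ * z.im - σ * (ρ + 1 / ((n : ℝ) + 1) + (n + 1)) := by ring
        rw [h7, hσ2, one_mul]
      rw [h4, h5]
      have h8 : σ * (t - (n + 1)) * (σ * (t - (n + 1))) = σ * σ * (t - (n + 1)) ^ 2 := by ring
      rw [h8, hσ2]
      ring
    have h4 : z.re ^ 2 ≤ A ^ 2 := sq_le_sq' (by linarith [(abs_le.1 hre).1]) (abs_le.1 hre).2
    have h5 : t ^ 2 ≤ (A + |ρ| + 1) ^ 2 := sq_le_sq' (by linarith [abs_nonneg ρ]) ht1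
    have h6 : ‖z - ((σ * (ρ + 1 / ((n : ℝ) + 1) + (n + 1)) : ℝ) : ℂ) * Complex.I‖ ^ 2 < ((n : ℝ) + 1) ^ 2 := by
      rw [h3]
      have h7 : η * (n + 1) ≤ 2 * t * (n + 1) := by
        have : η ≤ 2 * t := by linarith
        exact mul_le_mul_of_nonneg_right this (by positivity)
      nlinarith
    exact lt_of_pow_lt_pow_left₀ 2 (by positivity) h6

theorem secPN_hol {G : ℂ → PN M} {A : Set ℂ} (h : ∀ z ∈ A, SecPN V e G z) : HolomorphicInto G A := fun z hz => (h z hz).1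

/-- limits of sections in projective space are members of `SO` -/
theorem limSec_so (h : IsModel Y V e) {m : ℕ} {a : ℂ} {B₁ : Set ℂ} {δ : ℝ} {P : Set (EN M)}
    (E : LData (XX Y V e) (DH Y V e) P Lam (Gam m) (uu V e a) (BB B₁ a) δ) {Ω : Set ℂ} (hΩ : IsOpen Ω) {c : ℕ → ℂ} {R : ℕ → ℝ} (hb : Balls Ω c R)
    {Z : Set ℂ} {g : ℂ → PN M} (hg : LimSec V e Ω Z g) : ∃ f ∈ SO (XX Y V e) (DH Y V e) Lam (uu V e a) (BB B₁ a) {z | z + a ∈ Ω},
      ∀ z, z + a ∈ Ω → z + a ∉ Z → f z = prP (g (z + a)) := by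
  obtain ⟨-, l, G, hl, hG, hconv⟩ := hg
  set 𝒰 : Ultrafilter ℕ := Ultrafilter.of l with h𝒰
  have h𝒰l : (𝒰 : Filter ℕ) ≤ l := Ultrafilter.of_le l
  have hta : Continuous fun z : ℂ => z + a := continuous_id.add continuous_const
  have hΩ' : IsOpen {z | z + a ∈ Ω} := hΩ.preimage hta
  -- the domains
  set O : ℕ → Set ℂ := fun n => {z | ∃ k, z + a ∈ ball (c k) (R k) ∧ ∀ w ∈ closedBall (c k) (R k), SecPN V e (G n) w} with hO
  have hOK : ∀ K : Set ℂ, K ⊆ {z | z + a ∈ Ω} → IsCompact K → ∀ᶠ n in (𝒰 : Filter ℕ), K ⊆ O n := by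
    intro K hK hKc
    obtain ⟨k, hk⟩ := hb.exh ((fun z => z + a) '' K) (by rintro _ ⟨z, hz, rfl⟩; exact hK hz) (hKc.image hta)
    filter_upwards [h𝒰l (hG _ (hb.sub k) (isCompact_closedBall _ _))] with n hn z hz
    exact ⟨k, hk ⟨z, hz, rfl⟩, hn⟩
  have hFO : ∀ n, (fun z => prP (G n (z + a))) ∈ SO (XX Y V e) (DH Y V e) Lam (uu V e a) (BB B₁ a) (O n) := by
    intro n K hK hKc δ' ε hδ' hε
    rcases K.eq_empty_or_nonempty with rfl | hne
    · exact ⟨fun _ => 0, fun z hz => absurd hz (Set.notMem_empty z), fun z hz => absurd hz (Set.notMem_empty z)⟩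
    -- one ball contains `K`
    set good : ℕ → Prop := fun k => ∀ w ∈ closedBall (c k) (R k), SecPN V e (G n) w with hgood
    set U : ℕ → Set ℂ := fun k => {z | z + a ∈ ball (c k) (R k) ∧ good k} with hU
    have hUo : ∀ k, IsOpen (U k) := by
      intro k
      by_cases hk : good k
      · have h1 : U k = {z | z + a ∈ ball (c k) (R k)} := by
          ext z
          exact ⟨fun h2 => h2.1, fun h2 => ⟨h2, hk⟩⟩
        rw [h1]
        exact isOpen_ball.preimage hta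
      · have h1 : U k = ∅ := by
          ext z
          exact ⟨fun h2 => absurd h2.2 hk, fun h2 => absurd h2 (Set.notMem_empty z)⟩
        rw [h1]
        exact isOpen_empty
    have hdir : Directed (· ⊆ ·) U := by
      have h1 : ∀ i j, i ≤ j → ∃ k, U i ⊆ U k ∧ U j ⊆ U k := by
        intro i j hij
        by_cases hj : good j
        · exact ⟨j, fun z hz => ⟨hb.le hij hz.1, hj⟩, subset_rfl⟩
        · exact ⟨i, subset_rfl, fun z hz => absurd hz.2 hj⟩
      intro i j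
      rcases le_total i j with hij | hij
      · exact h1 i j hij
      · obtain ⟨k, h2, h3⟩ := h1 j i hij
        exact ⟨k, h3, h2⟩
    obtain ⟨k, hk⟩ := hKc.elim_directed_cover U hUo (fun z hz => by
      obtain ⟨k, h1, h2⟩ := hK hz
      exact Set.mem_iUnion.2 ⟨k, h1, h2⟩) hdir
    obtain ⟨z₁, hz₁⟩ := hne
    have hgk : good k := (hk hz₁).2
    obtain ⟨r, ⟨hr0, hrR⟩, hrK⟩ := exists_pos_lt_subset_ball (hb.pos k) (hKc.image hta).isClosed (x := c k) (s := (fun z => z + a) '' K) (by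
      rintro _ ⟨z, hz, rfl⟩
      exact (hk hz).1)
    obtain ⟨F, hF, hFG⟩ := lift_ball hr0 hrR (secPN_hol (V := V) (e := e) fun z hz => hgk z (ball_subset_closedBall hz))
    have hmem : ∀ z ∈ K, z + a ∈ ball (c k) r := fun z hz => hrK ⟨z, hz, rfl⟩
    refine ⟨fun z => F (z + a), fun z hz => ?_, fun z hz _ => ?_⟩
    · refine secAt_of h ?_ ?_ (hgk _ (ball_subset_closedBall (ball_subset_ball hrR.le (hmem z hz))))
      · have h1 : AnalyticAt ℂ F (z + a) := hF.analyticAt (isOpen_ball.mem_nhds (hmem z hz))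
        have h2 : AnalyticAt ℂ (fun z : ℂ => z + a) z := analyticAt_id.add analyticAt_const
        exact AnalyticAt.comp (g := F) (f := fun z : ℂ => z + a) h1 h2
      · filter_upwards [hta.continuousAt.eventually (isOpen_ball.mem_nhds (hmem z hz))] with w hw
        exact hFG _ hw
    · obtain ⟨h1, h2⟩ := hFG _ (hmem z hz)
      show dist (pr (F (z + a))) (prP (G n (z + a))) < ε
      rw [h2, prP_of, dist_self]
      exact hε
  -- the limits
  have hlim : ∀ z : ℂ, ∃ y : MN M, (z + a ∈ Ω → z ∉ BB B₁ a → Tendsto (fun n => prP (G n (z + a))) 𝒰 (𝓝 y)) ∧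
      (z + a ∈ Ω → z + a ∉ Z → y = prP (g (z + a))) := by
    intro z
    by_cases hzΩ : z + a ∈ Ω
    · by_cases hzZ : z + a ∈ Z
      · by_cases hzB : z ∈ BB B₁ a
        · exact ⟨pr 0, fun _ h1 => absurd hzB h1, fun _ h1 => absurd hzZ h1⟩
        · have h1 : ∀ᶠ n in (𝒰 : Filter ℕ), prP (G n (z + a)) ∈ pr '' (part (XX Y V e) Lam (uu V e a) ‖z‖) := by
            filter_upwards [hOK {z} (Set.singleton_subset_iff.2 hzΩ) isCompact_singleton] with n hn
            exact so_mem E (hFO n) (hn rfl) hzB (mem_nb_norm z)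
          have h2 : ((𝒰.map fun n => prP (G n (z + a)) : Ultrafilter (MN M)) : Filter (MN M)) ≤ 𝓟 (pr '' (part (XX Y V e) Lam (uu V e a) ‖z‖)) := by
            rw [Filter.le_principal_iff]
            exact h1
          obtain ⟨y, -, hy⟩ := (isCompact_pr (E.part_isCone ‖z‖)).ultrafilter_le_nhds _ h2
          exact ⟨y, fun _ _ => hy, fun _ h1 => absurd hzZ h1⟩
      · refine ⟨prP (g (z + a)), fun _ _ => ?_, fun _ _ => rfl⟩
        obtain ⟨s, Φ, Φ₀, hs, h1, -, h3, h4⟩ := hconv _ hzΩ hzZ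
        obtain ⟨h5, h6⟩ := h3 _ (mem_ball_self hs)
        have h7 : Tendsto (fun n => Φ n (z + a)) 𝒰 (𝓝 (Φ₀ (z + a))) := (h4.tendsto_at (mem_ball_self hs)).mono_left h𝒰l
        have h8 : Tendsto (fun n => pr (WithLp.toLp 2 (Φ n (z + a)) : EN M)) 𝒰 (𝓝 (pr (WithLp.toLp 2 (Φ₀ (z + a)) : EN M))) := by
          have h9 : Tendsto (fun n => (WithLp.toLp 2 (Φ n (z + a)) : EN M)) 𝒰 (𝓝 (WithLp.toLp 2 (Φ₀ (z + a)) : EN M)) :=
            ((PiLp.continuous_toLp 2 _).tendsto _).comp h7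
          exact (continuousAt_pr (toLp_ne h5)).tendsto.comp h9
        rw [prP_mk h6]
        refine h8.congr' ?_
        filter_upwards [h𝒰l h1] with n hn
        obtain ⟨h9, h10⟩ := hn.2 _ (mem_ball_self hs)
        exact (prP_mk h10).symm
    · exact ⟨pr 0, fun h1 => absurd h1 hzΩ, fun h1 => absurd h1 hzΩ⟩
  choose f hf1 hf2 using hlim
  refine ⟨f, so_limO E 𝒰 O hΩ' hOK (fun n z => prP (G n (z + a))) f (Eventually.of_forall hFO) (fun z hz hzB => hf1 z hz hzB), fun z hz hzZ => hf2 z hz hzZ⟩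

/-- members of `SO` as maps to projective space -/
theorem so_hol (h : IsModel Y V e) {m : ℕ} {a : ℂ} {B₁ : Set ℂ} {δ : ℝ} {P : Set (EN M)}
    (E : LData (XX Y V e) (DH Y V e) P Lam (Gam m) (uu V e a) (BB B₁ a) δ) {Ω : Set ℂ} (hΩ : IsOpen Ω) {f : ℂ → MN M}
    (hf : f ∈ SO (XX Y V e) (DH Y V e) Lam (uu V e a) (BB B₁ a) Ω) {z : ℂ} (hz : z - a ∈ Ω) (hzB : z - a ∉ BB B₁ a) :
    (∃ φ : ℂ → Fin (M + 1) → ℂ, AnalyticAt ℂ φ z ∧ ∀ᶠ w in 𝓝 z, ∃ h : φ w ≠ 0, tp (f (w - a)) = Projectivization.mk ℂ (φ w) h) ∧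
      prP (tp (f (z - a))) = f (z - a) := by
  obtain ⟨r, Ψ, hr, -, hΨ, hΨf, -⟩ := so_lift E hΩ hf hz hzB
  have hsub : Continuous fun z : ℂ => z - a := continuous_id.sub continuous_const
  have hne : ∀ w ∈ ball (z - a) r, (Ψ w).ofLp ≠ 0 := fun w hw => (hΨf w hw).2.1.1.1
  have hkey : ∀ w ∈ ball (z - a) r, ∃ h : (Ψ w).ofLp ≠ 0, tp (f w) = Projectivization.mk ℂ (Ψ w).ofLp h := by
    intro w hw
    refine ⟨hne w hw, ?_⟩
    rw [← (hΨf w hw).2.2.2, ← prP_of (hne w hw), tp_prP]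
  refine ⟨⟨fun w => (Ψ (w - a)).ofLp, ?_, ?_⟩, ?_⟩
  · have h1 : AnalyticAt ℂ Ψ (z - a) := hΨ.analyticAt (isOpen_ball.mem_nhds (mem_ball_self hr))
    have h2 : AnalyticAt ℂ (fun z : ℂ => z - a) z := analyticAt_id.sub analyticAt_const
    exact Pool.Agent.H36.BP.analyticAt_ofLp (AnalyticAt.comp (g := Ψ) (f := fun z : ℂ => z - a) h1 h2)
  · filter_upwards [hsub.continuousAt.eventually (isOpen_ball.mem_nhds (mem_ball_self hr))] with w hw
    exact hkey _ hw
  · obtain ⟨h1, h2⟩ := hkey _ (mem_ball_self hr)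
    rw [h2, prP_of]
    exact (hΨf _ (mem_ball_self hr)).2.2.2

/-- **The output of the dynamical part.** -/
theorem exists_out (h : IsModel Y V e) (hH : IsHyperbolic Y V e) (hL : HasLogForms Y V e) :
    ∃ (q : ℕ) (B : Set ℂ) (ι : Type) (f : ι → ℂ → PN M), Finite ι ∧ Out V e q B f := by
  obtain ⟨m, a, B₁, δ, P, q, 𝓕, hm, hB, h0, E, hq, hfin, hsub, hfull, hhalf, hper, hshort⟩ := exists_core h hH hL
  obtain ⟨W, hW0, hW⟩ := bad_re hB 0
  have hBB : ∀ z : ℂ, Complex.exp z ∈ B₁ ↔ z - a ∈ BB B₁ a := by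
    intro z
    show Complex.exp z ∈ B₁ ↔ Complex.exp (z - a + a) ∈ B₁
    rw [sub_add_cancel]
  have hreB : ∀ z : ℂ, Complex.exp z ∈ B₁ → |z.re| ≤ W := by
    intro z hz
    refine hW z ?_
    show Complex.exp (z + 0) ∈ B₁
    rwa [add_zero]
  refine ⟨m * q, {z | Complex.exp z ∈ B₁}, {f // f ∈ 𝓕}, fun f z => tp (f.1 (z - a)), hfin.to_subtype, ?_⟩
  have hmq : (1 : ℕ) ≤ m * q := Nat.one_le_iff_ne_zero.2 (mul_ne_zero (Nat.one_le_iff_ne_zero.1 hm) (Nat.one_le_iff_ne_zero.1 hq))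
  refine
    { q_pos := hmq
      closed := hB.isClosed.preimage Complex.continuous_exp
      discrete := ?_
      B_inv := ?_
      B_re := ⟨W, hreB⟩
      hol := ?_
      per := ?_
      short := ?_
      full := ?_
      half := ?_ }
  · intro z
    have h1 := Pool.Agent.H87.LV.badSet_disc E.bad (z - a)
    have h2 : Tendsto (fun w : ℂ => w - a) (𝓝[≠] z) (𝓝[≠] (z - a)) := by
      refine tendsto_nhdsWithin_iff.2 ⟨(((continuous_id.sub continuous_const).tendsto z).mono_left nhdsWithin_le_nhds), ?_⟩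
      filter_upwards [self_mem_nhdsWithin] with w hw h3
      exact hw (sub_left_injective h3)
    filter_upwards [h2.eventually h1] with w hw h3
    exact hw ((hBB w).1 h3)
  · intro b hb k
    show Complex.exp (b + k * (2 * Real.pi * Complex.I * (m * q : ℕ))) ∈ B₁
    have h1 : Complex.exp (k * (2 * Real.pi * Complex.I * (m * q : ℕ))) = 1 := by
      rw [Complex.exp_eq_one_iff]
      exact ⟨k * (m * q : ℕ), by push_cast; ring⟩
    rw [Complex.exp_add, h1, mul_one]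
    exact hb
  · intro f z hz
    exact (so_hol h E isOpen_univ (hsub f.2) (Set.mem_univ _) (fun h1 => hz ((hBB z).2 h1))).1
  · intro f z hz
    show tp (f.1 (z + 2 * Real.pi * Complex.I * (m * q : ℕ) - a)) = tp (f.1 (z - a))
    have h1 := hper f.1 (hsub f.2) (z - a) (fun h1 => hz ((hBB z).2 h1))
    have h2 : z - a + (2 * Real.pi * m : ℝ) * q * Complex.I = z + 2 * Real.pi * Complex.I * (m * q : ℕ) - a := by
      push_cast
      ring
    rw [h2] at h1
    rw [h1]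
  · intro f R ε hε
    obtain ⟨X₀, hX₀⟩ := hshort R ε hε
    refine ⟨max (X₀ + |a.re|) (W + R), fun z w hz hwz => ?_⟩
    have hz1 : X₀ + |a.re| < |z.re| := (le_max_left _ _).trans_lt hz
    have hz2 : W + R < |z.re| := (le_max_right _ _).trans_lt hz
    have hR0 : 0 ≤ R := (norm_nonneg _).trans hwz
    have hzB : z - a ∉ BB B₁ a := by
      intro h1
      have h2 := hreB z ((hBB z).2 h1)
      linarith
    have hwB : w - a ∉ BB B₁ a := by
      intro h1
      have h2 := hreB w ((hBB w).2 h1)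
      have h3 : |z.re| ≤ |w.re| + ‖w - z‖ := by
        have h4 := Complex.abs_re_le_norm (w - z)
        rw [Complex.sub_re] at h4
        have h5 : |z.re| ≤ |w.re| + |w.re - z.re| := by
          have h6 : z.re = w.re - (w.re - z.re) := by ring
          calc |z.re| = |w.re - (w.re - z.re)| := by rw [← h6]
            _ ≤ |w.re| + |w.re - z.re| := abs_sub _ _
        linarith
      linarith
    show dist (prP (tp (f.1 (w - a)))) (prP (tp (f.1 (z - a)))) < ε
    rw [(so_hol h E isOpen_univ (hsub f.2) (Set.mem_univ _) hwB).2, (so_hol h E isOpen_univ (hsub f.2) (Set.mem_univ _) hzB).2]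
    refine hX₀ f.1 (hsub f.2) (z - a) (w - a) ?_ ?_
    · rw [Complex.sub_re]
      have h6 : |z.re| ≤ |z.re - a.re| + |a.re| := by
        have h7 : z.re = (z.re - a.re) + a.re := by ring
        calc |z.re| = |(z.re - a.re) + a.re| := by rw [← h7]
          _ ≤ |z.re - a.re| + |a.re| := abs_add_le _ _
      linarith
    · have h1 : w - a - (z - a) = w - z := by ring
      rw [h1]
      exact hwz
  · intro Z g hg
    obtain ⟨f, hf, hfg⟩ := limSec_so h E isOpen_univ balls_univ hg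
    have h1 : {z : ℂ | z + a ∈ Set.univ} = Set.univ := Set.eq_univ_of_forall fun z => Set.mem_univ _
    rw [h1] at hf
    obtain ⟨f', hf', hff'⟩ := hfull f hf
    refine ⟨⟨f', hf'⟩, fun z hzB hzZ => ?_⟩
    have h2 := hff' (z - a) (fun h3 => hzB ((hBB z).2 h3))
    have h3 := hfg (z - a) (Set.mem_univ _) (by rwa [sub_add_cancel])
    rw [sub_add_cancel] at h3
    show g z = tp (f' (z - a))
    rw [← h2, h3, tp_prP]
  · intro σ ρ hσ Z g hg
    have hO : IsOpen (HPl σ ρ) := isOpen_lt continuous_const (continuous_const.mul Complex.continuous_im)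
    obtain ⟨f, hf, hfg⟩ := limSec_so h E hO (balls_half hσ ρ) hg
    have h1 : {z : ℂ | z + a ∈ HPl σ ρ} = HP σ (ρ - σ * a.im) := by
      ext z
      show ρ < σ * (z + a).im ↔ ρ - σ * a.im < σ * z.im
      rw [Complex.add_im, mul_add]
      constructor <;> intro h2 <;> linarith
    rw [h1] at hf
    obtain ⟨f', hf', hff'⟩ := hhalf σ _ hσ f hf
    refine ⟨⟨f', hf'⟩, fun z hz hzB hzZ => ?_⟩
    have h4 : z - a ∈ HP σ (ρ - σ * a.im) := by
      rw [← h1]
      show z - a + a ∈ HPl σ ρ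
      rwa [sub_add_cancel]
    have h2 := hff' (z - a) h4 (fun h3 => hzB ((hBB z).2 h3))
    have h3 := hfg (z - a) (by rwa [sub_add_cancel]) (by rwa [sub_add_cancel])
    rw [sub_add_cancel] at h3
    show g z = tp (f' (z - a))
    rw [← h2, h3, tp_prP]

end Pool.Agent.H6.LU
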