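import Pool.Agent.H6.LU.En
import Pool.Agent.H87.LV.EndU
import Pool.Agent.H87.LV.Core

/-!
# LU As: from the data in projective space to the conclusion of the dynamical part
-/

set_option autoImplicit false

open Topology Filter Metric

noncomputable section

namespace Pool.Agent.H6.LU

open Pool.Agent.H17 (PN HolomorphicInto)
open Pool.Agent.H36.BP (EN coneOf coneOf_smul ne_zero_of_ofLp ofLp_ne_zero IsGermChart)
open Pool.Agent.H4.LU (Mem val IsParam IsInner IsHorChart IsEndChart IsEnd IsRegularEnd IsModel Over IsTangent IsLogForm VanishesOver IsNowhereZero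
  IsHyperbolic HasLogForms)
open Pool.Agent.H18.LU (OCone Dsc Nb part HorAt LFib LBase LData LogP ResBd SO exists_P)
open Pool.Agent.H62.EF (TorusMap pr MN)
open Pool.Agent.H62.EL (TForm BadSet Per VanZero Thin)
open Pool.Agent.EG.LE (cf Typ IsEndT EndData)
open Pool.Agent.H87.LU (HP)

variable {M : ℕ} {Y V : Set (PN M)} {e : PN M → ℂ}

/-- the bad values -/
theorem exists_bad (h : IsModel Y V e) (hH : IsHyperbolic Y V e) : ∃ B₁ : Set ℂ, B₁.Finite ∧ (0 : ℂ) ∉ B₁ ∧ CV Y V e ⊆ B₁ ∧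
    ∀ c, c ∉ B₁ → ∀ f : ℂ → PN M, HolomorphicInto f Set.univ → (∀ z, f z ∈ V ∧ e (f z) = c) → ∀ z w, f z = f w := by
  obtain ⟨B₀, hB₀, hfib⟩ := hH.fibre
  refine ⟨(B₀ ∪ CV Y V e) \ {0}, (hB₀.union (finite_CV h)).subset Set.sdiff_subset, fun h1 => h1.2 rfl, ?_, ?_⟩
  · rintro w hw
    refine ⟨Or.inr hw, ?_⟩
    obtain ⟨x, σ, τ, c, i, j, -, -, rfl⟩ := hw
    exact Complex.exp_ne_zero c
  · intro c hc f hf hfV
    by_cases h0 : c = 0
    · exfalso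
      obtain ⟨h1, h2⟩ := hfV 0
      have h3 : (WithLp.toLp 2 (f 0).rep : EN M) ∈ coneOf V := by
        refine ⟨(f 0).rep_nonzero, ?_⟩
        show Projectivization.mk ℂ (f 0).rep (f 0).rep_nonzero ∈ V
        rw [Projectivization.mk_rep]
        exact h1
      refine ev_ne_zero h h3 ?_
      rw [ev_of h3.1]
      show e (Projectivization.mk ℂ (f 0).rep (f 0).rep_nonzero) = 0
      rw [Projectivization.mk_rep, h2, h0]
    · exact hfib c (fun h1 => hc ⟨Or.inl h1, h0⟩) f hf hfV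

/-- the choice of the base point -/
theorem exists_base {B₁ : Set ℂ} (hB : B₁.Finite) (hL : HasLogForms Y V e) : ∃ (m : ℕ) (a : ℂ)
    (Ω : ℂ → (Fin (M + 1) → ℂ) → (Fin (M + 1) → ℂ) → (Fin (M + 1) → ℂ) → ℂ), 1 ≤ m ∧ Complex.exp a ∉ B₁ ∧ IsLogForm Y V e m Ω ∧
      IsNowhereZero V e Ω ∧ VanishesOver V e Ω a := by
  obtain ⟨m, hm, hinf⟩ := hL
  have hm0 : m ≠ 0 := Nat.one_le_iff_ne_zero.1 hm
  have hfin : {v : ℂ | v = 0 ∨ v ^ m ∈ B₁}.Finite := by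
    have h1 : {v : ℂ | v ^ m ∈ B₁}.Finite := by
      have h2 : {v : ℂ | v ^ m ∈ B₁} = ⋃ c ∈ B₁, {v : ℂ | v ^ m = c} := by
        ext v
        simp
      rw [h2]
      refine hB.biUnion fun c _ => ?_
      have h3 : {v : ℂ | v ^ m = c} ⊆ ((Polynomial.X ^ m - Polynomial.C c : Polynomial ℂ).roots.toFinset : Set ℂ) := by
        intro v hv
        have hne : (Polynomial.X ^ m - Polynomial.C c : Polynomial ℂ) ≠ 0 := Polynomial.X_pow_sub_C_ne_zero (Nat.pos_of_ne_zero hm0) c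
        rw [Finset.mem_coe, Multiset.mem_toFinset, Polynomial.mem_roots hne, Polynomial.IsRoot.def]
        simp only [Polynomial.eval_sub, Polynomial.eval_pow, Polynomial.eval_X, Polynomial.eval_C]
        rw [Set.mem_ofPred_eq] at hv
        rw [hv, sub_self]
      exact (Finset.finite_toSet _).subset h3
    exact (Set.finite_singleton (0 : ℂ)).union h1
  obtain ⟨v, ⟨Ω, h1, h2, h3⟩, hv⟩ := (hinf.sdiff hfin).nonempty
  rw [Set.mem_ofPred_eq, not_or] at hv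
  have hmC : (m : ℂ) ≠ 0 := by exact_mod_cast hm0
  have he : Complex.exp ((m * Complex.log v) / m) = v := by
    rw [mul_div_cancel_left₀ _ hmC, Complex.exp_log hv.1]
  refine ⟨m, m * Complex.log v, Ω, hm, ?_, h1, h2, h3 _ he⟩
  rw [Complex.exp_nat_mul, Complex.exp_log hv.1]
  exact hv.2

/-- **The dynamical part, for families over `ℂ^*` in projective space.** -/
theorem exists_core (h : IsModel Y V e) (hH : IsHyperbolic Y V e) (hL : HasLogForms Y V e) :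
    ∃ (m : ℕ) (a : ℂ) (B₁ : Set ℂ) (δ : ℝ) (P : Set (EN M)) (q : ℕ) (𝓕 : Set (ℂ → MN M)), 1 ≤ m ∧ B₁.Finite ∧ (0 : ℂ) ∉ B₁ ∧
      LData (XX Y V e) (DH Y V e) P Lam (Gam m) (uu V e a) (BB B₁ a) δ ∧
      1 ≤ q ∧ 𝓕.Finite ∧ 𝓕 ⊆ SO (XX Y V e) (DH Y V e) Lam (uu V e a) (BB B₁ a) Set.univ ∧
      (∀ f ∈ SO (XX Y V e) (DH Y V e) Lam (uu V e a) (BB B₁ a) Set.univ, ∃ g ∈ 𝓕, ∀ z, z ∉ BB B₁ a → f z = g z) ∧
      (∀ σ ρ : ℝ, σ = 1 ∨ σ = -1 → ∀ f ∈ SO (XX Y V e) (DH Y V e) Lam (uu V e a) (BB B₁ a) (HP σ ρ), ∃ g ∈ 𝓕, ∀ z ∈ HP σ ρ, z ∉ BB B₁ a → f z = g z) ∧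
      (∀ f ∈ SO (XX Y V e) (DH Y V e) Lam (uu V e a) (BB B₁ a) Set.univ, ∀ z, z ∉ BB B₁ a →
        f (z + (2 * Real.pi * m : ℝ) * q * Complex.I) = f z) ∧
      ∀ R ε : ℝ, 0 < ε → ∃ X₀ : ℝ, ∀ f ∈ SO (XX Y V e) (DH Y V e) Lam (uu V e a) (BB B₁ a) Set.univ, ∀ z w : ℂ,
        X₀ < |z.re| → ‖w - z‖ ≤ R → dist (f w) (f z) < ε := by
  obtain ⟨B₁, hB, h0, hCV, hfib⟩ := exists_bad h hH
  obtain ⟨m, a, Ω, hm, ha, hΩ, hn, hv⟩ := exists_base hB hL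
  obtain ⟨δ, hδ, hbs⟩ := bad_set hB h0 ha
  obtain ⟨hbad, hzero⟩ := hbs δ hδ le_rfl
  obtain ⟨W, -, hW⟩ := bad_re hB a
  have E := lbase h hm hbad hzero hCV hfib
  obtain ⟨P, E', α', hα', hlog, hper, hvan, hthin⟩ := exists_P E (tf h hΩ a (XX_diff h)) (logP_tf h hΩ a) (resBd_tf h hm hΩ E)
    (per_tf h hm hΩ a (XX_diff h)) (vanZero_tf h hΩ hv (XX_diff h)) (thin_tf h hΩ hn a (XX_diff h))
  have h₀ : EndData (coneOf Y) (XX Y V e \ P) (XX Y V e \ DH Y V e) (DD Y V e) Lam (uu V e a) α' :=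
    endData h a E'.P_sub E'.P_smul E'.P_closed (Or.inl ⟨rfl, rfl⟩) (fun x => (one_mul _).symm)
      (fun k nd hor σ₀ τ₀ y c hch hc => Pool.Agent.H87.LV.endT_left h hΩ a E'.P_sub E'.P_smul E'.P_closed E'.P_open hα' hc hch) h.zero hH.zero
  have h₁ : EndData (coneOf Y) (XX Y V e \ P) (XX Y V e \ DH Y V e) (DD Y V fun y => (e y)⁻¹) Lam (fun x => -uu V e a x) α'.refl :=
    endData h a E'.P_sub E'.P_smul E'.P_closed (Or.inr ⟨rfl, rfl⟩) (fun x => (neg_one_mul _).symm)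
      (fun k nd hor σ₀ τ₀ y c hch hc => Pool.Agent.H87.LV.endT_right h hΩ a E'.P_sub E'.P_smul E'.P_closed E'.P_open hα' hc hch) h.infty hH.infty
  have hp : 0 < 2 * Real.pi * (m : ℝ) := by
    have h1 : (0 : ℝ) < m := by exact_mod_cast hm
    positivity
  have hpΓ : ((2 * Real.pi * (m : ℝ) : ℝ) : ℂ) * Complex.I ∈ Gam m := by
    rw [mem_Gam_iff hm]
    refine ⟨1, ?_⟩
    push_cast
    ring
  obtain ⟨q, 𝓕, h1, h2, h3, h4, h5, h6, h7⟩ := Pool.Agent.H87.LV.core E' hp hpΓ hlog hper hvan hthin h₀ h₁ hW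
  exact ⟨m, a, B₁, δ, P, q, 𝓕, hm, hB, h0, E', h1, h2, h3, h4, h5, h6, h7⟩

end Pool.Agent.H6.LU
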