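import Pool.Agent.H4.LU.Defs
import Pool.Agent.H36.BP.MainA
import Pool.Agent.H18.LU.Base

/-!
# LU Conv: from `ℙ^M` to cones in the euclidean space

The cone-level versions of the charts of `H4/LU/Defs.lean`.
-/

set_option autoImplicit false

open Topology Filter Metric

noncomputable section

namespace Pool.Agent.H6.LU

open Pool.Agent.H17 (PN HolomorphicInto)
open Pool.Agent.H36.BP (EN coneOf coneOf_smul ne_zero_of_ofLp ofLp_ne_zero)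
open Pool.Agent.H4.LU (Mem val IsParam IsInner IsHorChart IsEndChart IsEnd IsRegularEnd IsModel)

variable {M : ℕ}

/-- the function `e` on the cone -/
def ev (e : PN M → ℂ) (x : EN M) : ℂ := val e x.ofLp

theorem ev_of {e : PN M → ℂ} {x : EN M} (h : x.ofLp ≠ 0) : ev e x = e (Projectivization.mk ℂ x.ofLp h) := by
  unfold ev val
  rw [dif_pos h]

theorem ev_smul (e : PN M → ℂ) (x : EN M) {c : ℂ} (hc : c ≠ 0) : ev e (c • x) = ev e x := by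
  by_cases h : x.ofLp = 0
  · have h1 : c • x = x := by
      have h2 : x = 0 := by ext i; exact congrFun h i
      rw [h2, smul_zero]
    rw [h1]
  · have h2 : (c • x).ofLp ≠ 0 := by
      intro h0
      have h3 : c • x.ofLp = 0 := h0
      exact h ((smul_eq_zero.mp h3).resolve_left hc)
    rw [ev_of h, ev_of h2]
    congr 1
    exact Pool.Agent.H36.BP.mk_smul_eq h h2

theorem ev_inv (e : PN M → ℂ) {x : EN M} (h : x.ofLp ≠ 0) : ev (fun y => (e y)⁻¹) x = (ev e x)⁻¹ := by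
  rw [ev_of h, ev_of h]

theorem mem_coneOf {Y : Set (PN M)} {x : EN M} : x ∈ coneOf Y ↔ Mem Y x.ofLp := Iff.rfl

theorem zero_notMem_coneOf (Y : Set (PN M)) : (0 : EN M) ∉ coneOf Y := by
  rintro ⟨h, -⟩
  exact h rfl

theorem coneOf_smul_iff {Y : Set (PN M)} {x : EN M} {c : ℂ} (hc : c ≠ 0) : c • x ∈ coneOf Y ↔ x ∈ coneOf Y := by
  constructor
  · intro h
    have h1 := coneOf_smul h (inv_ne_zero hc)
    rwa [smul_smul, inv_mul_cancel₀ hc, one_smul] at h1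
  · intro h
    exact coneOf_smul h hc

/-- a parametrization of the cone `X` near `x` by a neighbourhood of `0` in `ℂ²` modulo the rotations of order `k` -/
structure GP (X : Set (EN M)) (k : ℕ) (σ : ℂ × ℂ → EN M) (τ : EN M → ℂ × ℂ) (x : EN M) : Prop where
  σ_an : AnalyticAt ℂ σ 0
  τ_an : AnalyticAt ℂ τ x
  center : σ 0 = x
  mem : ∀ᶠ p in 𝓝 (0 : ℂ × ℂ), σ p ∈ X
  coord : ∀ᶠ p in 𝓝 (0 : ℂ × ℂ), τ (σ p) = (p.1 ^ k, p.2 ^ k)
  onto : ∀ᶠ y in 𝓝 x, y ∈ X → ∃ (a : ℂ) (p : ℂ × ℂ), a ≠ 0 ∧ y = a • σ p ∧ τ y = (p.1 ^ k, p.2 ^ k)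
  inv : ∀ᶠ z in 𝓝 (x, (1 : ℂ)), τ (z.2 • z.1) = τ z.1
  quot : ∀ᶠ p in 𝓝 (0 : ℂ × ℂ), ∀ ζ : ℂ, ζ ^ k = 1 → ∃ a : ℂ, a ≠ 0 ∧ σ (ζ * p.1, ζ⁻¹ * p.2) = a • σ p

/-- the linear map `Fin (M + 1) → ℂ` to the euclidean space -/
def lp (M : ℕ) : (Fin (M + 1) → ℂ) →L[ℂ] EN M := ((EuclideanSpace.equiv (Fin (M + 1)) ℂ).symm : (Fin (M + 1) → ℂ) →L[ℂ] EN M)

/-- the inverse map -/
def pl (M : ℕ) : EN M →L[ℂ] (Fin (M + 1) → ℂ) := ((EuclideanSpace.equiv (Fin (M + 1)) ℂ) : EN M →L[ℂ] (Fin (M + 1) → ℂ))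

theorem pl_apply (x : EN M) : pl M x = x.ofLp := rfl
theorem lp_apply (x : Fin (M + 1) → ℂ) : lp M x = WithLp.toLp 2 x := rfl
theorem pl_lp (x : Fin (M + 1) → ℂ) : pl M (lp M x) = x := rfl
theorem lp_pl (x : EN M) : lp M (pl M x) = x := rfl

theorem mem_coneOf' {Y : Set (PN M)} {x : Fin (M + 1) → ℂ} : lp M x ∈ coneOf Y ↔ Mem Y x := Iff.rfl

theorem gp_of_param {Y : Set (PN M)} {k : ℕ} {σ : ℂ × ℂ → Fin (M + 1) → ℂ} {τ : (Fin (M + 1) → ℂ) → ℂ × ℂ} {y : PN M}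
    (h : IsParam Y k σ τ y) {c : ℂ} (hc : c ≠ 0) :
    GP (coneOf Y) k (fun p => c • lp M (σ p)) (fun x => τ (pl M (c⁻¹ • x))) (c • lp M (σ 0)) := by
  have hcc : ∀ x : EN M, c⁻¹ • c • x = x := fun x => by rw [smul_smul, inv_mul_cancel₀ hc, one_smul]
  have hcc' : ∀ x : EN M, c • c⁻¹ • x = x := fun x => by rw [smul_smul, mul_inv_cancel₀ hc, one_smul]
  have hcont : Tendsto (fun x : EN M => pl M (c⁻¹ • x)) (𝓝 (c • lp M (σ 0))) (𝓝 (σ 0)) := by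
    have h1 : Continuous fun x : EN M => pl M (c⁻¹ • x) := (pl M).continuous.comp (continuous_const_smul _)
    have h2 := h1.tendsto (c • lp M (σ 0))
    rwa [hcc, pl_lp] at h2
  refine ⟨?_, ?_, rfl, ?_, ?_, ?_, ?_, ?_⟩
  · exact ((c • lp M : (Fin (M + 1) → ℂ) →L[ℂ] EN M).analyticAt _).comp h.analytic
  · have h1 : AnalyticAt ℂ (fun x : EN M => pl M (c⁻¹ • x)) (c • lp M (σ 0)) :=
      (((pl M).comp (c⁻¹ • ContinuousLinearMap.id ℂ (EN M))).analyticAt _)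
    have h2 : AnalyticAt ℂ τ (pl M (c⁻¹ • (c • lp M (σ 0)))) := by rw [hcc, pl_lp]; exact h.analytic'
    exact AnalyticAt.comp (g := τ) (f := fun x : EN M => pl M (c⁻¹ • x)) h2 h1
  · filter_upwards [h.mem] with p hp
    exact coneOf_smul (mem_coneOf'.2 hp) hc
  · filter_upwards [h.coord] with p hp
    show τ (pl M (c⁻¹ • (c • lp M (σ p)))) = _
    rw [hcc, pl_lp, hp]
  · filter_upwards [hcont.eventually h.onto] with y hy hyX
    obtain ⟨a, p, ha, h1, h2⟩ := hy (by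
      have := coneOf_smul hyX (inv_ne_zero hc)
      exact this)
    refine ⟨a, p, ha, ?_, h2⟩
    have h3 : c⁻¹ • y = lp M (a • σ p) := by rw [← h1, lp_pl]
    rw [map_smul] at h3
    rw [smul_comm, ← h3, hcc']
  · have h1 : Tendsto (fun z : EN M × ℂ => (pl M (c⁻¹ • z.1), z.2)) (𝓝 (c • lp M (σ 0), (1 : ℂ))) (𝓝 (σ 0, (1 : ℂ))) := by
      rw [nhds_prod_eq, nhds_prod_eq]
      exact hcont.prodMap tendsto_id
    filter_upwards [h1.eventually h.inv] with z hz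
    show τ (pl M (c⁻¹ • (z.2 • z.1))) = _
    rw [smul_comm, map_smul]
    exact hz
  · filter_upwards [h.quot] with p hp ζ hζ
    obtain ⟨a, ha, h1⟩ := hp ζ hζ
    refine ⟨a, ha, ?_⟩
    show c • lp M (σ (ζ * p.1, ζ⁻¹ * p.2)) = a • c • lp M (σ p)
    rw [h1, map_smul, smul_comm]

/-- the parametrization gives all points of the cone near the centre, with small parameters and scalars near `1` -/
theorem GP.near {X : Set (EN M)} {k : ℕ} {σ : ℂ × ℂ → EN M} {τ : EN M → ℂ × ℂ} {x : EN M} (h : GP X k σ τ x) (hk : 1 ≤ k)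
    (hx : x ≠ 0) {W : Set (ℂ × ℂ)} (hW : W ∈ 𝓝 (0 : ℂ × ℂ)) {A : Set ℂ} (hA : A ∈ 𝓝 (1 : ℂ)) :
    ∀ᶠ y in 𝓝 x, y ∈ X → ∃ (a : ℂ) (p : ℂ × ℂ), a ≠ 0 ∧ a ∈ A ∧ p ∈ W ∧ y = a • σ p ∧ τ y = (p.1 ^ k, p.2 ^ k) := by
  have hτ0 : τ x = 0 := by
    have h1 := h.coord.self_of_nhds
    rw [h.center] at h1
    rw [h1]
    simp [Nat.one_le_iff_ne_zero.1 hk]
  -- small parameters
  obtain ⟨ε, hε, hεW⟩ := Metric.mem_nhds_iff.1 hW
  have hsm : ∀ η : ℝ, 0 < η → ∀ᶠ y in 𝓝 x, y ∈ X → ∃ (a : ℂ) (p : ℂ × ℂ), a ≠ 0 ∧ p ∈ ball (0 : ℂ × ℂ) η ∧ y = a • σ p ∧ τ y = (p.1 ^ k, p.2 ^ k) := by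
    intro η hη
    have h1 : ∀ᶠ y in 𝓝 x, τ y ∈ ball (0 : ℂ × ℂ) (η ^ k) := by
      have h2 := h.τ_an.continuousAt.eventually_mem (s := ball (0 : ℂ × ℂ) (η ^ k)) (by
        rw [hτ0]; exact ball_mem_nhds _ (pow_pos hη k))
      exact h2
    filter_upwards [h1, h.onto] with y hy1 hy2 hyX
    obtain ⟨a, p, ha, h3, h4⟩ := hy2 hyX
    refine ⟨a, p, ha, ?_, h3, h4⟩
    rw [h4, mem_ball_zero_iff, Prod.norm_def, max_lt_iff] at hy1
    rw [mem_ball_zero_iff, Prod.norm_def, max_lt_iff]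
    have hk0 : k ≠ 0 := Nat.one_le_iff_ne_zero.1 hk
    constructor
    · have h5 := hy1.1
      simp only [norm_pow] at h5
      exact lt_of_pow_lt_pow_left₀ k hη.le h5
    · have h5 := hy1.2
      simp only [norm_pow] at h5
      exact lt_of_pow_lt_pow_left₀ k hη.le h5
  -- the scalars are near 1
  have hxx : inner ℂ x x ≠ (0 : ℂ) := inner_self_ne_zero.2 hx
  have hc1 : Tendsto (fun z : EN M × (ℂ × ℂ) => inner ℂ x z.1 / inner ℂ x (σ z.2)) (𝓝 (x, (0 : ℂ × ℂ))) (𝓝 1) := by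
    have h1 : Tendsto (fun z : EN M × (ℂ × ℂ) => (inner ℂ x z.1 : ℂ)) (𝓝 (x, (0 : ℂ × ℂ))) (𝓝 (inner ℂ x x)) := by
      have h2 : Continuous fun z : EN M × (ℂ × ℂ) => (inner ℂ x z.1 : ℂ) := continuous_const.inner continuous_fst
      exact h2.tendsto _
    have h2 : Tendsto (fun z : EN M × (ℂ × ℂ) => (inner ℂ x (σ z.2) : ℂ)) (𝓝 (x, (0 : ℂ × ℂ))) (𝓝 (inner ℂ x x)) := by
      have h3 : ContinuousAt σ 0 := h.σ_an.continuousAt
      have h4 : Tendsto (fun z : EN M × (ℂ × ℂ) => σ z.2) (𝓝 (x, (0 : ℂ × ℂ))) (𝓝 x) := by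
        have h5 : Tendsto (fun z : EN M × (ℂ × ℂ) => z.2) (𝓝 (x, (0 : ℂ × ℂ))) (𝓝 0) := continuous_snd.tendsto _
        have h6 := h3.tendsto
        rw [h.center] at h6
        exact h6.comp h5
      exact (tendsto_const_nhds.inner h4)
    have h3 := h1.div h2 hxx
    rwa [div_self hxx] at h3
  have hev := (hc1.eventually hA).and ((?_ : ∀ᶠ z : EN M × (ℂ × ℂ) in 𝓝 (x, (0 : ℂ × ℂ)), (inner ℂ x (σ z.2) : ℂ) ≠ 0))
  · obtain ⟨δ, hδ, hδ'⟩ := Metric.eventually_nhds_iff_ball.1 hev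
    set η := min δ ε with hη
    have hη0 : 0 < η := lt_min hδ hε
    filter_upwards [hsm η hη0, ball_mem_nhds x hδ] with y hy1 hy2 hyX
    obtain ⟨a, p, ha, hp, h3, h4⟩ := hy1 hyX
    have h5 := hδ' (y, p) (by
      rw [mem_ball, Prod.dist_eq, max_lt_iff]
      refine ⟨hy2, lt_of_lt_of_le ?_ (min_le_left δ ε)⟩
      exact mem_ball.1 hp)
    refine ⟨a, p, ha, ?_, hεW (ball_subset_ball (min_le_right _ _) hp), h3, h4⟩
    have h6 : inner ℂ x y / inner ℂ x (σ p) = a := by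
      rw [div_eq_iff h5.2, h3, inner_smul_right]
    have h7 := h5.1
    rwa [h6] at h7
  · have h3 : Tendsto (fun z : EN M × (ℂ × ℂ) => (inner ℂ x (σ z.2) : ℂ)) (𝓝 (x, (0 : ℂ × ℂ))) (𝓝 (inner ℂ x x)) := by
      have h4 : Tendsto (fun z : EN M × (ℂ × ℂ) => σ z.2) (𝓝 (x, (0 : ℂ × ℂ))) (𝓝 x) := by
        have h5 : Tendsto (fun z : EN M × (ℂ × ℂ) => z.2) (𝓝 (x, (0 : ℂ × ℂ))) (𝓝 0) := continuous_snd.tendsto _
        have h6 := h.σ_an.continuousAt.tendsto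
        rw [h.center] at h6
        exact h6.comp h5
      exact (tendsto_const_nhds.inner h4)
    exact h3.eventually_ne hxx

end Pool.Agent.H6.LU
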