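import Pool.Agent.H6.LU.Sets

/-!
# LU Crit: the critical values of the boundary curve
-/

set_option autoImplicit false

open Topology Filter Metric

noncomputable section

namespace Pool.Agent.H6.LU

open Pool.Agent.H17 (PN HolomorphicInto)
open Pool.Agent.H36.BP (EN coneOf coneOf_smul ne_zero_of_ofLp ofLp_ne_zero)
open Pool.Agent.H4.LU (Mem val IsParam IsInner IsHorChart IsEndChart IsEnd IsRegularEnd IsModel)

variable {M : ℕ}

/-! ## scaling -/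

theorem GP.smul {X : Set (EN M)} (hX : ∀ x ∈ X, ∀ c : ℂ, c ≠ 0 → c • x ∈ X) {k : ℕ} {σ : ℂ × ℂ → EN M} {τ : EN M → ℂ × ℂ} {x : EN M}
    (h : GP X k σ τ x) {c : ℂ} (hc : c ≠ 0) : GP X k (fun p => c • σ p) (fun y => τ (c⁻¹ • y)) (c • x) := by
  have hcc : ∀ x : EN M, c⁻¹ • c • x = x := fun x => by rw [smul_smul, inv_mul_cancel₀ hc, one_smul]
  have hcc' : ∀ x : EN M, c • c⁻¹ • x = x := fun x => by rw [smul_smul, mul_inv_cancel₀ hc, one_smul]
  have hcont : Tendsto (fun y : EN M => c⁻¹ • y) (𝓝 (c • x)) (𝓝 x) := by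
    have h2 := (continuous_const_smul c⁻¹ : Continuous fun y : EN M => c⁻¹ • y).tendsto (c • x)
    rwa [hcc] at h2
  refine ⟨?_, ?_, ?_, ?_, ?_, ?_, ?_, ?_⟩
  · exact ((c • ContinuousLinearMap.id ℂ (EN M)).analyticAt _).comp h.σ_an
  · have h1 : AnalyticAt ℂ (fun y : EN M => c⁻¹ • y) (c • x) := ((c⁻¹ • ContinuousLinearMap.id ℂ (EN M)).analyticAt _)
    have h2 : AnalyticAt ℂ τ (c⁻¹ • (c • x)) := by rw [hcc]; exact h.τ_an
    exact AnalyticAt.comp (g := τ) (f := fun y : EN M => c⁻¹ • y) h2 h1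
  · simp only [h.center]
  · filter_upwards [h.mem] with p hp
    exact hX _ hp c hc
  · filter_upwards [h.coord] with p hp
    rw [hcc, hp]
  · filter_upwards [hcont.eventually h.onto] with y hy hyX
    obtain ⟨a, p, ha, h1, h2⟩ := hy (hX _ hyX _ (inv_ne_zero hc))
    refine ⟨a, p, ha, ?_, h2⟩
    rw [smul_comm, ← h1, hcc']
  · have h1 : Tendsto (fun z : EN M × ℂ => (c⁻¹ • z.1, z.2)) (𝓝 (c • x, (1 : ℂ))) (𝓝 (x, (1 : ℂ))) := by
      rw [nhds_prod_eq, nhds_prod_eq]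
      exact hcont.prodMap tendsto_id
    filter_upwards [h1.eventually h.inv] with z hz
    rw [smul_comm]
    exact hz
  · filter_upwards [h.quot] with p hp ζ hζ
    obtain ⟨a, ha, h1⟩ := hp ζ hζ
    refine ⟨a, ha, ?_⟩
    rw [h1, smul_comm]

variable {Y V : Set (PN M)} {e : PN M → ℂ}

theorem MCh.smul {hor : Bool} {σ : ℂ × ℂ → EN M} {τ : EN M → ℂ × ℂ} {c : ℂ} {i j : ℕ} {x : EN M} (h : MCh Y V e hor σ τ c i j x) {a : ℂ}
    (ha : a ≠ 0) : MCh Y V e hor (fun p => a • σ p) (fun y => τ (a⁻¹ • y)) c i j (a • x) := by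
  refine ⟨h.gp.smul (fun x hx c hc => coneOf_smul hx hc) ha, h.i_pos, h.j_zero, ?_⟩
  filter_upwards [h.form] with p hp
  rw [coneOf_smul_iff ha, ev_smul _ _ ha]
  exact hp

theorem tendsto_smul_nhdsWithin (V : Set (PN M)) (x : EN M) {a : ℂ} (ha : a ≠ 0) :
    Tendsto (fun y : EN M => a • y) (𝓝[coneOf V] x) (𝓝[coneOf V] (a • x)) := by
  refine tendsto_nhdsWithin_iff.2 ⟨?_, ?_⟩
  · exact ((continuous_const_smul a : Continuous fun y : EN M => a • y).tendsto x).mono_left nhdsWithin_le_nhds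
  · filter_upwards [self_mem_nhdsWithin] with y hy
    exact coneOf_smul hy ha

theorem tendsto_ev_smul {x : EN M} {a c : ℂ} (ha : a ≠ 0) (h : Tendsto (ev e) (𝓝[coneOf V] x) (𝓝 c)) :
    Tendsto (ev e) (𝓝[coneOf V] (a • x)) (𝓝 c) := by
  have h1 := tendsto_smul_nhdsWithin V (a • x) (inv_ne_zero ha)
  rw [smul_smul, inv_mul_cancel₀ ha, one_smul] at h1
  refine (h.comp h1).congr fun y => ?_
  exact ev_smul e y (inv_ne_zero ha)

theorem tendsto_inv {x : EN M} {c : ℂ} (hc : c ≠ 0) (h : Tendsto (ev e) (𝓝[coneOf V] x) (𝓝 c)) :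
    Tendsto (ev fun y => (e y)⁻¹) (𝓝[coneOf V] x) (𝓝 c⁻¹) := by
  refine (h.inv₀ hc).congr' ?_
  filter_upwards [self_mem_nhdsWithin] with y hy
  exact (ev_inv e hy.1).symm

theorem tendsto_of_inv {x : EN M} {c : ℂ} (hc : c ≠ 0) (h : Tendsto (ev fun y => (e y)⁻¹) (𝓝[coneOf V] x) (𝓝 c)) :
    Tendsto (ev e) (𝓝[coneOf V] x) (𝓝 c⁻¹) := by
  refine (h.inv₀ hc).congr' ?_
  filter_upwards [self_mem_nhdsWithin] with y hy
  rw [ev_inv e hy.1, inv_inv]

/-! ## limits in charts -/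

/-- in a chart of order `1` -/
theorem tendsto_chart (hm : V ⊆ Y) {σ : ℂ × ℂ → EN M} {τ : EN M → ℂ × ℂ} {x : EN M} (h : GP (coneOf Y) 1 σ τ x) {E : ℂ × ℂ → ℂ}
    (hE : ∀ᶠ p in 𝓝 (0 : ℂ × ℂ), ContinuousAt E p) (hf : ∀ᶠ p in 𝓝 (0 : ℂ × ℂ), σ p ∈ coneOf V → ev e (σ p) = E p) :
    ∀ᶠ p in 𝓝 (0 : ℂ × ℂ), Tendsto (ev e) (𝓝[coneOf V] (σ p)) (𝓝 (E p)) := by
  have hx : x ≠ 0 := coneOf_ne h.center_mem
  have h1 : Tendsto σ (𝓝 0) (𝓝 x) := by
    have h5 := h.σ_an.continuousAt.tendsto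
    rwa [h.center] at h5
  filter_upwards [h1.eventually (h.near1 hx hf univ_mem).eventually_nhds, h.coord, hE, h1.eventually h.τ_an.eventually_analyticAt] with p hp hp2 hpE hpτ
  rw [pow_one, pow_one] at hp2
  have h2 : Tendsto (fun y => E (τ y)) (𝓝[coneOf V] (σ p)) (𝓝 (E p)) := by
    have h3 : ContinuousAt (fun y => E (τ y)) (σ p) := by
      refine ContinuousAt.comp (g := E) ?_ hpτ.continuousAt
      rw [hp2]
      exact hpE
    have h4 := h3.tendsto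
    rw [hp2] at h4
    exact h4.mono_left nhdsWithin_le_nhds
  refine h2.congr' ?_
  filter_upwards [mem_nhdsWithin_of_mem_nhds hp, self_mem_nhdsWithin] with y hy hyV
  obtain ⟨a, ha, -, h3⟩ := hy.2 (coneOf_mono hm hyV)
  have h4 : σ (τ y) ∈ coneOf V := by
    rw [h3, coneOf_smul_iff ha] at hyV
    exact hyV
  conv_rhs => rw [h3, ev_smul _ _ ha]
  exact (hy.1 h4).symm

theorem sigma_tendsto {σ : ℂ × ℂ → EN M} {p : ℂ × ℂ} (hσ : ContinuousAt σ p)
    (hV : ∀ᶠ q in 𝓝 p, q.1 ≠ 0 → q.2 ≠ 0 → σ q ∈ coneOf V) :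
    Tendsto σ (𝓝[{q | q.1 ≠ 0 ∧ q.2 ≠ 0}] p) (𝓝[coneOf V] (σ p)) := by
  refine tendsto_nhdsWithin_iff.2 ⟨hσ.tendsto.mono_left nhdsWithin_le_nhds, ?_⟩
  filter_upwards [mem_nhdsWithin_of_mem_nhds hV, self_mem_nhdsWithin] with q hq1 hq2
  exact hq1 hq2.1 hq2.2

theorem neBot_axes (p : ℂ × ℂ) : (𝓝[{q : ℂ × ℂ | q.1 ≠ 0 ∧ q.2 ≠ 0}] p).NeBot := by
  have h : {q : ℂ × ℂ | q.1 ≠ 0 ∧ q.2 ≠ 0} = ({0}ᶜ : Set ℂ) ×ˢ ({0}ᶜ : Set ℂ) := by
    ext q
    simp
  rw [h, ← mem_closure_iff_nhdsWithin_neBot, closure_prod_eq]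
  have h1 : closure ({0}ᶜ : Set ℂ) = Set.univ := (dense_compl_singleton (0 : ℂ)).closure_eq
  rw [h1]
  exact ⟨Set.mem_univ _, Set.mem_univ _⟩

/-- near an end chart the limit of `e` at a point with a limit `≠ 0` is given by the chart -/
theorem ECh.limit {k : ℕ} {nd hor : Bool} {σ : ℂ × ℂ → EN M} {τ : EN M → ℂ × ℂ} {x : EN M}
    (h : ECh Y V e k nd hor σ τ x) : ∀ᶠ p in 𝓝 (0 : ℂ × ℂ), ∀ w : ℂ, Tendsto (ev e) (𝓝[coneOf V] (σ p)) (𝓝 w) →
      w = if nd = true then p.1 * p.2 else p.1 := by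
  filter_upwards [h.form.eventually_nhds, h.gp.σ_an.eventually_analyticAt] with p hp hpσ w hw
  have h1 := sigma_tendsto (V := V) hpσ.continuousAt (by
    filter_upwards [hp] with q hq h1 h2
    exact hq.1.2 ⟨h1, fun _ => h2⟩)
  haveI := neBot_axes p
  have h2 := hw.comp h1
  have h3 : Tendsto (fun q : ℂ × ℂ => if nd = true then q.1 * q.2 else q.1) (𝓝[{q | q.1 ≠ 0 ∧ q.2 ≠ 0}] p)
      (𝓝 (if nd = true then p.1 * p.2 else p.1)) := by
    have h4 : Continuous (fun q : ℂ × ℂ => if nd = true then q.1 * q.2 else q.1) := by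
      split_ifs
      · exact continuous_fst.mul continuous_snd
      · exact continuous_fst
    exact (h4.tendsto p).mono_left nhdsWithin_le_nhds
  refine tendsto_nhds_unique h2 (h3.congr' ?_)
  filter_upwards [mem_nhdsWithin_of_mem_nhds hp, self_mem_nhdsWithin] with q hq1 hq2
  exact (hq1.2 (hq1.1.2 ⟨hq2.1, fun _ => hq2.2⟩)).symm

/-! ## critical points of the boundary curve -/

/-- the limit at the centre -/
theorem MCh.tendsto_center (hm : V ⊆ Y) {hor : Bool} {σ : ℂ × ℂ → EN M} {τ : EN M → ℂ × ℂ} {c : ℂ} {i j : ℕ} {x : EN M}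
    (h : MCh Y V e hor σ τ c i j x) : Tendsto (ev e) (𝓝[coneOf V] x) (𝓝 (Complex.exp c)) := by
  have h1 := (h.tendsto hm).self_of_nhds
  rw [h.gp.tau_zero le_rfl] at h1
  have h2 : (0 : ℂ × ℂ).1 ^ i = 0 := by
    rw [Prod.fst_zero, zero_pow]
    exact Nat.one_le_iff_ne_zero.1 h.i_pos
  rwa [h2, zero_mul, add_zero] at h1

/-- a curve through the centre of a chart along which `e` has a derivative `≠ 0` -/
theorem mch_one (h : IsModel Y V e) {σ : ℂ × ℂ → EN M} {τ : EN M → ℂ × ℂ} {c : ℂ} {i j : ℕ} {y : EN M}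
    (hy : MCh Y V e true σ τ c i j y) {γ : ℂ → EN M} (hγ : AnalyticAt ℂ γ 0) (h0 : γ 0 = y) {g : ℂ → ℂ} {g' : ℂ} (hg : HasDerivAt g g' 0)
    (hg' : g' ≠ 0) (hlim : ∀ᶠ s in 𝓝 (0 : ℂ), γ s ∈ coneOf Y ∧ Tendsto (ev e) (𝓝[coneOf V] (γ s)) (𝓝 (g s))) : i < 2 := by
  by_contra hi
  push Not at hi
  have hj : j = 0 := hy.j_zero rfl
  have h1 : Tendsto γ (𝓝 0) (𝓝 y) := by
    have := hγ.continuousAt.tendsto
    rwa [h0] at this
  have hT : AnalyticAt ℂ (fun s => τ (γ s)) 0 := AnalyticAt.comp (g := τ) (f := γ) (by rw [h0]; exact hy.gp.τ_an) hγ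
  have hT1 : AnalyticAt ℂ (fun s => (τ (γ s)).1) 0 := analyticAt_fst.comp hT
  have hT0 : (τ (γ 0)).1 = 0 := by rw [h0, hy.gp.tau_zero le_rfl]; rfl
  have h2 : g =ᶠ[𝓝 0] fun s => Complex.exp (c + (τ (γ s)).1 ^ i) := by
    filter_upwards [hlim, h1.eventually (hy.tendsto h.sub)] with s hs1 hs2
    haveI := neBot_V h hs1.1
    rw [hj, pow_zero, mul_one] at hs2
    exact tendsto_nhds_unique hs1.2 hs2
  have h3 : HasDerivAt (fun s => Complex.exp (c + (τ (γ s)).1 ^ i))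
      (Complex.exp (c + (τ (γ 0)).1 ^ i) * ((i : ℂ) * (τ (γ 0)).1 ^ (i - 1) * deriv (fun s => (τ (γ s)).1) 0)) 0 := by
    have h4 := (hT1.differentiableAt.hasDerivAt.pow i).const_add c
    exact h4.cexp
  have h5 : (τ (γ 0)).1 ^ (i - 1) = 0 := by
    rw [hT0, zero_pow]
    omega
  rw [h5, mul_zero, zero_mul, mul_zero] at h3
  exact hg' ((hg.congr_of_eventuallyEq h2.symm).unique h3)

/-- the critical values of the boundary curve over `ℂ^*` -/
def CV (Y V : Set (PN M)) (e : PN M → ℂ) : Set ℂ := {w | ∃ x σ τ c i j, MCh Y V e true σ τ c i j x ∧ 2 ≤ i ∧ w = Complex.exp c}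

theorem notMem_of_hor {σ : ℂ × ℂ → EN M} {τ : EN M → ℂ × ℂ} {c : ℂ} {i j : ℕ} {y : EN M} (hy : MCh Y V e true σ τ c i j y) : y ∉ coneOf V := by
  have h8 := hy.form.self_of_nhds
  rw [hy.gp.center] at h8
  intro h9
  exact h8.1.1 h9 rfl rfl

theorem curve_an {σ : ℂ × ℂ → EN M} {a s₀ t₀ : ℂ} (h : AnalyticAt ℂ σ (s₀, t₀)) : AnalyticAt ℂ (fun s : ℂ => a • σ (s₀ + s, t₀)) 0 := by
  have h1 : AnalyticAt ℂ (fun s : ℂ => ((s₀ + s, t₀) : ℂ × ℂ)) 0 := (analyticAt_const.add analyticAt_id).prod analyticAt_const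
  have h2 : AnalyticAt ℂ (fun s : ℂ => σ (s₀ + s, t₀)) 0 :=
    AnalyticAt.comp (g := σ) (f := fun s : ℂ => ((s₀ + s, t₀) : ℂ × ℂ)) (by simpa using h) h1
  exact ((a • ContinuousLinearMap.id ℂ (EN M)).analyticAt _).comp h2

/-- the argument for the end charts -/
theorem end_crit (h : IsModel Y V e) {e' : PN M → ℂ} {k : ℕ} {nd hor : Bool} {σ₀ : ℂ × ℂ → EN M} {τ₀ : EN M → ℂ × ℂ} {x : EN M}
    (hx : ECh Y V e' k nd hor σ₀ τ₀ x) :
    ∀ᶠ y in 𝓝 x, y ∈ coneOf Y → y ∉ coneOf V → ∀ w : ℂ, w ≠ 0 → Tendsto (ev e') (𝓝[coneOf V] y) (𝓝 w) →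
      ∃ (γ : ℂ → EN M) (s₀ : ℂ), AnalyticAt ℂ γ 0 ∧ γ 0 = y ∧ s₀ ≠ 0 ∧
        ∀ᶠ s in 𝓝 (0 : ℂ), γ s ∈ coneOf Y ∧ Tendsto (ev e') (𝓝[coneOf V] (γ s)) (𝓝 (s₀ + s)) := by
  have hW1 := hx.limit
  -- the limit in the case `nd = false`
  have hW2 : ∀ᶠ p in 𝓝 (0 : ℂ × ℂ), nd = false → Tendsto (ev e') (𝓝[coneOf V] (σ₀ p)) (𝓝 p.1) := by
    by_cases hnd : nd = false
    · have hk := hx.nd_k hnd
      have hgp : GP (coneOf Y) 1 σ₀ τ₀ x := hk ▸ hx.gp
      have h1 := tendsto_chart h.sub hgp (E := fun p => p.1) (e := e') (Eventually.of_forall fun p => continuous_fst.continuousAt) (by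
        filter_upwards [hx.form] with p hp hpV
        have := hp.2 hpV
        rwa [hnd] at this)
      filter_upwards [h1] with p hp _ using hp
    · filter_upwards with p hp
      exact absurd hp hnd
  have hW3 := hx.gp.mem
  have hW := hW1.and (hW2.eventually_nhds.and (hW3.eventually_nhds.and hx.gp.σ_an.eventually_analyticAt))
  filter_upwards [hx.loc hW univ_mem] with y hy hyY hyV w hw hlim
  obtain ⟨a, p, ha, -, ⟨hp1, hp2, hp3, hp4⟩, hya, -, hpV, -⟩ := hy hyY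
  -- the limit at the point of the chart
  have hlim' : Tendsto (ev e') (𝓝[coneOf V] (σ₀ p)) (𝓝 w) := by
    have h1 := tendsto_ev_smul (x := y) (inv_ne_zero ha) hlim
    rwa [hya, smul_smul, inv_mul_cancel₀ ha, one_smul] at h1
  have hw2 := hp1 w hlim'
  have hnot : ¬ (p.1 ≠ 0 ∧ (nd = true ∨ hor = true → p.2 ≠ 0)) := fun h1 => hyV (hpV.2 h1)
  by_cases hnd : nd = true
  · exfalso
    rw [if_pos hnd] at hw2
    apply hnot
    refine ⟨fun h1 => hw (by rw [hw2, h1, zero_mul]), fun _ h1 => hw (by rw [hw2, h1, mul_zero])⟩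
  · have hnd' : nd = false := by simpa using hnd
    rw [if_neg hnd] at hw2
    have hp10 : p.1 ≠ 0 := fun h1 => hw (by rw [hw2, h1])
    refine ⟨fun s => a • σ₀ (p.1 + s, p.2), p.1, curve_an hp4, ?_, hp10, ?_⟩
    · simp only [add_zero]
      exact hya.symm
    · have hc : Tendsto (fun s : ℂ => ((p.1 + s, p.2) : ℂ × ℂ)) (𝓝 0) (𝓝 p) := by
        have h1 : Continuous fun s : ℂ => ((p.1 + s, p.2) : ℂ × ℂ) := by fun_prop
        have h2 := h1.tendsto 0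
        simpa using h2
      filter_upwards [hc.eventually hp2, hc.eventually hp3] with s hs1 hs2
      exact ⟨coneOf_smul hs2 ha, tendsto_ev_smul ha (hs1 hnd')⟩

theorem crit_local (h : IsModel Y V e) {x : EN M} (hx : x ∈ coneOf Y) : ∃ F : Set ℂ, F.Finite ∧ ∀ᶠ y in 𝓝 x,
    ∀ σ τ c i j, MCh Y V e true σ τ c i j y → 2 ≤ i → Complex.exp c ∈ F := by
  rcases cases_point h hx with ⟨hor, σ₀, τ₀, c₀, i₀, j₀, h1⟩ | ⟨k, nd, hor, σ₀, τ₀, h1⟩ | ⟨k, nd, hor, σ₀, τ₀, h1⟩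
  · refine ⟨{Complex.exp c₀}, Set.finite_singleton _, ?_⟩
    have hcont : ∀ᶠ p in 𝓝 (0 : ℂ × ℂ), ContinuousAt (fun p : ℂ × ℂ => Complex.exp (c₀ + p.1 ^ i₀ * p.2 ^ j₀)) p := by
      filter_upwards with p
      fun_prop
    have hW1 := tendsto_chart h.sub h1.gp hcont (by filter_upwards [h1.form] with p hp using hp.2)
    have hW := hW1.eventually_nhds.and (h1.gp.mem.eventually_nhds.and (h1.gp.σ_an.eventually_analyticAt.and h1.form))
    filter_upwards [h1.gp.near1 h1.ne hW univ_mem] with y hy σ τ c i j hyc hi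
    obtain ⟨⟨hp1, hp2, hp4, hp5⟩, hya⟩ := hy
    obtain ⟨a, ha, -, hya⟩ := hya hyc.gp.center_mem
    set p := τ₀ y with hp
    have hlim : Tendsto (ev e) (𝓝[coneOf V] y) (𝓝 (Complex.exp c)) := hyc.tendsto_center h.sub
    have hlim' : Tendsto (ev e) (𝓝[coneOf V] y) (𝓝 (Complex.exp (c₀ + p.1 ^ i₀ * p.2 ^ j₀))) := by
      have h2 := tendsto_ev_smul ha hp1.self_of_nhds
      rwa [← hya] at h2
    haveI := neBot_V h hyc.gp.center_mem
    have heq := tendsto_nhds_unique hlim hlim'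
    have hyV : σ₀ p ∉ coneOf V := by
      intro h2
      have h3 := coneOf_smul h2 ha
      rw [← hya] at h3
      exact notMem_of_hor hyc h3
    -- the point is on the boundary curve
    have hhor : hor = true ∧ p.2 = 0 := by
      by_contra hcon
      apply hyV
      rw [hp5.1]
      intro h2 h3
      exact hcon ⟨h2, h3⟩
    have hj₀ : j₀ = 0 := h1.j_zero hhor.1
    by_cases hs : p.1 = 0
    · rw [Set.mem_singleton_iff, heq, hs, zero_pow (Nat.one_le_iff_ne_zero.1 h1.i_pos), zero_mul, add_zero]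
    · exfalso
      have hc : Tendsto (fun s : ℂ => ((p.1 + s, p.2) : ℂ × ℂ)) (𝓝 0) (𝓝 p) := by
        have h1 : Continuous fun s : ℂ => ((p.1 + s, p.2) : ℂ × ℂ) := by fun_prop
        have h2 := h1.tendsto 0
        simpa using h2
      have hg : HasDerivAt (fun s : ℂ => Complex.exp (c₀ + (p.1 + s) ^ i₀)) (Complex.exp (c₀ + (p.1 + 0) ^ i₀) * ((i₀ : ℂ) * (p.1 + 0) ^ (i₀ - 1) * 1)) 0 :=
        ((((hasDerivAt_id (0 : ℂ)).const_add p.1).pow i₀).const_add c₀).cexp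
      have := mch_one h hyc (γ := fun s => a • σ₀ (p.1 + s, p.2)) (curve_an hp4) (by simp only [add_zero]; exact hya.symm) hg (by
        rw [add_zero, mul_one]
        refine mul_ne_zero (Complex.exp_ne_zero _) (mul_ne_zero ?_ (pow_ne_zero _ hs))
        exact_mod_cast Nat.one_le_iff_ne_zero.1 h1.i_pos) (by
        filter_upwards [hc.eventually hp1, hc.eventually hp2] with s hs1 hs2
        rw [hj₀, pow_zero, mul_one] at hs1
        exact ⟨coneOf_smul hs2 ha, tendsto_ev_smul ha hs1⟩)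
      omega
  · refine ⟨∅, Set.finite_empty, ?_⟩
    filter_upwards [end_crit h h1] with y hy σ τ c i j hyc hi
    exfalso
    obtain ⟨γ, s₀, hγ, hγ0, hs₀, hlim⟩ := hy hyc.gp.center_mem (notMem_of_hor hyc) _ (Complex.exp_ne_zero c) (hyc.tendsto_center h.sub)
    have hg : HasDerivAt (fun s : ℂ => s₀ + s) 1 0 := (hasDerivAt_id (0 : ℂ)).const_add s₀
    have := mch_one h hyc hγ hγ0 hg one_ne_zero hlim
    omega
  · refine ⟨∅, Set.finite_empty, ?_⟩
    filter_upwards [end_crit h h1] with y hy σ τ c i j hyc hi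
    exfalso
    obtain ⟨γ, s₀, hγ, hγ0, hs₀, hlim⟩ := hy hyc.gp.center_mem (notMem_of_hor hyc) _ (inv_ne_zero (Complex.exp_ne_zero c))
      (tendsto_inv (Complex.exp_ne_zero c) (hyc.tendsto_center h.sub))
    have hg : HasDerivAt (fun s : ℂ => (s₀ + s)⁻¹) (-1 / (s₀ + 0) ^ 2) 0 := ((hasDerivAt_id (0 : ℂ)).const_add s₀).inv (by simpa using hs₀)
    have hne : ∀ᶠ s in 𝓝 (0 : ℂ), s₀ + s ≠ 0 := by
      have h2 : ContinuousAt (fun s : ℂ => s₀ + s) 0 := by fun_prop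
      exact h2.eventually_ne (by simpa using hs₀)
    have := mch_one h hyc hγ hγ0 hg (by
      rw [add_zero]
      exact div_ne_zero (neg_ne_zero.2 one_ne_zero) (pow_ne_zero 2 hs₀)) (by
      filter_upwards [hlim, hne] with s hs1 hs2
      exact ⟨hs1.1, tendsto_of_inv hs2 hs1.2⟩)
    omega

theorem closed_coneOf (h : IsModel Y V e) : ∀ x ∈ closure (coneOf Y), x ≠ 0 → x ∈ coneOf Y := by
  intro x hx hx0
  refine h.closed x.ofLp (ofLp_ne_zero hx0) ?_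
  have h1 := (pl M).continuous.continuousAt.continuousWithinAt (s := coneOf Y) (x := x)
  have h2 := h1.mem_closure_image hx
  refine closure_mono ?_ h2
  rintro _ ⟨y, hy, rfl⟩
  exact hy

theorem isCompact_unit (h : IsModel Y V e) : IsCompact {x : EN M | x ∈ coneOf Y ∧ ‖x‖ = 1} := by
  refine IsCompact.of_isClosed_subset (isCompact_sphere (0 : EN M) 1) ?_ ?_
  · rw [← closure_subset_iff_isClosed]
    intro x hx
    have h1 : ‖x‖ = 1 := by
      have h2 : closure {x : EN M | x ∈ coneOf Y ∧ ‖x‖ = 1} ⊆ {x | ‖x‖ = 1} :=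
        closure_minimal (fun y hy => hy.2) (isClosed_eq continuous_norm continuous_const)
      exact h2 hx
    refine ⟨closed_coneOf h x (closure_mono (fun y hy => hy.1) hx) ?_, h1⟩
    rintro rfl
    rw [norm_zero] at h1
    exact zero_ne_one h1
  · rintro x ⟨-, hx⟩
    simpa using hx

theorem finite_CV (h : IsModel Y V e) : (CV Y V e).Finite := by
  have h1 : ∃ F : Set ℂ, F.Finite ∧ ∀ y ∈ {x : EN M | x ∈ coneOf Y ∧ ‖x‖ = 1}, ∀ σ τ c i j, MCh Y V e true σ τ c i j y → 2 ≤ i → Complex.exp c ∈ F := by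
    refine (isCompact_unit h).induction_on (p := fun S => ∃ F : Set ℂ, F.Finite ∧ ∀ y ∈ S, ∀ σ τ c i j, MCh Y V e true σ τ c i j y → 2 ≤ i → Complex.exp c ∈ F)
      ⟨∅, Set.finite_empty, fun y hy => absurd hy (Set.notMem_empty _)⟩ ?_ ?_ ?_
    · rintro S T hST ⟨F, hF, hFT⟩
      exact ⟨F, hF, fun y hy => hFT y (hST hy)⟩
    · rintro S T ⟨F, hF, hFS⟩ ⟨F', hF', hFT⟩
      refine ⟨F ∪ F', hF.union hF', fun y hy σ τ c i j hyc hi => ?_⟩
      rcases hy with hy | hy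
      · exact Or.inl (hFS y hy σ τ c i j hyc hi)
      · exact Or.inr (hFT y hy σ τ c i j hyc hi)
    · rintro x ⟨hx, -⟩
      obtain ⟨F, hF, hev⟩ := crit_local h hx
      exact ⟨{y | ∀ σ τ c i j, MCh Y V e true σ τ c i j y → 2 ≤ i → Complex.exp c ∈ F}, mem_nhdsWithin_of_mem_nhds hev, F, hF, fun y hy => hy⟩
  obtain ⟨F, hF, hFy⟩ := h1
  refine hF.subset ?_
  rintro w ⟨x, σ, τ, c, i, j, hx, hi, rfl⟩
  have hx0 : ‖x‖ ≠ 0 := norm_ne_zero_iff.2 hx.ne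
  have ha : ((‖x‖ : ℂ)⁻¹) ≠ 0 := inv_ne_zero (by exact_mod_cast hx0)
  refine hFy ((‖x‖ : ℂ)⁻¹ • x) ⟨coneOf_smul hx.gp.center_mem ha, ?_⟩ _ _ c i j (hx.smul ha) hi
  rw [norm_smul, norm_inv, Complex.norm_real, norm_norm, inv_mul_cancel₀ hx0]

end Pool.Agent.H6.LU
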