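import Pool.Agent.H6.LU.Re

/-!
# LU En: the data at the ends, from the charts at the ends
-/

set_option autoImplicit false

open Topology Filter Metric

noncomputable section

namespace Pool.Agent.H6.LU

open Pool.Agent.H17 (PN HolomorphicInto)
open Pool.Agent.H36.BP (EN coneOf coneOf_smul ne_zero_of_ofLp ofLp_ne_zero IsGermChart)
open Pool.Agent.H4.LU (Mem val IsParam IsInner IsHorChart IsEndChart IsEnd IsRegularEnd IsModel Over IsTangent IsLogForm VanishesOver IsNowhereZero)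
open Pool.Agent.H62.EF (TorusMap pr MN pr_smul pr_eq_iff)
open Pool.Agent.H62.EL (TForm)
open Pool.Agent.EG.LE (cf Typ IsEndT EndData)

variable {M : ℕ} {Y V : Set (PN M)} {e : PN M → ℂ}

theorem exp_neg_mul {ε : ℂ} (hε : ε = 1 ∨ ε = -1) {w : ℂ} : w ∈ Lam → ε * w ∈ Lam := by
  intro hw
  rcases hε with rfl | rfl
  · rwa [one_mul]
  · rw [neg_one_mul]
    exact Lam.neg_mem hw

/-- `XX` is open in the cone over `Y` -/
theorem XX_open (h : IsModel Y V e) {x : EN M} (hx : x ∈ XX Y V e) : ∀ᶠ y in 𝓝 x, y ∈ coneOf Y → y ∈ XX Y V e := by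
  obtain ⟨hor, σ, τ, c, i, j, h1⟩ := exists_mch h hx
  filter_upwards [h1.uu_sub h 0] with y hy hyY
  exact (hy hyY).1

theorem DD_smul (e' : PN M → ℂ) : ∀ x ∈ DD Y V e', ∀ c : ℂ, c ≠ 0 → c • x ∈ DD Y V e' := fun x hx c hc =>
  ⟨coneOf_smul hx.1 hc, tendsto_ev_smul hc hx.2⟩

/-- away from the end over `0` (of `e'`) the function `exp u'` is bounded from below -/
theorem D_char (h : IsModel Y V e) (a : ℂ) {e' : PN M → ℂ} {ε : ℂ} (he : EE e e' ε) {u' : EN M → ℂ} (hu' : ∀ x, u' x = ε * uu V e a x) {x : EN M}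
    (hx : x ∈ coneOf Y) (hxD : x ∉ DD Y V e') : ∃ c : ℝ, 0 < c ∧ ∀ᶠ y in 𝓝 x, y ∈ XX Y V e → c ≤ ‖Complex.exp (u' y)‖ := by
  have hmid : x ∈ XX Y V e → ∃ c : ℝ, 0 < c ∧ ∀ᶠ y in 𝓝 x, y ∈ XX Y V e → c ≤ ‖Complex.exp (u' y)‖ := by
    intro hxX
    obtain ⟨hor, σ, τ, c, i, j, h1⟩ := exists_mch h hxX
    have hcont : ContinuousAt (fun y => ‖Complex.exp (ε * (c - a + (τ y).1 ^ i * (τ y).2 ^ j))‖) x := by
      have h4 := h1.gp.τ_an.continuousAt
      exact ((continuousAt_const.mul (continuousAt_const.add ((h4.fst.pow i).mul (h4.snd.pow j)))).cexp).norm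
    have hpos : 0 < ‖Complex.exp (ε * (c - a + (τ x).1 ^ i * (τ x).2 ^ j))‖ := norm_pos_iff.2 (Complex.exp_ne_zero _)
    refine ⟨‖Complex.exp (ε * (c - a + (τ x).1 ^ i * (τ x).2 ^ j))‖ / 2, half_pos hpos, ?_⟩
    filter_upwards [hcont.eventually_const_lt (half_lt_self hpos), h1.uu_sub h a] with y h2 h3 hy
    have h4 := exp_neg_mul he.eps (h3 hy.1).2
    have h5 : Complex.exp (u' y) = Complex.exp (ε * (c - a + (τ y).1 ^ i * (τ y).2 ^ j)) := by
      rw [hu' y]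
      refine sub_mem_Lam.1 ?_
      rwa [← mul_sub]
    rw [h5]
    exact h2.le
  -- the other end
  have hoth : ∀ e'' : PN M → ℂ, EE e e'' (-ε) → x ∈ DD Y V e'' → ∃ c : ℝ, 0 < c ∧ ∀ᶠ y in 𝓝 x, y ∈ XX Y V e → c ≤ ‖Complex.exp (u' y)‖ := by
    intro e'' he'' hxD''
    have hpos : 0 < ‖Complex.exp (ε * a)‖ := norm_pos_iff.2 (Complex.exp_ne_zero _)
    refine ⟨‖Complex.exp (ε * a)‖⁻¹, inv_pos.2 hpos, ?_⟩
    filter_upwards [small_near hxD''.2 one_pos] with y h1 hy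
    obtain ⟨w, hw, hlim⟩ := he''.lim hy
    have h2 := h1 w (neBot_V h hy.1) hlim
    obtain ⟨-, h3⟩ := he''.mem h hy.1 hw hlim a
    have h4 : Complex.exp (u' y) = (Complex.exp (ε * a) * w)⁻¹ := by
      rw [hu' y]
      have e1 : ε * uu V e a y = -(-ε * uu V e a y) := by ring
      have e2 : -(-ε * a) = ε * a := by ring
      rw [e1, Complex.exp_neg, h3, e2]
    rw [h4, norm_inv, norm_mul, mul_inv]
    have h5 : 0 < ‖w‖ := norm_pos_iff.2 hw
    have h6 : 1 ≤ ‖w‖⁻¹ := (one_le_inv₀ h5).2 h2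
    calc ‖Complex.exp (ε * a)‖⁻¹ = ‖Complex.exp (ε * a)‖⁻¹ * 1 := (mul_one _).symm
      _ ≤ ‖Complex.exp (ε * a)‖⁻¹ * ‖w‖⁻¹ := by gcongr
  rcases cover h hx with h1 | h1 | h1
  · exact hmid h1
  · rcases id he with ⟨rfl, rfl⟩ | ⟨rfl, rfl⟩
    · exact absurd h1 hxD
    · exact hoth e (Or.inl ⟨neg_neg _, rfl⟩) h1
  · rcases id he with ⟨rfl, rfl⟩ | ⟨rfl, rfl⟩
    · exact hoth _ (Or.inr ⟨rfl, rfl⟩) h1
    · exact absurd h1 hxD

/-- the centre of a parametrization in projective space -/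
theorem mk_center {k : ℕ} {σ₀ : ℂ × ℂ → Fin (M + 1) → ℂ} {τ₀ : (Fin (M + 1) → ℂ) → ℂ × ℂ} {y : PN M} (hp : IsParam Y k σ₀ τ₀ y) {c : ℂ}
    (hc : c ≠ 0) {x : EN M} (hcx : c • lp M (σ₀ 0) = x) (hx : x.ofLp ≠ 0) : Projectivization.mk ℂ x.ofLp hx = y := by
  obtain ⟨h0, h1⟩ := hp.center
  rw [← h1, Projectivization.mk_eq_mk_iff']
  refine ⟨c, ?_⟩
  rw [← hcx]
  rfl

/-- the charts at the end: for every chart of the model a type -/
def HasTyp (Y V : Set (PN M)) (e e' : PN M → ℂ) (P : Set (EN M)) {u' : EN M → ℂ} (α : TForm (XX Y V e \ P) Lam u') : Prop :=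
  ∀ (k : ℕ) (nd hor : Bool) (σ₀ : ℂ × ℂ → Fin (M + 1) → ℂ) (τ₀ : (Fin (M + 1) → ℂ) → ℂ × ℂ) (y : PN M) (c : ℂ), IsEndChart Y V e' k nd hor σ₀ τ₀ y →
    c ≠ 0 → ∃ T : Typ, T.eu = (nd || hor) ∧ IsEndT (coneOf Y) (XX Y V e \ P) (XX Y V e \ DH Y V e) α T (c • lp M (σ₀ 0))

/-- **The data at the ends.** -/
theorem endData (h : IsModel Y V e) (a : ℂ) {P : Set (EN M)} (hPD : P ⊆ DH Y V e) (hPs : ∀ x ∈ P, ∀ c : ℂ, c ≠ 0 → c • x ∈ P)
    (hPc : ∀ x ∈ XX Y V e, x ∉ P → ∀ᶠ y in 𝓝 x, y ∉ P) {e' : PN M → ℂ} {ε : ℂ} (he : EE e e' ε) {u' : EN M → ℂ} (hu' : ∀ x, u' x = ε * uu V e a x)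
    {α : TForm (XX Y V e \ P) Lam u'} (hT : HasTyp Y V e e' P α) (hfin : {y ∈ Y | IsEnd Y V e' y ∧ ¬ IsRegularEnd Y V e' y}.Finite)
    (hhyp : ∀ f : ℂ → PN M, HolomorphicInto f Set.univ → (∀ z, IsRegularEnd Y V e' (f z)) → ∀ z w, f z = f w) :
    EndData (coneOf Y) (XX Y V e \ P) (XX Y V e \ DH Y V e) (DD Y V e') Lam u' α where
  cone := isCone_Y h
  lat := fun w => Iff.rfl
  V_sub := fun x hx => hx.1.1
  U_sub := fun x hx => ⟨hx.1, fun h1 => hx.2 (hPD h1)⟩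
  V_smul := by
    intro x hx c hc
    refine ⟨(ocone_XX Y V e).smul_mem _ hx.1 c hc, fun h1 => hx.2 ?_⟩
    have h2 := hPs _ h1 c⁻¹ (inv_ne_zero hc)
    rwa [smul_smul, inv_mul_cancel₀ hc, one_smul] at h2
  U_smul := by
    intro x hx c hc
    rw [XX_diff h] at hx ⊢
    exact coneOf_smul hx hc
  V_open := by
    intro x hx
    filter_upwards [XX_open h hx.1, hPc x hx.1 hx.2] with y h1 h2 hy
    exact ⟨h1 hy, h2⟩
  u_smul := by
    intro x hx c hc
    rw [hu', hu', ← mul_sub]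
    exact exp_neg_mul he.eps ((torus_XX h a).smul x hx.1 c hc)
  u_loc := by
    intro x hx
    obtain ⟨v, hv, h1⟩ := (torus_XX h a).loc x hx.1
    refine ⟨fun y => ε * v y, analyticAt_const.mul hv, ?_⟩
    filter_upwards [h1] with y hy hyV
    rw [hu', ← mul_sub]
    exact exp_neg_mul he.eps (hy hyV.1)
  D_sub := fun x hx => hx.1
  D_smul := DD_smul e'
  D_char := by
    intro x hx hxD
    obtain ⟨c, hc, h1⟩ := D_char h a he hu' hx hxD
    refine ⟨c, hc, ?_⟩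
    filter_upwards [h1] with y hy hyV
    exact hy hyV.1
  D_end := by
    intro x hx
    obtain ⟨k, nd, hor, σ₀, τ₀, y, c, hch, hc, hcx⟩ := exists_endchart h he hx
    obtain ⟨T, -, h2⟩ := hT k nd hor σ₀ τ₀ y c hch hc
    rw [hcx] at h2
    exact ⟨T, h2⟩
  D_fin := by
    refine ((hfin.image fun y => pr (WithLp.toLp 2 y.rep : EN M))).subset ?_
    rintro _ ⟨x, ⟨hxD, hnT⟩, rfl⟩
    obtain ⟨k, nd, hor, σ₀, τ₀, y, c, hch, hc, hcx⟩ := exists_endchart h he hxD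
    obtain ⟨hx0, hxY⟩ := id hxD.1
    have hy : Projectivization.mk ℂ x.ofLp hx0 = y := mk_center hch.1 hc hcx hx0
    refine ⟨y, ⟨?_, ⟨k, nd, hor, σ₀, τ₀, hch⟩, ?_⟩, ?_⟩
    · rw [← hy]
      exact hxY
    · rintro ⟨σ', τ', hch'⟩
      obtain ⟨c', hc', hcx'⟩ := exists_scale hch'.1 (x := x) ⟨hx0, hy⟩
      obtain ⟨T, hT1, hT2⟩ := hT 1 false false σ' τ' y c' hch' hc'
      rw [hcx'] at hT2
      refine hnT ⟨T, ?_, hT2⟩
      by_contra h3
      have h4 : T.ex = true := by simpa using h3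
      have h5 := T.ex_eu h4
      rw [hT1] at h5
      simp at h5
    · have h1 : Projectivization.mk ℂ y.rep y.rep_nonzero = Projectivization.mk ℂ x.ofLp hx0 := by rw [Projectivization.mk_rep, hy]
      rw [Projectivization.mk_eq_mk_iff'] at h1
      obtain ⟨b, hb⟩ := h1
      have hb0 : b ≠ 0 := by
        rintro rfl
        rw [zero_smul] at hb
        exact y.rep_nonzero hb.symm
      have h2 : (WithLp.toLp 2 y.rep : EN M) = b • x := by
        ext i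
        exact (congrFun hb i).symm
      show pr (WithLp.toLp 2 y.rep : EN M) = pr x
      rw [h2, pr_smul _ hb0]
  hyp := by
    refine ⟨{x | ∃ hx : x.ofLp ≠ 0, IsRegularEnd Y V e' (Projectivization.mk ℂ x.ofLp hx)}, ?_, ?_⟩
    · intro x hxD
      obtain ⟨k, nd, hor, σ₀, τ₀, y, c, hch, hc, hcx⟩ := exists_endchart h he hxD
      obtain ⟨hx0, hxY⟩ := id hxD.1
      have hy : Projectivization.mk ℂ x.ofLp hx0 = y := mk_center hch.1 hc hcx hx0
      by_cases hb : (nd || hor) = true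
      · right
        obtain ⟨T, hT1, hT2⟩ := hT k nd hor σ₀ τ₀ y c hch hc
        rw [hcx] at hT2
        exact ⟨T, hT1.trans hb, hT2⟩
      · left
        have hnd : nd = false := by
          cases nd with
          | false => rfl
          | true => simp at hb
        have hho : hor = false := by
          cases hor with
          | false => rfl
          | true => simp at hb
        subst hnd hho
        have hk : k = 1 := hch.2.2.1 rfl
        subst hk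
        refine ⟨hx0, ?_⟩
        rw [hy]
        exact ⟨σ₀, τ₀, hch⟩
    · intro F hF hFR z w
      have hne : ∀ z, (F z).ofLp ≠ 0 := fun z => (hFR z).1
      have hall := hhyp (fun z => Projectivization.mk ℂ (F z).ofLp (hne z)) (by
        intro z _
        exact ⟨fun w => (F w).ofLp, Pool.Agent.H36.BP.analyticAt_ofLp (hF.analyticAt z), Eventually.of_forall fun w => ⟨hne w, rfl⟩⟩) (fun z => (hFR z).2)
      have h2 := hall z w
      rw [Projectivization.mk_eq_mk_iff'] at h2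
      obtain ⟨b, hb⟩ := h2
      refine ⟨b, ?_⟩
      ext i
      exact (congrFun hb i).symm

end Pool.Agent.H6.LU
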