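import Mathlib

/-!
# LU Riem: the removable singularity theorem in two variables

A bounded analytic function on a bidisc minus the axis `p.2 = 0` extends to an analytic function (double Cauchy integral; the first part is from `H62/EL/Prm.lean`).
-/

set_option autoImplicit false

open Topology Filter Metric

namespace Pool.Agent.H6.LU

private theorem riem_pi : (0 : ℝ) ≤ 2 * Real.pi := by positivity

/-- the parameter interval of the circle -/
private abbrev RiemT : Type := Set.Icc (0 : ℝ) (2 * Real.pi)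

private noncomputable def riemP (θ : ℝ) : RiemT := Set.projIcc 0 (2 * Real.pi) riem_pi θ

private theorem riemP_cont : Continuous riemP := continuous_projIcc (h := riem_pi)

private theorem riemP_of_mem {θ : ℝ} (h : θ ∈ Set.uIcc 0 (2 * Real.pi)) : ((riemP θ : RiemT) : ℝ) = θ := by
  rw [Set.uIcc_of_le riem_pi] at h
  rw [riemP, Set.projIcc_of_mem riem_pi h]

private theorem riem_cont2 (f : C(RiemT × RiemT, ℂ)) : Continuous fun x : ℝ × ℝ => f (riemP x.1, riemP x.2) :=
  f.continuous.comp ((riemP_cont.comp continuous_fst).prodMk (riemP_cont.comp continuous_snd))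

private theorem riem_cont_in (f : C(RiemT × RiemT, ℂ)) (θ : ℝ) : Continuous fun φ : ℝ => f (riemP θ, riemP φ) :=
  (riem_cont2 f).comp (continuous_const.prodMk continuous_id)

private theorem riem_cont_out (f : C(RiemT × RiemT, ℂ)) :
    Continuous fun θ : ℝ => ∫ φ in (0 : ℝ)..(2 * Real.pi), f (riemP θ, riemP φ) :=
  intervalIntegral.continuous_parametric_intervalIntegral_of_continuous' (f := fun θ φ : ℝ => f (riemP θ, riemP φ))
    (riem_cont2 f) _ _

/-- the double integral as a continuous functional -/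
private noncomputable def riemJ : C(RiemT × RiemT, ℂ) →L[ℂ] ℂ :=
  LinearMap.mkContinuous
    { toFun := fun f => ∫ θ in (0 : ℝ)..(2 * Real.pi), ∫ φ in (0 : ℝ)..(2 * Real.pi), f (riemP θ, riemP φ)
      map_add' := by
        intro f g
        rw [← intervalIntegral.integral_add ((riem_cont_out f).intervalIntegrable _ _)
          ((riem_cont_out g).intervalIntegrable _ _)]
        congr 1
        funext θ
        rw [← intervalIntegral.integral_add ((riem_cont_in f θ).intervalIntegrable _ _)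
          ((riem_cont_in g θ).intervalIntegrable _ _)]
        rfl
      map_smul' := by
        intro c f
        simp only [ContinuousMap.coe_smul, Pi.smul_apply, intervalIntegral.integral_smul, RingHom.id_apply] }
    ((2 * Real.pi) * (2 * Real.pi)) (by
      intro f
      have h1 : ∀ θ : ℝ, ‖∫ φ in (0 : ℝ)..(2 * Real.pi), f (riemP θ, riemP φ)‖ ≤ ‖f‖ * (2 * Real.pi) := by
        intro θ
        have h2 := intervalIntegral.norm_integral_le_of_norm_le_const (a := 0) (b := 2 * Real.pi) (C := ‖f‖)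
          (f := fun φ => f (riemP θ, riemP φ)) (fun φ _ => f.norm_coe_le_norm _)
        rwa [sub_zero, abs_of_nonneg riem_pi] at h2
      have h2 := intervalIntegral.norm_integral_le_of_norm_le_const (a := 0) (b := 2 * Real.pi)
        (C := ‖f‖ * (2 * Real.pi))
        (f := fun θ => ∫ φ in (0 : ℝ)..(2 * Real.pi), f (riemP θ, riemP φ)) (fun θ _ => h1 θ)
      rw [sub_zero, abs_of_nonneg riem_pi] at h2
      refine h2.trans (le_of_eq ?_)
      ring)

private theorem riemJ_apply (f : C(RiemT × RiemT, ℂ)) :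
    riemJ f = ∫ θ in (0 : ℝ)..(2 * Real.pi), ∫ φ in (0 : ℝ)..(2 * Real.pi), f (riemP θ, riemP φ) := rfl

private theorem riem_unit {Q : Type} [TopologicalSpace Q] (G : C(Q, ℂ)) {s : ℂ} (h : ∀ q, G q ≠ s) :
    IsUnit (G - s • (1 : C(Q, ℂ))) := by
  rw [ContinuousMap.isUnit_iff_forall_ne_zero]
  intro q hq
  apply h q
  have h1 : (G - s • (1 : C(Q, ℂ))) q = G q - s := by simp
  rw [h1, sub_eq_zero] at hq
  exact hq

private theorem riem_inv_apply {Q : Type} [TopologicalSpace Q] (G : C(Q, ℂ)) {s : ℂ} (h : ∀ q, G q ≠ s) (q : Q) :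
    (Ring.inverse (G - s • (1 : C(Q, ℂ)))) q = (G q - s)⁻¹ := by
  have h1 := Ring.mul_inverse_cancel _ (riem_unit G h)
  have h2 := congrArg (fun f : C(Q, ℂ) => f q) h1
  have h3 : (G q - s) * (Ring.inverse (G - s • (1 : C(Q, ℂ)))) q = 1 := by
    simpa using h2
  exact (eq_inv_of_mul_eq_one_right h3)

private theorem riem_inv_an {Q : Type} [TopologicalSpace Q] [CompactSpace Q] (G : C(Q, ℂ)) {s : ℂ} (h : ∀ q, G q ≠ s) :
    AnalyticAt ℂ (fun s : ℂ => Ring.inverse (G - s • (1 : C(Q, ℂ)))) s := by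
  obtain ⟨u, hu⟩ := riem_unit G h
  have h1 : AnalyticAt ℂ (Ring.inverse : C(Q, ℂ) → C(Q, ℂ)) (G - s • (1 : C(Q, ℂ))) := by
    rw [← hu]
    exact analyticAt_inverse u
  have h2 : AnalyticAt ℂ (fun s : ℂ => G - s • (1 : C(Q, ℂ))) s :=
    analyticAt_const.sub (analyticAt_id.smul analyticAt_const)
  exact AnalyticAt.fun_comp (g := (Ring.inverse : C(Q, ℂ) → C(Q, ℂ))) (f := fun s : ℂ => G - s • (1 : C(Q, ℂ))) h1 h2


theorem riem_ball {R r : ℝ} (hr : 0 < r) (hrR : r < R) {a : ℂ × ℂ → ℂ}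
    (ha : ∀ p ∈ ball (0 : ℂ × ℂ) R, p.2 ≠ 0 → AnalyticAt ℂ a p) {C : ℝ} (hC : ∀ p ∈ ball (0 : ℂ × ℂ) R, p.2 ≠ 0 → ‖a p‖ ≤ C) :
    ∃ g : ℂ × ℂ → ℂ, (∀ p ∈ ball (0 : ℂ × ℂ) r, AnalyticAt ℂ g p) ∧ ∀ p ∈ ball (0 : ℂ × ℂ) r, p.2 ≠ 0 → g p = a p := by
  have hmem : ∀ s t : ℂ, ‖s‖ ≤ r → ‖t‖ ≤ r → (s, t) ∈ ball (0 : ℂ × ℂ) R := by
    intro s t hs ht
    rw [mem_ball_zero_iff, Prod.norm_def]
    exact (max_le hs ht).trans_lt hrR
  have hγn : ∀ θ : ℝ, ‖circleMap 0 r θ‖ = r := by
    intro θ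
    rw [norm_circleMap_zero, abs_of_pos hr]
  have hac : ContinuousOn a {p | p ∈ ball (0 : ℂ × ℂ) R ∧ p.2 ≠ 0} := fun p hp => (ha p hp.1 hp.2).continuousAt.continuousWithinAt
  set γ : ℝ → ℂ := circleMap 0 r with hγ
  have hγ0 : ∀ θ, γ θ ≠ 0 := by
    intro θ h0
    have h1 := hγn θ
    rw [h0, norm_zero] at h1
    linarith
  have hγc : Continuous γ := continuous_circleMap 0 r
  set γ' : ℝ → ℂ := fun θ => γ θ * Complex.I with hγ'
  have hγ'c : Continuous γ' := hγc.mul continuous_const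
  have hTc1 : Continuous fun q : RiemT × RiemT => γ (q.1 : ℝ) := hγc.comp (continuous_subtype_val.comp continuous_fst)
  have hTc2 : Continuous fun q : RiemT × RiemT => γ (q.2 : ℝ) := hγc.comp (continuous_subtype_val.comp continuous_snd)
  have hWc : Continuous fun q : RiemT × RiemT => (2 * Real.pi * Complex.I)⁻¹ * (2 * Real.pi * Complex.I)⁻¹ *
      (γ' (q.1 : ℝ) * γ' (q.2 : ℝ)) * a (γ (q.1 : ℝ), γ (q.2 : ℝ)) := by
    refine (continuous_const.mul ((hγ'c.comp (continuous_subtype_val.comp continuous_fst)).mul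
      (hγ'c.comp (continuous_subtype_val.comp continuous_snd)))).mul ?_
    refine hac.comp_continuous (hTc1.prodMk hTc2) fun q => ?_
    exact ⟨hmem _ _ (hγn _).le (hγn _).le, hγ0 _⟩
  let W : C(RiemT × RiemT, ℂ) := ⟨_, hWc⟩
  let G1 : C(RiemT × RiemT, ℂ) := ⟨_, hTc1⟩
  let G2 : C(RiemT × RiemT, ℂ) := ⟨_, hTc2⟩
  have hG1 : ∀ s : ℂ, ‖s‖ < r → ∀ q, G1 q ≠ s := by
    intro s hs q hq
    have h1 : ‖G1 q‖ = r := hγn _
    rw [hq] at h1
    linarith
  have hG2 : ∀ s : ℂ, ‖s‖ < r → ∀ q, G2 q ≠ s := by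
    intro s hs q hq
    have h1 : ‖G2 q‖ = r := hγn _
    rw [hq] at h1
    linarith
  let K1 : ℂ → C(RiemT × RiemT, ℂ) := fun s => Ring.inverse (G1 - s • (1 : C(RiemT × RiemT, ℂ)))
  let K2 : ℂ → C(RiemT × RiemT, ℂ) := fun s => Ring.inverse (G2 - s • (1 : C(RiemT × RiemT, ℂ)))
  have hK1 : ∀ s : ℂ, ‖s‖ < r → AnalyticAt ℂ K1 s := fun s hs => riem_inv_an G1 (hG1 s hs)
  have hK2 : ∀ s : ℂ, ‖s‖ < r → AnalyticAt ℂ K2 s := fun s hs => riem_inv_an G2 (hG2 s hs)
  have key : ∀ s t : ℂ, ‖s‖ < r → ‖t‖ < r → t ≠ 0 → riemJ (W * K1 s * K2 t) = a (s, t) := by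
    intro s t hs ht ht0
    have hin : ∀ u : ℂ, ‖u‖ ≤ r →
        ∫ φ in (0 : ℝ)..(2 * Real.pi), γ' φ * ((γ φ - t)⁻¹ * a (u, γ φ)) = (2 * Real.pi * Complex.I) * a (u, t) := by
      intro u hu
      -- removable singularity at `0`
      have hR : 0 < R := hr.trans hrR
      have hd : DifferentiableOn ℂ (fun z => a (u, z)) (ball 0 R \ {0}) := by
        intro z hz
        have hz1 : ‖z‖ < R := by simpa using hz.1
        have h2 := (ha (u, z) (by
          rw [mem_ball_zero_iff, Prod.norm_def]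
          exact max_lt (lt_of_le_of_lt hu hrR) hz1) hz.2).differentiableAt
        exact (h2.comp z ((differentiableAt_const u).prodMk differentiableAt_id)).differentiableWithinAt
      have hb : BddAbove (norm ∘ (fun z => a (u, z)) '' (ball 0 R \ {0})) := by
        refine ⟨C, ?_⟩
        rintro _ ⟨z, hz, rfl⟩
        have hz1 : ‖z‖ < R := by simpa using hz.1
        exact hC (u, z) (by
          rw [mem_ball_zero_iff, Prod.norm_def]
          exact max_lt (lt_of_le_of_lt hu hrR) hz1) hz.2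
      have h1 := Complex.differentiableOn_update_limUnder_of_bddAbove (ball_mem_nhds (0 : ℂ) hR) hd hb
      set f := Function.update (fun z => a (u, z)) 0 (limUnder (𝓝[≠] (0 : ℂ)) fun z => a (u, z)) with hf
      have hfa : ∀ z, z ≠ 0 → f z = a (u, z) := fun z hz => by rw [hf, Function.update_of_ne hz]
      have h2 : DifferentiableOn ℂ f (closedBall 0 r) := h1.mono (closedBall_subset_ball hrR)
      have h3 := h2.circleIntegral_sub_inv_smul (w := t) (by simpa using ht)
      rw [circleIntegral, hfa t ht0] at h3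
      rw [← smul_eq_mul (2 * Real.pi * Complex.I), ← h3]
      apply intervalIntegral.integral_congr
      intro φ _
      simp only [deriv_circleMap, smul_eq_mul]
      rw [hfa _ (hγ0 φ)]
    have hout : ∫ θ in (0 : ℝ)..(2 * Real.pi), γ' θ * ((γ θ - s)⁻¹ * a (γ θ, t)) =
        (2 * Real.pi * Complex.I) * a (s, t) := by
      have h1 : DifferentiableOn ℂ (fun z => a (z, t)) (closedBall 0 r) := by
        intro z hz
        have h2 := (ha (z, t) (hmem z t (by simpa using hz) ht.le) ht0).differentiableAt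
        exact (h2.comp z (differentiableAt_id.prodMk (differentiableAt_const t))).differentiableWithinAt
      have h3 := h1.circleIntegral_sub_inv_smul (w := s) (by simpa using hs)
      rw [circleIntegral] at h3
      simpa only [deriv_circleMap, smul_eq_mul] using h3
    have hpi : (2 * Real.pi * Complex.I : ℂ) ≠ 0 := Complex.two_pi_I_ne_zero
    rw [riemJ_apply]
    have e1 : ∀ θ ∈ Set.uIcc (0 : ℝ) (2 * Real.pi),
        (∫ φ in (0 : ℝ)..(2 * Real.pi), (W * K1 s * K2 t) (riemP θ, riemP φ)) =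
        (2 * Real.pi * Complex.I)⁻¹ * (γ' θ * ((γ θ - s)⁻¹ * a (γ θ, t))) := by
      intro θ hθ
      have e2 : (∫ φ in (0 : ℝ)..(2 * Real.pi), (W * K1 s * K2 t) (riemP θ, riemP φ)) =
          ∫ φ in (0 : ℝ)..(2 * Real.pi), ((2 * Real.pi * Complex.I)⁻¹ * (2 * Real.pi * Complex.I)⁻¹ *
            (γ' θ * (γ θ - s)⁻¹)) * (γ' φ * ((γ φ - t)⁻¹ * a (γ θ, γ φ))) := by
        apply intervalIntegral.integral_congr
        intro φ hφ
        have e3 : (W * K1 s * K2 t) (riemP θ, riemP φ) =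
            W (riemP θ, riemP φ) * (K1 s (riemP θ, riemP φ)) * (K2 t (riemP θ, riemP φ)) := rfl
        have e4 : K1 s (riemP θ, riemP φ) = (γ θ - s)⁻¹ := by
          have h1 := riem_inv_apply G1 (hG1 s hs) (riemP θ, riemP φ)
          have h2 : G1 (riemP θ, riemP φ) = γ θ := by
            change γ ((riemP θ : RiemT) : ℝ) = γ θ
            rw [riemP_of_mem hθ]
          rw [h2] at h1
          exact h1
        have e5 : K2 t (riemP θ, riemP φ) = (γ φ - t)⁻¹ := by
          have h1 := riem_inv_apply G2 (hG2 t ht) (riemP θ, riemP φ)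
          have h2 : G2 (riemP θ, riemP φ) = γ φ := by
            change γ ((riemP φ : RiemT) : ℝ) = γ φ
            rw [riemP_of_mem hφ]
          rw [h2] at h1
          exact h1
        have e6 : W (riemP θ, riemP φ) = (2 * Real.pi * Complex.I)⁻¹ * (2 * Real.pi * Complex.I)⁻¹ *
            (γ' θ * γ' φ) * a (γ θ, γ φ) := by
          change (2 * Real.pi * Complex.I)⁻¹ * (2 * Real.pi * Complex.I)⁻¹ *
            (γ' ((riemP θ : RiemT) : ℝ) * γ' ((riemP φ : RiemT) : ℝ)) *
              a (γ ((riemP θ : RiemT) : ℝ), γ ((riemP φ : RiemT) : ℝ)) = _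
          rw [riemP_of_mem hθ, riemP_of_mem hφ]
        simp only [e3, e4, e5, e6]
        ring
      rw [e2, intervalIntegral.integral_const_mul, hin _ (hγn θ).le]
      field_simp
    rw [intervalIntegral.integral_congr e1, intervalIntegral.integral_const_mul, hout]
    field_simp
  refine ⟨fun p => riemJ (W * K1 p.1 * K2 p.2), ?_, ?_⟩
  · intro p hp
    rw [mem_ball_zero_iff, Prod.norm_def, max_lt_iff] at hp
    have h1 : AnalyticAt ℂ (fun p : ℂ × ℂ => K1 p.1) p := (hK1 p.1 hp.1).comp analyticAt_fst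
    have h2 : AnalyticAt ℂ (fun p : ℂ × ℂ => K2 p.2) p := (hK2 p.2 hp.2).comp analyticAt_snd
    exact (riemJ.analyticAt _).comp ((analyticAt_const.mul h1).mul h2)
  · intro p hp hp0
    rw [mem_ball_zero_iff, Prod.norm_def, max_lt_iff] at hp
    exact key p.1 p.2 hp.1 hp.2 hp0

/-- bounded analytic functions extend over the axis `p.2 = 0` -/
theorem riem_ext {a : ℂ × ℂ → ℂ} (ha : ∀ᶠ p in 𝓝 (0 : ℂ × ℂ), p.2 ≠ 0 → AnalyticAt ℂ a p) {C : ℝ}
    (hC : ∀ᶠ p in 𝓝 (0 : ℂ × ℂ), p.2 ≠ 0 → ‖a p‖ ≤ C) :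
    ∃ g : ℂ × ℂ → ℂ, AnalyticAt ℂ g 0 ∧ ∀ᶠ p in 𝓝 (0 : ℂ × ℂ), p.2 ≠ 0 → g p = a p := by
  obtain ⟨R, hR, h⟩ := Metric.eventually_nhds_iff_ball.1 (ha.and hC)
  obtain ⟨g, hg1, hg2⟩ := riem_ball (r := R / 2) (by positivity) (by linarith) (fun p hp => (h p hp).1) (fun p hp => (h p hp).2)
  refine ⟨g, hg1 0 (mem_ball_self (by positivity)), ?_⟩
  filter_upwards [ball_mem_nhds (0 : ℂ × ℂ) (by positivity : 0 < R / 2)] with p hp
  exact hg2 p hp

end Pool.Agent.H6.LU
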