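import Pool.Agent.H6.LU.LBs
import Pool.Agent.H6.LU.Riem
import Pool.Agent.H18.LU.OTc
import Pool.Agent.EG.LE.Frm

/-!
# LU Fm: the form on the cone
-/

set_option autoImplicit false

open Topology Filter Metric

noncomputable section

namespace Pool.Agent.H6.LU

open Pool.Agent.H17 (PN HolomorphicInto)
open Pool.Agent.H36.BP (EN coneOf coneOf_smul ne_zero_of_ofLp ofLp_ne_zero IsGermChart)
open Pool.Agent.H4.LU (Mem val IsParam IsInner IsHorChart IsEndChart IsEnd IsRegularEnd IsModel Over IsTangent IsLogForm VanishesOver IsNowhereZero)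
open Pool.Agent.H18.LU (OCone Dsc Nb part HorAt LFib LBase LogP)
open Pool.Agent.H62.EF (TorusMap Charts pr MN)
open Pool.Agent.H62.EL (BadSet IsNC TForm Per VanZero Thin tc)
open Pool.Agent.H14.PP (Tan CurveAt Chart jac)
open Pool.Agent.EG.LE (cf cf_change)

variable {M : ℕ} {Y V : Set (PN M)} {e : PN M → ℂ}

theorem tan_isTangent {x v : EN M} (h : Tan (coneOf V) x v) : IsTangent V x.ofLp v.ofLp := by
  obtain ⟨F, ⟨hF, hFV⟩, h0, hd⟩ := h
  refine ⟨fun z => pl M (F z), ((pl M).analyticAt _).comp hF, by simp only [h0]; rfl, ?_, hFV⟩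
  have h1 : HasDerivAt (fun z => pl M (F z)) (pl M (deriv F 0)) 0 := (pl M).hasFDerivAt.comp_hasDerivAt 0 hF.differentiableAt.hasDerivAt
  rw [h1.deriv, hd]
  rfl

theorem tangent_tan {x v : EN M} (h : IsTangent V x.ofLp v.ofLp) : Tan (coneOf V) x v := by
  obtain ⟨γ, hγ, h0, hd, hV⟩ := h
  refine ⟨fun z => lp M (γ z), ⟨((lp M).analyticAt _).comp hγ, hV⟩, by simp only [h0]; rfl, ?_⟩
  have h1 : HasDerivAt (fun z => lp M (γ z)) (lp M (deriv γ 0)) 0 := (lp M).hasFDerivAt.comp_hasDerivAt 0 hγ.differentiableAt.hasDerivAt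
  rw [h1.deriv, hd]
  rfl

theorem over_iff (h : IsModel Y V e) {x : EN M} (hx : x ∈ coneOf V) (a z : ℂ) : uu V e a x - z ∈ Lam ↔ Over V e (z + a) x.ofLp := by
  rw [uu_sub_iff h hx]
  exact ⟨fun h1 => ⟨hx, h1⟩, fun h1 => h1.2⟩

/-- the form on the cone -/
def tf (h : IsModel Y V e) {m : ℕ} {Ω : ℂ → (Fin (M + 1) → ℂ) → (Fin (M + 1) → ℂ) → (Fin (M + 1) → ℂ) → ℂ} (hΩ : IsLogForm Y V e m Ω) (a : ℂ)
    {K : Set (EN M)} (hK : K = coneOf V) : TForm K Lam (uu V e a) where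
  toFun := fun z x v w => Ω (z + a) x.ofLp v.ofLp w.ofLp
  add_smul := by
    subst hK
    intro z x hx hz v w hv hw b b'
    exact hΩ.horizontal _ _ ((over_iff h hx a z).1 hz) _ _ (tan_isTangent hv) (tan_isTangent hw) b b'
  det := by
    subst hK
    intro z x hx hz v w hv hw b b' c d
    exact hΩ.alternating _ _ ((over_iff h hx a z).1 hz) _ _ (tan_isTangent hv) (tan_isTangent hw) b b' c d
  scale := by
    subst hK
    intro z x hx hz v w hv hw c hc
    exact hΩ.homogeneous _ _ ((over_iff h hx a z).1 hz) _ _ (tan_isTangent hv) (tan_isTangent hw) c hc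
  analytic := by
    subst hK
    intro φ υ p hφ hυ hev
    have h1 := hΩ.holomorphic (fun y => pl M (φ y)) (fun y => υ y + a) p (((pl M).analyticAt _).comp hφ) (hυ.add analyticAt_const) (by
      filter_upwards [hev] with y hy
      exact (over_iff h hy.1 a _).1 hy.2)
    refine h1.congr ?_
    filter_upwards [hφ.eventually_analyticAt] with y hy
    have h2 : fderiv ℂ (fun y => pl M (φ y)) y = (pl M).comp (fderiv ℂ φ y) := by
      have h3 : HasFDerivAt (fun y => pl M (φ y)) ((pl M).comp (fderiv ℂ φ y)) y := (pl M).hasFDerivAt.comp y hy.differentiableAt.hasFDerivAt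
      exact h3.fderiv
    rw [h2]
    rfl

variable {m : ℕ} {Ω : ℂ → (Fin (M + 1) → ℂ) → (Fin (M + 1) → ℂ) → (Fin (M + 1) → ℂ) → ℂ}

theorem over_shift {z : ℂ} {x : Fin (M + 1) → ℂ} (m : ℕ) : Over V e (z + 2 * Real.pi * Complex.I * m) x ↔ Over V e z x := by
  have h1 : Complex.exp (z + 2 * Real.pi * Complex.I * m) = Complex.exp z := by
    have h2 : z + 2 * Real.pi * Complex.I * m = z + m * (2 * Real.pi * Complex.I) := by ring
    rw [h2, Complex.exp_add, Complex.exp_nat_mul_two_pi_mul_I, mul_one]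
  unfold Over
  rw [h1]

theorem per_nat (hΩ : IsLogForm Y V e m Ω) (n : ℕ) : ∀ z x, Over V e z x → ∀ v w, IsTangent V x v → IsTangent V x w →
    Ω (z + n * (2 * Real.pi * Complex.I * m)) x v w = Ω z x v w := by
  induction n with
  | zero =>
    intro z x _ v w _ _
    rw [Nat.cast_zero, zero_mul, add_zero]
  | succ n ih =>
    intro z x hz v w hv hw
    have h1 : z + ((n + 1 : ℕ) : ℂ) * (2 * Real.pi * Complex.I * m) = (z + n * (2 * Real.pi * Complex.I * m)) + 2 * Real.pi * Complex.I * m := by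
      push_cast
      ring
    rw [h1, hΩ.periodic _ x ?_ v w hv hw, ih z x hz v w hv hw]
    have h2 : ∀ k : ℕ, Over V e (z + k * (2 * Real.pi * Complex.I * m)) x := by
      intro k
      induction k with
      | zero => rwa [Nat.cast_zero, zero_mul, add_zero]
      | succ k ihk =>
        have h3 : z + ((k + 1 : ℕ) : ℂ) * (2 * Real.pi * Complex.I * m) = (z + k * (2 * Real.pi * Complex.I * m)) + 2 * Real.pi * Complex.I * m := by
          push_cast
          ring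
        rw [h3, over_shift]
        exact ihk
    exact h2 n

theorem per_tf (h : IsModel Y V e) (hm : 1 ≤ m) (hΩ : IsLogForm Y V e m Ω) (a : ℂ) {K : Set (EN M)} (hK : K = coneOf V) :
    Per (tf h hΩ a hK) (Gam m) := by
  subst hK
  intro z l hl x hx hz v w hv hw
  have hz' := (over_iff h hx a z).1 hz
  obtain ⟨n, rfl⟩ := (mem_Gam_iff hm).1 hl
  show Ω (z + n * (2 * Real.pi * Complex.I * m) + a) x.ofLp v.ofLp w.ofLp = Ω (z + a) x.ofLp v.ofLp w.ofLp
  rcases Int.eq_nat_or_neg n with ⟨k, rfl | rfl⟩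
  · have h1 := per_nat hΩ k (z + a) _ hz' _ _ (tan_isTangent hv) (tan_isTangent hw)
    rw [← h1]
    congr 1
    push_cast
    ring
  · have hk : Over V e (z + ((-(k : ℤ) : ℤ) : ℂ) * (2 * Real.pi * Complex.I * m) + a) x.ofLp := by
      refine (over_iff h hx a _).1 ?_
      have h2 : uu V e a x - (z + ((-(k : ℤ) : ℤ) : ℂ) * (2 * Real.pi * Complex.I * m)) = (uu V e a x - z) - ((-(k : ℤ) : ℤ) : ℂ) * (2 * Real.pi * Complex.I * m) := by ring
      rw [h2]
      exact Lam.sub_mem hz (Gam_le hm ((mem_Gam_iff hm).2 ⟨_, rfl⟩))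
    have h1 := per_nat hΩ k _ _ hk _ _ (tan_isTangent hv) (tan_isTangent hw)
    rw [← h1]
    congr 1
    push_cast
    ring

theorem vanZero_tf (h : IsModel Y V e) (hΩ : IsLogForm Y V e m Ω) {a : ℂ} (hv : VanishesOver V e Ω a) {K : Set (EN M)} (hK : K = coneOf V) :
    VanZero (tf h hΩ a hK) := by
  subst hK
  intro x hx hz v w hv' hw'
  have h1 := (over_iff h hx a 0).1 (by rwa [sub_zero])
  show Ω (0 + a) x.ofLp v.ofLp w.ofLp = 0
  rw [zero_add] at h1 ⊢
  exact hv _ h1 _ _ (tan_isTangent hv') (tan_isTangent hw')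

theorem Tan.smul {K : Set (EN M)} (hK : ∀ x ∈ K, ∀ c : ℂ, c ≠ 0 → c • x ∈ K) {x v : EN M} (h : Tan K x v) {c : ℂ} (hc : c ≠ 0) : Tan K (c • x) (c • v) := by
  obtain ⟨F, ⟨hF, hFV⟩, h0, hd⟩ := h
  refine ⟨fun z => c • F z, ⟨((c • ContinuousLinearMap.id ℂ (EN M)).analyticAt _).comp hF, hFV.mono fun z hz => hK _ hz c hc⟩, by simp only [h0], ?_⟩
  have h1 : HasDerivAt (fun z => c • F z) (c • deriv F 0) 0 := hF.differentiableAt.hasDerivAt.const_smul c
  rw [h1.deriv, hd]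

theorem thin_tf (h : IsModel Y V e) (hΩ : IsLogForm Y V e m Ω) (hn : IsNowhereZero V e Ω) (a : ℂ) {K : Set (EN M)} (hK : K = coneOf V) :
    Thin (tf h hΩ a hK) := by
  subst hK
  intro χ υ p hp hυ hl hcon
  have hOC : OCone (coneOf V) := ⟨zero_notMem_coneOf V, fun x hx c hc => coneOf_smul hx hc⟩
  have hm := χ.σ_mem p hp
  have hover : Over V e (υ p + a) (χ.σ p).ofLp := (over_iff h hm.1 a _).1 hl.self_of_nhds
  have hfr := hn _ _ hover
  have htor : TorusMap (coneOf V) Lam (uu V e a) := by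
    refine ⟨fun x hx => (torus_XX h a).smul x (V_sub_XX h hx), fun x hx => ?_⟩
    obtain ⟨v, hv, hvu⟩ := (torus_XX h a).loc x (V_sub_XX h hx)
    exact ⟨v, hv, hvu.mono fun y hy hyV => hy (V_sub_XX h hyV)⟩
  -- the point of the chart
  have hq : Tendsto (fun q : ℂ × (Fin (M + 1) → ℂ) => χ.q (lp M q.2)) (𝓝 (υ p + a, (χ.σ p).ofLp)) (𝓝 p) := by
    have h1 : Tendsto (fun q : ℂ × (Fin (M + 1) → ℂ) => lp M q.2) (𝓝 (υ p + a, (χ.σ p).ofLp)) (𝓝 (χ.σ p)) := by
      have h2 : Continuous fun q : ℂ × (Fin (M + 1) → ℂ) => lp M q.2 := (lp M).continuous.comp continuous_snd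
      exact h2.tendsto _
    have h2 := (χ.q_an _ hm.2.1).continuousAt.tendsto
    rw [hm.2.2] at h2
    exact h2.comp h1
  have hU : ∀ᶠ q : ℂ × (Fin (M + 1) → ℂ) in 𝓝 (υ p + a, (χ.σ p).ofLp), lp M q.2 ∈ χ.U := by
    have h2 : Continuous fun q : ℂ × (Fin (M + 1) → ℂ) => lp M q.2 := (lp M).continuous.comp continuous_snd
    exact (h2.tendsto _).eventually (χ.isOpen_U.mem_nhds hm.2.1)
  have hball : ∀ᶠ y in 𝓝 p, y ∈ ball (0 : ℂ × ℂ) 2 := isOpen_ball.mem_nhds hp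
  have hz : ∀ᶠ q : ℂ × (Fin (M + 1) → ℂ) in 𝓝 (υ p + a, (χ.σ p).ofLp), ‖q.1 - (υ (χ.q (lp M q.2)) + a)‖ < 1 := by
    have h1 : Tendsto (fun q : ℂ × (Fin (M + 1) → ℂ) => q.1 - (υ (χ.q (lp M q.2)) + a)) (𝓝 (υ p + a, (χ.σ p).ofLp)) (𝓝 (υ p + a - (υ p + a))) := by
      have h2 : Tendsto (fun q : ℂ × (Fin (M + 1) → ℂ) => υ (χ.q (lp M q.2))) (𝓝 (υ p + a, (χ.σ p).ofLp)) (𝓝 (υ p)) := hυ.continuousAt.tendsto.comp hq
      exact (continuous_fst.tendsto _).sub (h2.add tendsto_const_nhds)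
    rw [sub_self] at h1
    have h3 := h1.norm
    rw [norm_zero] at h3
    exact h3.eventually_lt_const one_pos
  obtain ⟨⟨z', x'⟩, ⟨hov, v, w, hv, hw, hne⟩, hx'U, ⟨hx'b, hx'l, hx'0⟩, hz'⟩ :=
    (hfr.and_eventually (hU.and ((hq.eventually (hball.and (hl.and hcon))).and hz))).exists
  simp only at hov hv hw hne hx'U hx'b hx'l hx'0 hz'
  set x : EN M := lp M x' with hx
  set y := χ.q x with hy
  have hxV : x ∈ coneOf V := hov.1
  obtain ⟨-, c, hc, hxc⟩ := χ.surj x hxV hx'U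
  have hy' := χ.σ_mem y hx'b
  -- the two lifts of `e` agree
  have hzl : z' - (υ y + a) ∈ Lam := by
    have h1 : uu V e a x - (z' - a) ∈ Lam := (over_iff h hxV a _).2 (by rwa [sub_add_cancel])
    have h2 : uu V e a x - uu V e a (χ.σ y) ∈ Lam := by
      have h3 := htor.smul _ hy'.1 c hc
      rwa [← hxc] at h3
    have h3 := Lam.sub_mem (Lam.add_mem hx'l h2) h1
    have h4 : uu V e a (χ.σ y) - υ y + (uu V e a x - uu V e a (χ.σ y)) - (uu V e a x - (z' - a)) = z' - (υ y + a) := by ring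
    rwa [h4] at h3
  have hzeq : z' = υ y + a := by
    by_contra hne'
    have h1 := Lam_norm hzl (sub_ne_zero.2 hne')
    have h2 := Real.pi_gt_three
    linarith
  apply hne
  have h0 : tc (tf h hΩ a rfl) χ υ y = 0 := hx'0
  obtain ⟨x₀, hx₀, hpr, hz₀, hall⟩ := (Pool.Agent.H18.LU.zr_iffO hOC htor (tf h hΩ a rfl) χ hx'b hx'l).2 h0
  -- `x` is a multiple of `x₀`
  have hprx : pr x = pr x₀ := by
    rw [hpr]
    exact (Pool.Agent.H62.EF.pr_eq_iff (OCone.ne_zero hOC hxV) (OCone.ne_zero hOC hy'.1)).2 ⟨c, hc, hxc⟩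
  obtain ⟨d, hd, hxd⟩ := (Pool.Agent.H62.EF.pr_eq_iff (OCone.ne_zero hOC hxV) (OCone.ne_zero hOC hx₀)).1 hprx
  have hsm : ∀ x ∈ coneOf V, ∀ c : ℂ, c ≠ 0 → c • x ∈ coneOf V := fun x hx c hc => coneOf_smul hx hc
  have htv : Tan (coneOf V) x (lp M v) := tangent_tan hv
  have htw : Tan (coneOf V) x (lp M w) := tangent_tan hw
  have hdx : d⁻¹ • x = x₀ := by rw [hxd, smul_smul, inv_mul_cancel₀ hd, one_smul]
  have htv' := Tan.smul hsm htv (inv_ne_zero hd)
  have htw' := Tan.smul hsm htw (inv_ne_zero hd)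
  rw [hdx] at htv' htw'
  have h5 := hall _ _ htv' htw'
  have h6 := (tf h hΩ a rfl).scale _ _ hx₀ hz₀ _ _ htv' htw' d hd
  rw [h5, ← hxd, smul_smul, smul_smul, mul_inv_cancel₀ hd, one_smul, one_smul] at h6
  have h7 : (tf h hΩ a rfl).toFun (υ y) x (lp M v) (lp M w) = Ω (υ y + a) x' v w := rfl
  rw [h7] at h6
  rw [hzeq]
  exact h6

end Pool.Agent.H6.LU
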