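import Pool.Agent.H18.LU.Oc
import Pool.Agent.H36.BP.GermChart

/-!
# LU Tr: the transition between two germ charts with the same centre
-/

set_option autoImplicit false

open Topology Filter Metric

noncomputable section

namespace Pool.Agent.H6.LU

open Pool.Agent.H36.BP (EN IsGermChart)
open Pool.Agent.H14.PP (jac)

variable {M : ℕ} {X : Set (EN M)}

theorem germ_tau {σ : ℂ × ℂ → EN M} {τ : EN M → ℂ × ℂ} (h : IsGermChart X σ τ) : τ (σ 0) = 0 := h.left.self_of_nhds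

theorem sigma_td {σ : ℂ × ℂ → EN M} {τ : EN M → ℂ × ℂ} (h : IsGermChart X σ τ) : Tendsto σ (𝓝 0) (𝓝 (σ 0)) := h.σ_an.continuousAt.tendsto

/-- The transition map. -/
theorem transition {σ σ₁ : ℂ × ℂ → EN M} {τ τ₁ : EN M → ℂ × ℂ} (h : IsGermChart X σ τ) (h₁ : IsGermChart X σ₁ τ₁) (h0 : σ 0 = σ₁ 0)
    (hne : σ 0 ≠ 0) :
    AnalyticAt ℂ (fun p => τ₁ (σ p)) 0 ∧ τ₁ (σ 0) = 0 ∧ (∀ᶠ p in 𝓝 (0 : ℂ × ℂ), ∃ c : ℂ, c ≠ 0 ∧ σ p = c • σ₁ (τ₁ (σ p))) ∧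
      jac (fun p => τ₁ (σ p)) 0 ≠ 0 := by
  have hψ0 : τ₁ (σ 0) = 0 := by rw [h0]; exact germ_tau h₁
  have hψ : AnalyticAt ℂ (fun p => τ₁ (σ p)) 0 := AnalyticAt.comp (g := τ₁) (f := σ) (by rw [h0]; exact h₁.τ_an) h.σ_an
  have hψt : Tendsto (fun p => τ₁ (σ p)) (𝓝 0) (𝓝 0) := by
    have := hψ.continuousAt.tendsto
    rwa [hψ0] at this
  have hσ := sigma_td h
  have hright : ∀ᶠ p in 𝓝 (0 : ℂ × ℂ), ∃ c : ℂ, c ≠ 0 ∧ σ p = c • σ₁ (τ₁ (σ p)) := by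
    have h2 := h₁.right
    rw [← h0] at h2
    filter_upwards [hσ.eventually h2, h.σ_mem] with p hp hp2
    exact hp hp2
  -- the scalar is near `1`
  obtain ⟨ℓ, hℓ⟩ : ∃ ℓ : EN M →L[ℂ] ℂ, ℓ (σ 0) = 1 := by
    have hne' : inner ℂ (σ 0) (σ 0) ≠ (0 : ℂ) := inner_self_ne_zero.mpr hne
    refine ⟨(inner ℂ (σ 0) (σ 0) : ℂ)⁻¹ • innerSL ℂ (σ 0), ?_⟩
    simp only [_root_.smul_apply, innerSL_apply_apply, smul_eq_mul]
    exact inv_mul_cancel₀ hne'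
  have hσψ : Tendsto (fun p => σ₁ (τ₁ (σ p))) (𝓝 0) (𝓝 (σ₁ 0)) := (sigma_td h₁).comp hψt
  have hsc : Tendsto (fun p => ℓ (σ₁ (τ₁ (σ p))) / ℓ (σ p)) (𝓝 0) (𝓝 1) := by
    have h2 : Tendsto (fun p => ℓ (σ₁ (τ₁ (σ p)))) (𝓝 0) (𝓝 1) := by
      have h3 := (ℓ.continuous.tendsto (σ₁ 0)).comp hσψ
      rwa [← h0, hℓ] at h3
    have h3 : Tendsto (fun p => ℓ (σ p)) (𝓝 0) (𝓝 1) := by
      have h4 := (ℓ.continuous.tendsto (σ 0)).comp hσ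
      rwa [hℓ] at h4
    have h4 := h2.div h3 one_ne_zero
    rwa [div_one] at h4
  have hinv : ∀ᶠ p in 𝓝 (0 : ℂ × ℂ), τ ((ℓ (σ₁ (τ₁ (σ p))) / ℓ (σ p)) • σ p) = τ (σ p) :=
    (hσ.prodMk_nhds hsc).eventually h.inv
  have hℓne : ∀ᶠ p in 𝓝 (0 : ℂ × ℂ), ℓ (σ p) ≠ 0 := by
    have h4 := (ℓ.continuous.tendsto (σ 0)).comp hσ
    rw [hℓ] at h4
    exact h4.eventually_ne one_ne_zero
  have hid : ∀ᶠ p in 𝓝 (0 : ℂ × ℂ), τ (σ₁ (τ₁ (σ p))) = p := by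
    filter_upwards [hright, hinv, hℓne, h.left] with p ⟨c, hc, hp1⟩ hp2 hp3 hp4
    have h5 : (ℓ (σ₁ (τ₁ (σ p))) / ℓ (σ p)) • σ p = σ₁ (τ₁ (σ p)) := by
      have h6 : ℓ (σ p) = c * ℓ (σ₁ (τ₁ (σ p))) := by
        conv_lhs => rw [hp1]
        rw [map_smul, smul_eq_mul]
      have h7 : ℓ (σ₁ (τ₁ (σ p))) ≠ 0 := by
        intro h8
        rw [h8, mul_zero] at h6
        exact hp3 h6
      conv_lhs => rw [h6]
      have h8 : ℓ (σ₁ (τ₁ (σ p))) / (c * ℓ (σ₁ (τ₁ (σ p)))) = c⁻¹ := by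
        field_simp
      rw [h8]
      conv_lhs => rw [hp1]
      rw [smul_smul, inv_mul_cancel₀ hc, one_smul]
    rw [← h5, hp2, hp4]
  refine ⟨hψ, hψ0, hright, ?_⟩
  -- the chain rule
  have hχ : AnalyticAt ℂ (fun q => τ (σ₁ q)) (τ₁ (σ 0)) := by
    rw [hψ0]
    exact AnalyticAt.comp (g := τ) (f := σ₁) (by rw [← h0]; exact h.τ_an) h₁.σ_an
  have hcomp : HasFDerivAt (fun p => τ (σ₁ (τ₁ (σ p)))) ((fderiv ℂ (fun q => τ (σ₁ q)) (τ₁ (σ 0))).comp (fderiv ℂ (fun p => τ₁ (σ p)) 0)) 0 :=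
    HasFDerivAt.comp (g := fun q => τ (σ₁ q)) (0 : ℂ × ℂ) hχ.differentiableAt.hasFDerivAt hψ.differentiableAt.hasFDerivAt
  have hid' : HasFDerivAt (fun p => τ (σ₁ (τ₁ (σ p)))) (ContinuousLinearMap.id ℂ (ℂ × ℂ)) 0 :=
    (hasFDerivAt_id (0 : ℂ × ℂ)).congr_of_eventuallyEq (by filter_upwards [hid] with p hp using hp)
  have heq := hcomp.unique hid'
  have hinj : ∀ v : ℂ × ℂ, fderiv ℂ (fun p => τ₁ (σ p)) 0 v = 0 → v = 0 := by
    intro v hv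
    have h2 := congrArg (fun L : (ℂ × ℂ) →L[ℂ] (ℂ × ℂ) => L v) heq
    simp only [ContinuousLinearMap.comp_apply, ContinuousLinearMap.id_apply] at h2
    rw [hv, map_zero] at h2
    exact h2.symm
  intro hj
  set L := fderiv ℂ (fun p => τ₁ (σ p)) 0 with hL
  have hLw : ∀ a b : ℂ, L (a, b) = a • L (1, 0) + b • L (0, 1) := by
    intro a b
    rw [← map_smul, ← map_smul, ← map_add]
    congr 1
    ext
    · simp
    · simp
  have hj' : (L (1, 0)).1 * (L (0, 1)).2 - (L (0, 1)).1 * (L (1, 0)).2 = 0 := hj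
  -- the two columns are dependent
  by_cases h2 : (L (0, 1)).2 = 0 ∧ (L (1, 0)).2 = 0
  · have h3 := hinj ((L (0, 1)).1, -(L (1, 0)).1) (by
      rw [hLw]
      ext
      · simp only [Prod.fst_add, Prod.smul_fst, smul_eq_mul, Prod.fst_zero]
        ring
      · simp only [Prod.snd_add, Prod.smul_snd, smul_eq_mul, Prod.snd_zero, h2.1, h2.2, mul_zero, add_zero])
    have h4 : (L (0, 1)).1 = 0 := congrArg Prod.fst h3
    have h5 := hinj (0, 1) (Prod.ext h4 h2.1)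
    exact one_ne_zero (congrArg Prod.snd h5)
  · have h3 := hinj ((L (0, 1)).2, -(L (1, 0)).2) (by
      rw [hLw]
      ext
      · simp only [Prod.fst_add, Prod.smul_fst, smul_eq_mul, Prod.fst_zero]
        linear_combination hj'
      · simp only [Prod.snd_add, Prod.smul_snd, smul_eq_mul, Prod.snd_zero]
        ring)
    apply h2
    refine ⟨congrArg Prod.fst h3, ?_⟩
    have h4 : -(L (1, 0)).2 = 0 := congrArg Prod.snd h3
    exact neg_eq_zero.1 h4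

/-- If the second coordinate of `ψ` vanishes on the axis `p.2 = 0`, and the jacobian is not zero, then `p.2` is bounded by a multiple of the second coordinate of `ψ`. -/
theorem snd_le {ψ : ℂ × ℂ → ℂ × ℂ} (hψ : AnalyticAt ℂ ψ 0) (hj : jac ψ 0 ≠ 0) (h0 : ∀ᶠ p in 𝓝 (0 : ℂ × ℂ), p.2 = 0 → (ψ p).2 = 0) :
    ∃ C : ℝ, 0 < C ∧ ∀ᶠ p in 𝓝 (0 : ℂ × ℂ), ‖p.2‖ ≤ C * ‖(ψ p).2‖ := by
  set L := fderiv ℂ ψ 0 with hL
  have hd : HasFDerivAt ψ L 0 := hψ.differentiableAt.hasFDerivAt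
  -- the derivative along the axis
  have h1 : (L (1, 0)).2 = 0 := by
    have h2 : HasDerivAt (fun s : ℂ => (ψ (s, 0)).2) (L (1, 0)).2 0 := by
      have h3 : HasDerivAt (fun s : ℂ => ((s, 0) : ℂ × ℂ)) (1, 0) 0 := (hasDerivAt_id (0 : ℂ)).prodMk (hasDerivAt_const _ _)
      have h4 : HasDerivAt (fun s : ℂ => ψ (s, 0)) (L (1, 0)) 0 :=
        HasFDerivAt.comp_hasDerivAt (f := fun s : ℂ => ((s, 0) : ℂ × ℂ)) (0 : ℂ) hd h3
      exact (ContinuousLinearMap.snd ℂ ℂ ℂ).hasFDerivAt.comp_hasDerivAt (0 : ℂ) h4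
    have h3 : (fun s : ℂ => (ψ (s, 0)).2) =ᶠ[𝓝 0] fun _ => 0 := by
      have hc : Tendsto (fun s : ℂ => ((s, 0) : ℂ × ℂ)) (𝓝 0) (𝓝 0) := by
        have hc : Continuous fun s : ℂ => ((s, 0) : ℂ × ℂ) := by fun_prop
        exact hc.tendsto 0
      filter_upwards [hc.eventually h0] with s hs
      exact hs rfl
    exact (h2.congr_of_eventuallyEq h3.symm).unique (hasDerivAt_const _ _)
  have h2 : (L (0, 1)).2 ≠ 0 := by
    intro h2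
    apply hj
    show (L (1, 0)).1 * (L (0, 1)).2 - (L (0, 1)).1 * (L (1, 0)).2 = 0
    rw [h1, h2, mul_zero, mul_zero, sub_zero]
  set κ := ‖(L (0, 1)).2‖ with hκ
  have hκ0 : 0 < κ := norm_pos_iff.2 h2
  have hs : HasStrictFDerivAt ψ L 0 := hψ.hasStrictFDerivAt
  have h3 := hs.isLittleO.def (show 0 < κ / 2 by positivity)
  have hc : Tendsto (fun p : ℂ × ℂ => (p, ((p.1, 0) : ℂ × ℂ))) (𝓝 0) (𝓝 ((0 : ℂ × ℂ), (0 : ℂ × ℂ))) := by
    have hc : Continuous fun p : ℂ × ℂ => (p, ((p.1, 0) : ℂ × ℂ)) := by fun_prop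
    exact hc.tendsto 0
  have hc2 : Tendsto (fun p : ℂ × ℂ => ((p.1, 0) : ℂ × ℂ)) (𝓝 0) (𝓝 (0 : ℂ × ℂ)) := by
    have hc : Continuous fun p : ℂ × ℂ => ((p.1, 0) : ℂ × ℂ) := by fun_prop
    exact hc.tendsto 0
  refine ⟨2 / κ, by positivity, ?_⟩
  filter_upwards [hc.eventually h3, hc2.eventually h0] with p hp hp0
  have h4 : p - (p.1, 0) = (0, p.2) := by
    ext
    · simp
    · simp
  rw [h4] at hp
  have h5 : ‖((0 : ℂ), p.2)‖ = ‖p.2‖ := by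
    rw [Prod.norm_def]
    simp
  rw [h5] at hp
  have h6 : L (0, p.2) = p.2 • L (0, 1) := by
    rw [← map_smul]
    congr 1
    ext
    · simp
    · simp
  have h7 := (norm_snd_le _).trans hp
  rw [h6] at h7
  simp only [Prod.snd_sub, Prod.smul_snd, smul_eq_mul, hp0 rfl, sub_zero] at h7
  have h8 : ‖p.2 * (L (0, 1)).2‖ = κ * ‖p.2‖ := by rw [norm_mul, mul_comm]
  have h9 : κ * ‖p.2‖ ≤ ‖(ψ p).2‖ + κ / 2 * ‖p.2‖ := by
    rw [← h8]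
    have := norm_sub_norm_le (p.2 * (L (0, 1)).2) ((ψ p).2)
    have h10 : ‖p.2 * (L (0, 1)).2 - (ψ p).2‖ = ‖(ψ p).2 - p.2 * (L (0, 1)).2‖ := norm_sub_rev _ _
    rw [h10] at this
    linarith
  rw [div_mul_eq_mul_div, le_div_iff₀ hκ0]
  linarith

end Pool.Agent.H6.LU
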