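import Pool.Agent.H6.LU.Fm
import Pool.Agent.H6.LU.Tr

/-!
# LU Lg: logarithmic poles along the boundary curve
-/

set_option autoImplicit false

open Topology Filter Metric

noncomputable section

namespace Pool.Agent.H6.LU

open Pool.Agent.H17 (PN HolomorphicInto)
open Pool.Agent.H36.BP (EN coneOf coneOf_smul ne_zero_of_ofLp ofLp_ne_zero IsGermChart)
open Pool.Agent.H4.LU (Mem val IsParam IsInner IsHorChart IsEndChart IsEnd IsRegularEnd IsModel Over IsTangent IsLogForm VanishesOver IsNowhereZero)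
open Pool.Agent.H18.LU (OCone Dsc Nb part HorAt LFib LBase LogP)
open Pool.Agent.H62.EF (TorusMap Charts pr MN)
open Pool.Agent.H62.EL (BadSet IsNC TForm Per VanZero Thin tc)
open Pool.Agent.H14.PP (Tan CurveAt Chart jac)
open Pool.Agent.EG.LE (cf cf_change)

variable {M : ℕ} {Y V : Set (PN M)} {e : PN M → ℂ} {m : ℕ} {Ω : ℂ → (Fin (M + 1) → ℂ) → (Fin (M + 1) → ℂ) → (Fin (M + 1) → ℂ) → ℂ}

/-- the partial derivatives of a parametrization are tangent vectors -/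
theorem isTangent_fderiv {σ₀ : ℂ × ℂ → Fin (M + 1) → ℂ} {p : ℂ × ℂ} (hσ : AnalyticAt ℂ σ₀ p) (hV : ∀ᶠ q in 𝓝 p, Mem V (σ₀ q)) (w : ℂ × ℂ) :
    IsTangent V (σ₀ p) (fderiv ℂ σ₀ p w) := by
  have hl : AnalyticAt ℂ (fun z : ℂ => p + z • w) 0 := by fun_prop
  have hl0 : p + (0 : ℂ) • w = p := by rw [zero_smul, add_zero]
  refine ⟨fun z => σ₀ (p + z • w), ?_, by simp only [hl0], ?_, ?_⟩
  · exact AnalyticAt.comp (g := σ₀) (f := fun z : ℂ => p + z • w) (by rw [hl0]; exact hσ) hl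
  · have h2 : HasDerivAt (fun z : ℂ => p + z • w) w 0 := by
      have := ((hasDerivAt_id (0 : ℂ)).smul_const w).const_add p
      simpa using this
    have h4 : HasFDerivAt σ₀ (fderiv ℂ σ₀ p) (p + (0 : ℂ) • w) := by
      rw [hl0]
      exact hσ.differentiableAt.hasFDerivAt
    exact (h4.comp_hasDerivAt (0 : ℂ) h2).deriv
  · have h1 : Tendsto (fun z : ℂ => p + z • w) (𝓝 0) (𝓝 p) := by
      have := hl.continuousAt.tendsto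
      rwa [hl0] at this
    exact h1.eventually hV

/-- the coefficient in a scaled parametrization -/
theorem cf_eq (h : IsModel Y V e) (hΩ : IsLogForm Y V e m Ω) (a : ℂ) {K : Set (EN M)} (hK : K = coneOf V) {σ₀ : ℂ × ℂ → Fin (M + 1) → ℂ} {p : ℂ × ℂ}
    (hσ : AnalyticAt ℂ σ₀ p) (hV : ∀ᶠ q in 𝓝 p, Mem V (σ₀ q)) {c : ℂ} (hc : c ≠ 0) {t : ℂ} (ht : Over V e (t + a) (σ₀ p)) :
    cf (tf h hΩ a hK) (fun p => c • lp M (σ₀ p)) t p = Ω (t + a) (σ₀ p) (fderiv ℂ σ₀ p (1, 0)) (fderiv ℂ σ₀ p (0, 1)) := by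
  have h1 : ∀ w, fderiv ℂ (fun p => c • lp M (σ₀ p)) p w = c • lp M (fderiv ℂ σ₀ p w) := by
    intro w
    have h2 : HasFDerivAt (fun p => c • lp M (σ₀ p)) ((c • lp M : (Fin (M + 1) → ℂ) →L[ℂ] EN M).comp (fderiv ℂ σ₀ p)) p :=
      (c • lp M : (Fin (M + 1) → ℂ) →L[ℂ] EN M).hasFDerivAt.comp p hσ.differentiableAt.hasFDerivAt
    rw [h2.fderiv]
    rfl
  show Ω (t + a) (c • lp M (σ₀ p)).ofLp (fderiv ℂ (fun p => c • lp M (σ₀ p)) p (1, 0)).ofLp (fderiv ℂ (fun p => c • lp M (σ₀ p)) p (0, 1)).ofLp = _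
  rw [h1, h1]
  exact hΩ.homogeneous _ _ ht _ _ (isTangent_fderiv hσ hV _) (isTangent_fderiv hσ hV _) c hc

/-- the bound in a chart at the boundary curve -/
theorem hor_bound (h : IsModel Y V e) (hΩ : IsLogForm Y V e m Ω) (a : ℂ) {K : Set (EN M)} (hK : K = coneOf V) {σ₀ : ℂ × ℂ → Fin (M + 1) → ℂ}
    {τ₀ : (Fin (M + 1) → ℂ) → ℂ × ℂ} {y : PN M} (hch : IsHorChart Y V e σ₀ τ₀ y) {c : ℂ} (hc : c ≠ 0) :
    ∃ C : ℝ, 0 ≤ C ∧ ∀ᶠ p in 𝓝 (0 : ℂ × ℂ), p.2 ≠ 0 → ∀ t : ℂ, Over V e (t + a) (σ₀ p) →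
      ‖p.2 * cf (tf h hΩ a hK) (fun p => c • lp M (σ₀ p)) t p‖ ≤ C := by
  obtain ⟨C, hC⟩ := hΩ.hor σ₀ τ₀ y hch
  obtain ⟨hp, c', i, hi, hf⟩ := hch
  refine ⟨max C 0, le_max_right _ _, ?_⟩
  filter_upwards [hC, hf.eventually_nhds, hp.analytic.eventually_analyticAt] with p h1 h2 h3 hp2 t ht
  have hV : ∀ᶠ q in 𝓝 p, Mem V (σ₀ q) := by
    have h4 : ∀ᶠ q : ℂ × ℂ in 𝓝 p, q.2 ≠ 0 := continuousAt_snd.eventually_ne hp2
    filter_upwards [h2, h4] with q hq1 hq2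
    exact hq1.1.2 hq2
  rw [cf_eq h hΩ a hK h3 hV hc ht]
  exact (h1 _ ht).trans (le_max_left _ _)

/-- the chart in `ℙ^M` at a point of the boundary curve -/
theorem exists_hor (h : IsModel Y V e) {x : EN M} (hx : x ∈ DH Y V e) : ∃ (σ₀ : ℂ × ℂ → Fin (M + 1) → ℂ) (τ₀ : (Fin (M + 1) → ℂ) → ℂ × ℂ) (y : PN M) (c : ℂ),
    IsHorChart Y V e σ₀ τ₀ y ∧ c ≠ 0 ∧ c • lp M (σ₀ 0) = x := by
  obtain ⟨⟨hxY, w, hw0, hw⟩, hxV⟩ := hx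
  obtain ⟨hx0, hxY'⟩ := id hxY
  have := neBot_V h hxY
  rcases h.point _ hxY' with h1 | ⟨σ, τ, h1⟩ | ⟨k, nd, hor, σ, τ, h1⟩ | ⟨k, nd, hor, σ, τ, h1⟩
  · exfalso
    obtain ⟨σ, τ, c, i, j, h2⟩ := mch_of_inner h1 (x := x) ⟨hx0, rfl⟩
    have h8 := h2.form.self_of_nhds
    rw [h2.gp.center] at h8
    exact hxV (h8.1.2 (by simp))
  · obtain ⟨c, hc, hcx⟩ := exists_scale h1.1 (x := x) ⟨hx0, rfl⟩
    exact ⟨σ, τ, _, c, h1, hc, hcx⟩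
  · exfalso
    obtain ⟨c, hc, hcx⟩ := exists_scale h1.1 (x := x) ⟨hx0, rfl⟩
    have h2 := ech_of_end h1 hc hcx
    exact hw0 (tendsto_nhds_unique hw (h2.tendsto h.sub))
  · exfalso
    obtain ⟨c, hc, hcx⟩ := exists_scale h1.1 (x := x) ⟨hx0, rfl⟩
    have h2 := ech_of_end h1 hc hcx
    exact tendsto_inv_unique h hxY hw (h2.tendsto h.sub)

/-- a bound in an arbitrary chart -/
theorem log_bound (h : IsModel Y V e) (hΩ : IsLogForm Y V e m Ω) (a : ℂ) {σ : ℂ × ℂ → EN M} {τ : EN M → ℂ × ℂ}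
    (hg : IsGermChart (XX Y V e) σ τ) (hD : ∀ᶠ p in 𝓝 (0 : ℂ × ℂ), σ p ∈ DH Y V e ↔ p.2 = 0) :
    ∃ C : ℝ, ∀ᶠ p in 𝓝 (0 : ℂ × ℂ), p.2 ≠ 0 → ∀ t : ℂ, uu V e a (σ p) - t ∈ Lam → ‖p.2 * cf (tf h hΩ a (XX_diff h)) σ t p‖ ≤ C := by
  have hx : σ 0 ∈ DH Y V e := hD.self_of_nhds.2 rfl
  obtain ⟨σ₀, τ₀, y, c, hch, hc, hcx⟩ := exists_hor h hx
  obtain ⟨c', i, hmch⟩ := mch_of_hor hch hc hcx
  set σ₁ : ℂ × ℂ → EN M := fun p => c • lp M (σ₀ p) with hσ₁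
  set τ₁ : EN M → ℂ × ℂ := fun x => τ₀ (pl M (c⁻¹ • x)) with hτ₁
  have hg₁ := hmch.germ h
  have h0 : σ 0 = σ₁ 0 := hcx.symm
  have hne : σ 0 ≠ 0 := coneOf_ne hx.1.1
  obtain ⟨hψ, hψ0, hcoord, hjac⟩ := transition hg hg₁ h0 hne
  set ψ : ℂ × ℂ → ℂ × ℂ := fun p => τ₁ (σ p) with hψdef
  have hψt : Tendsto ψ (𝓝 0) (𝓝 0) := by
    have := hψ.continuousAt.tendsto
    have h9 : ψ 0 = 0 := hψ0
    rwa [h9] at this
  obtain ⟨C₁, hC₁0, hC₁⟩ := hor_bound h hΩ a (XX_diff h) hch hc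
  have hf := hmch.form
  -- the second coordinate
  have hiff : ∀ᶠ p in 𝓝 (0 : ℂ × ℂ), (p.2 = 0 ↔ (ψ p).2 = 0) ∧ (p.2 ≠ 0 → σ p ∈ coneOf V) := by
    filter_upwards [hD, hψt.eventually hf, hcoord, hg.σ_mem] with p hp1 hp2 ⟨b, hb, hp3⟩ hp4
    have h1 : σ p ∈ coneOf V ↔ (ψ p).2 ≠ 0 := by
      rw [hp3, coneOf_smul_iff hb, hp2.1]
      simp
    have h2 : σ p ∈ DH Y V e ↔ ¬ (ψ p).2 ≠ 0 := by
      rw [← h1]
      exact ⟨fun h3 => h3.2, fun h3 => ⟨hp4, h3⟩⟩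
    rw [hp1, not_not] at h2
    exact ⟨h2, fun h3 => h1.2 fun h4 => h3 (h2.2 h4)⟩
  obtain ⟨C₂, hC₂0, hC₂⟩ := snd_le hψ hjac (by filter_upwards [hiff] with p hp h1 using hp.1.1 h1)
  have hj : ContinuousAt (fun p => jac ψ p) 0 := by
    have h1 : AnalyticAt ℂ (fun p => fderiv ℂ ψ p) 0 := hψ.fderiv
    have h2 : ∀ v : ℂ × ℂ, AnalyticAt ℂ (fun p => fderiv ℂ ψ p v) 0 := fun v =>
      ((ContinuousLinearMap.apply ℂ (ℂ × ℂ) v).analyticAt _).comp h1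
    have h3 : ∀ v : ℂ × ℂ, ContinuousAt (fun p => (fderiv ℂ ψ p v).1) 0 := fun v => continuousAt_fst.comp (h2 v).continuousAt
    have h4 : ∀ v : ℂ × ℂ, ContinuousAt (fun p => (fderiv ℂ ψ p v).2) 0 := fun v => continuousAt_snd.comp (h2 v).continuousAt
    exact ((h3 _).mul (h4 _)).sub ((h3 _).mul (h4 _))
  have hjb : ∀ᶠ p in 𝓝 (0 : ℂ × ℂ), ‖jac ψ p‖ ≤ ‖jac ψ 0‖ + 1 := by
    filter_upwards [hj.norm.eventually_lt_const (lt_add_one _)] with p hp using hp.le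
  refine ⟨C₂ * C₁ * (‖jac ψ 0‖ + 1), ?_⟩
  filter_upwards [hC₂, hψt.eventually hC₁, hjb, hiff, hg.σ_an.eventually_analyticAt, hψ.eventually_analyticAt,
    hψt.eventually hg₁.σ_an.eventually_analyticAt, hψt.eventually hf.eventually_nhds, hcoord.eventually_nhds] with
    p hp1 hp2 hp3 hp4 hp5 hp6 hp7 hp8 hp9 hp0 t ht
  have hψ2 : (ψ p).2 ≠ 0 := fun h1 => hp0 (hp4.1.2 h1)
  have hV : ∀ᶠ y in 𝓝 (ψ p), σ₁ y ∈ XX Y V e \ DH Y V e := by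
    rw [XX_diff h]
    have h4 : ∀ᶠ q : ℂ × ℂ in 𝓝 (ψ p), q.2 ≠ 0 := continuousAt_snd.eventually_ne hψ2
    filter_upwards [hp8, h4] with q hq1 hq2
    exact hq1.1.2 fun _ => hq2
  have hOC : OCone (coneOf V) := ⟨zero_notMem_coneOf V, fun x hx c hc => coneOf_smul hx hc⟩
  have hsm : ∀ x ∈ XX Y V e \ DH Y V e, ∀ c : ℂ, c ≠ 0 → c • x ∈ XX Y V e \ DH Y V e := by
    rw [XX_diff h]
    exact fun x hx c hc => coneOf_smul hx hc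
  have hz : (0 : EN M) ∉ XX Y V e \ DH Y V e := by
    rw [XX_diff h]
    exact zero_notMem_coneOf V
  obtain ⟨b, hb, hpb⟩ := hp9.self_of_nhds
  have hσ₁V : σ₁ (ψ p) ∈ coneOf V := by
    have := hV.self_of_nhds
    rwa [XX_diff h] at this
  have hu : uu V e a (σ₁ (ψ p)) - t ∈ Lam := by
    have h1 := (torus_XX h a).smul _ (V_sub_XX h hσ₁V) b hb
    rw [← hpb] at h1
    have h2 := Lam.sub_mem ht h1
    have h3 : uu V e a (σ p) - t - (uu V e a (σ p) - uu V e a (σ₁ (ψ p))) = uu V e a (σ₁ (ψ p)) - t := by ring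
    rwa [h3] at h2
  have hcf := cf_change (α := tf h hΩ a (XX_diff h)) (t := t) hz hsm (φ := σ) (ψ := σ₁) (τ := ψ) (p := p) hp5 hp7 hp6 hV hu hp9
  rw [hcf]
  have hov : Over V e (t + a) (σ₀ (ψ p)) := by
    have h1 := (over_iff h hσ₁V a t).1 hu
    obtain ⟨h2, h3⟩ := h1
    refine ⟨?_, ?_⟩
    · have h4 : lp M (σ₀ (ψ p)) ∈ coneOf V := (coneOf_smul_iff hc).1 hσ₁V
      exact h4
    · have h4 : ev e (c • lp M (σ₀ (ψ p))) = Complex.exp (t + a) := h3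
      rw [ev_smul _ _ hc] at h4
      exact h4
  have h5 := hp2 hψ2 t hov
  calc ‖p.2 * (cf (tf h hΩ a (XX_diff h)) σ₁ t (ψ p) * jac ψ p)‖
      = ‖p.2‖ * ‖cf (tf h hΩ a (XX_diff h)) σ₁ t (ψ p)‖ * ‖jac ψ p‖ := by rw [norm_mul, norm_mul, mul_assoc]
    _ ≤ C₂ * ‖(ψ p).2‖ * ‖cf (tf h hΩ a (XX_diff h)) σ₁ t (ψ p)‖ * (‖jac ψ 0‖ + 1) := by gcongr
    _ = C₂ * ‖(ψ p).2 * cf (tf h hΩ a (XX_diff h)) σ₁ t (ψ p)‖ * (‖jac ψ 0‖ + 1) := by rw [norm_mul]; ring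
    _ ≤ C₂ * C₁ * (‖jac ψ 0‖ + 1) := by gcongr

/-- **Logarithmic poles.** -/
theorem logP_tf (h : IsModel Y V e) (hΩ : IsLogForm Y V e m Ω) (a : ℂ) : LogP (tf h hΩ a (XX_diff h)) := by
  intro σ τ υ hg hD hυ hu
  obtain ⟨C, hC⟩ := log_bound h hΩ a hg hD
  have han : ∀ᶠ p in 𝓝 (0 : ℂ × ℂ), p.2 ≠ 0 → AnalyticAt ℂ (fun p => p.2 * (tf h hΩ a (XX_diff h)).toFun (υ p) (σ p) (fderiv ℂ σ p (1, 0)) (fderiv ℂ σ p (0, 1))) p := by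
    filter_upwards [hD.eventually_nhds, hg.σ_mem.eventually_nhds, hg.σ_an.eventually_analyticAt, hυ.eventually_analyticAt, hu.eventually_nhds] with
      p h1 h2 h3 h4 h5 hp
    refine analyticAt_snd.mul ((tf h hΩ a (XX_diff h)).analytic σ υ p h3 h4 ?_)
    have h6 : ∀ᶠ q : ℂ × ℂ in 𝓝 p, q.2 ≠ 0 := continuousAt_snd.eventually_ne hp
    filter_upwards [h1, h2, h5, h6] with q hq1 hq2 hq3 hq4
    exact ⟨⟨hq2, fun h7 => hq4 (hq1.1 h7)⟩, hq3⟩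
  obtain ⟨g, hg1, hg2⟩ := riem_ext han (C := C) (by
    filter_upwards [hC, hu] with p h1 h2 hp
    exact h1 hp _ h2)
  refine ⟨g, hg1, ?_⟩
  filter_upwards [hg2] with p hp hp0
  exact (hp hp0).symm

end Pool.Agent.H6.LU
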