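import Pool.Agent.H6.LU.Lg
import Pool.Agent.H86.LU.Cpt

/-!
# LU Rb: residues near the ends, general lemmas
-/

set_option autoImplicit false

open Topology Filter Metric

noncomputable section

namespace Pool.Agent.H6.LU

open Pool.Agent.H36.BP (EN IsGermChart)
open Pool.Agent.H18.LU (OCone Dsc LogP)
open Pool.Agent.H62.EF (TorusMap)
open Pool.Agent.H62.EL (TForm)
open Pool.Agent.H14.PP (jac)
open Pool.Agent.H86.LU (RA germ_shift)
open Pool.Agent.EG.LE (cf cf_change)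

variable {M : ℕ}

/-- change of coordinates in a germ chart -/
theorem germ_comp {X : Set (EN M)} {σ : ℂ × ℂ → EN M} {τ : EN M → ℂ × ℂ} (h : IsGermChart X σ τ) {φ ψ : ℂ × ℂ → ℂ × ℂ}
    (hφ : AnalyticAt ℂ φ 0) (hψ : AnalyticAt ℂ ψ 0) (h0 : φ 0 = 0) (h1 : ∀ᶠ p in 𝓝 (0 : ℂ × ℂ), ψ (φ p) = p)
    (h2 : ∀ᶠ p in 𝓝 (0 : ℂ × ℂ), φ (ψ p) = p) : IsGermChart X (fun p => σ (φ p)) (fun y => ψ (τ y)) := by
  have hφt : Tendsto φ (𝓝 0) (𝓝 0) := by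
    have := hφ.continuousAt.tendsto
    rwa [h0] at this
  have hτ0 : τ (σ 0) = 0 := h.left.self_of_nhds
  have hτt : Tendsto τ (𝓝 (σ 0)) (𝓝 0) := by
    have := h.τ_an.continuousAt.tendsto
    rwa [hτ0] at this
  refine ⟨AnalyticAt.comp (g := σ) (f := φ) (by rw [h0]; exact h.σ_an) hφ, hφt.eventually h.σ_mem, ?_, ?_, ?_, ?_⟩
  · show AnalyticAt ℂ (fun y => ψ (τ y)) (σ (φ 0))
    rw [h0]
    exact AnalyticAt.comp (g := ψ) (f := τ) (by rw [hτ0]; exact hψ) h.τ_an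
  · filter_upwards [hφt.eventually h.left, h1] with p hp1 hp2
    rw [hp1, hp2]
  · show ∀ᶠ y in 𝓝 (σ (φ 0)), y ∈ X → ∃ c : ℂ, c ≠ 0 ∧ y = c • σ (φ (ψ (τ y)))
    rw [h0]
    filter_upwards [h.right, hτt.eventually h2] with y hy1 hy2 hy
    rw [hy2]
    exact hy1 hy
  · show ∀ᶠ z in 𝓝 (σ (φ 0), (1 : ℂ)), ψ (τ (z.2 • z.1)) = ψ (τ z.1)
    rw [h0]
    filter_upwards [h.inv] with z hz
    rw [hz]

/-- a germ chart of an open part -/
theorem germ_open {K X : Set (EN M)} (hXK : X ⊆ K) {σ : ℂ × ℂ → EN M} {τ : EN M → ℂ × ℂ} (h : IsGermChart K σ τ)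
    (hm : ∀ᶠ p in 𝓝 (0 : ℂ × ℂ), σ p ∈ X) : IsGermChart X σ τ :=
  ⟨h.σ_an, hm, h.τ_an, h.left, h.right.mono fun _ hy hyX => hy (hXK hyX), h.inv⟩

/-- the coordinate change `(s, t) ↦ (p₁ (exp (ε s) - 1), t)` -/
def ph (p₁ ε : ℂ) (q : ℂ × ℂ) : ℂ × ℂ := (p₁ * (Complex.exp (ε * q.1) - 1), q.2)

/-- its inverse -/
def ps (p₁ ε : ℂ) (q : ℂ × ℂ) : ℂ × ℂ := (ε * Complex.log (1 + q.1 / p₁), q.2)

theorem ph_an (p₁ ε : ℂ) (q : ℂ × ℂ) : AnalyticAt ℂ (ph p₁ ε) q := by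
  have h1 : AnalyticAt ℂ (fun q : ℂ × ℂ => ε * q.1) q := analyticAt_const.mul analyticAt_fst
  exact (analyticAt_const.mul (h1.cexp.sub analyticAt_const)).prod analyticAt_snd

theorem ps_an (p₁ ε : ℂ) : AnalyticAt ℂ (ps p₁ ε) 0 := by
  have h1 : AnalyticAt ℂ (fun q : ℂ × ℂ => 1 + q.1 / p₁) 0 := analyticAt_const.add (analyticAt_fst.div_const)
  have h2 : AnalyticAt ℂ (fun q : ℂ × ℂ => Complex.log (1 + q.1 / p₁)) 0 := h1.clog (by simp)
  exact (analyticAt_const.mul h2).prod analyticAt_snd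

theorem ph_zero (p₁ ε : ℂ) : ph p₁ ε 0 = 0 := by
  unfold ph
  simp

theorem ph_jac (p₁ ε : ℂ) (q : ℂ × ℂ) : jac (ph p₁ ε) q = p₁ * (ε * Complex.exp (ε * q.1)) := by
  have h1 : HasFDerivAt (fun q : ℂ × ℂ => p₁ * (Complex.exp (ε * q.1) - 1)) (p₁ • (Complex.exp (ε * q.1) • (ε • ContinuousLinearMap.fst ℂ ℂ ℂ))) q := by
    have h2 : HasFDerivAt (fun q : ℂ × ℂ => ε * q.1) (ε • ContinuousLinearMap.fst ℂ ℂ ℂ) q := hasFDerivAt_fst.const_mul ε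
    exact (h2.cexp.sub_const 1).const_mul p₁
  have h3 : HasFDerivAt (ph p₁ ε) ((p₁ • (Complex.exp (ε * q.1) • (ε • ContinuousLinearMap.fst ℂ ℂ ℂ))).prod (ContinuousLinearMap.snd ℂ ℂ ℂ)) q :=
    h1.prodMk hasFDerivAt_snd
  unfold jac
  rw [h3.fderiv]
  simp
  left
  ring

theorem ps_ph {p₁ ε : ℂ} (hp : p₁ ≠ 0) (hε : ε = 1 ∨ ε = -1) : ∀ᶠ q in 𝓝 (0 : ℂ × ℂ), ps p₁ ε (ph p₁ ε q) = q := by
  have h1 : ∀ᶠ q in 𝓝 (0 : ℂ × ℂ), |(ε * q.1).im| < Real.pi := by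
    have h2 : ContinuousAt (fun q : ℂ × ℂ => |(ε * q.1).im|) 0 := by fun_prop
    refine h2.eventually_lt_const ?_
    simp [Real.pi_pos]
  filter_upwards [h1] with q hq
  unfold ps ph
  rw [abs_lt] at hq
  have h2 : (1 : ℂ) + p₁ * (Complex.exp (ε * q.1) - 1) / p₁ = Complex.exp (ε * q.1) := by
    rw [mul_div_cancel_left₀ _ hp]
    ring
  simp only [h2]
  rw [Complex.log_exp hq.1 hq.2.le]
  have h3 : ε * (ε * q.1) = q.1 := by
    rcases hε with rfl | rfl <;> ring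
  rw [h3]

theorem ph_ps {p₁ ε : ℂ} (hp : p₁ ≠ 0) (hε : ε = 1 ∨ ε = -1) : ∀ᶠ q in 𝓝 (0 : ℂ × ℂ), ph p₁ ε (ps p₁ ε q) = q := by
  have h1 : ∀ᶠ q in 𝓝 (0 : ℂ × ℂ), 1 + q.1 / p₁ ≠ 0 := by
    have h2 : ContinuousAt (fun q : ℂ × ℂ => 1 + q.1 / p₁) 0 := by fun_prop
    exact h2.eventually_ne (by simp)
  filter_upwards [h1] with q hq
  unfold ps ph
  simp only
  have h3 : ε * (ε * Complex.log (1 + q.1 / p₁)) = Complex.log (1 + q.1 / p₁) := by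
    rcases hε with rfl | rfl <;> ring
  rw [h3, Complex.exp_log hq, add_sub_cancel_left, mul_div_cancel₀ _ hp]

/-- the residues near an end of the boundary curve -/
theorem end_res {K X D : Set (EN M)} {Λ : AddSubgroup ℂ} {u : EN M → ℂ} (hX : OCone X) (hu : TorusMap X Λ u) (hΛ : Dsc Λ)
    (hs : ∀ x ∈ D, ∀ c : ℂ, c ≠ 0 → c • x ∈ D) (hcl : ∀ x ∈ X, x ∉ D → ∀ᶠ y in 𝓝 x, y ∉ D) (hsub : D ⊆ X)
    {α : TForm (X \ D) Λ u} (hlog : LogP α) (hexp : ∀ w, w ∈ Λ ↔ Complex.exp w = 1) (hXK : X ⊆ K)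
    {σ : ℂ × ℂ → EN M} {τ : EN M → ℂ × ℂ} (hg : IsGermChart K σ τ) {ε : ℂ} (hε : ε = 1 ∨ ε = -1) {κ : ℂ}
    (hform : ∀ᶠ p in 𝓝 (0 : ℂ × ℂ), p.1 ≠ 0 → σ p ∈ X ∧ (σ p ∈ D ↔ p.2 = 0) ∧ Complex.exp (ε * u (σ p)) = κ * p.1)
    (hax : ∀ᶠ p in 𝓝 (0 : ℂ × ℂ), p.1 = 0 → σ p ∉ X) {C : ℝ}
    (hC : ∀ᶠ p in 𝓝 (0 : ℂ × ℂ), p.1 ≠ 0 → p.2 ≠ 0 → ∀ t : ℂ, u (σ p) - t ∈ Λ → ‖p.1 * p.2 * cf α σ t p‖ ≤ C) :
    ∀ᶠ y in 𝓝 (σ 0), y ∈ D → ∀ z ρ, u y - z ∈ Λ → RA α y z ρ → ‖ρ‖ ≤ C := by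
  have hτ0 : τ (σ 0) = 0 := hg.left.self_of_nhds
  have hτt : Tendsto τ (𝓝 (σ 0)) (𝓝 0) := by
    have := hg.τ_an.continuousAt.tendsto
    rwa [hτ0] at this
  filter_upwards [hg.right, hτt.eventually (germ_shift hg), hτt.eventually hform.eventually_nhds, hτt.eventually hax,
    hτt.eventually hC.eventually_nhds, hτt.eventually hg.σ_an.eventually_analyticAt.eventually_nhds] with y h1 h2 h3 h4 h5 h6 hyD z ρ hz hρ
  obtain ⟨c, hc, hyc⟩ := h1 (hXK (hsub hyD))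
  set p : ℂ × ℂ := τ y with hpdef
  have hpX : σ p ∈ X := by
    have h7 := hX.smul_mem _ (hsub hyD) c⁻¹ (inv_ne_zero hc)
    rwa [hyc, smul_smul, inv_mul_cancel₀ hc, one_smul] at h7
  have hp1 : p.1 ≠ 0 := fun h7 => h4 h7 hpX
  have hpD : σ p ∈ D := by
    have h7 := hs _ hyD c⁻¹ (inv_ne_zero hc)
    rwa [hyc, smul_smul, inv_mul_cancel₀ hc, one_smul] at h7
  obtain ⟨-, h8, h9⟩ := h3.self_of_nhds hp1
  have hp2 : p.2 = 0 := h8.1 hpD
  -- the new chart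
  set φ : ℂ × ℂ → ℂ × ℂ := ph p.1 ε with hφ
  have hφa : ∀ q, AnalyticAt ℂ φ q := ph_an p.1 ε
  have hφ0 : φ 0 = 0 := ph_zero p.1 ε
  have hφt : Tendsto (fun q => p + φ q) (𝓝 0) (𝓝 p) := by
    have h10 : ContinuousAt (fun q => p + φ q) 0 := continuousAt_const.add (hφa 0).continuousAt
    have h11 := h10.tendsto
    simp only [hφ0, add_zero] at h11
    exact h11
  have hφ1 : ∀ q, (p + φ q).1 = p.1 * Complex.exp (ε * q.1) := by
    intro q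
    show p.1 + p.1 * (Complex.exp (ε * q.1) - 1) = _
    ring
  have hφ2 : ∀ q, (p + φ q).2 = q.2 := by
    intro q
    show p.2 + q.2 = _
    rw [hp2, zero_add]
  have hφn : ∀ q, (p + φ q).1 ≠ 0 := by
    intro q
    rw [hφ1]
    exact mul_ne_zero hp1 (Complex.exp_ne_zero _)
  have hg' : IsGermChart K (fun q => σ (p + φ q)) (fun y => ps p.1 ε (τ y - p)) :=
    germ_comp h2 (hφa 0) (ps_an _ _) hφ0 (ps_ph hp1 hε) (ph_ps hp1 hε)
  have hmX : ∀ᶠ q in 𝓝 (0 : ℂ × ℂ), σ (p + φ q) ∈ X := by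
    filter_upwards [hφt.eventually h3] with q hq
    exact (hq (hφn q)).1
  have hgX := germ_open hXK hg' hmX
  have hD' : ∀ᶠ q in 𝓝 (0 : ℂ × ℂ), σ (p + φ q) ∈ D ↔ q.2 = 0 := by
    filter_upwards [hφt.eventually h3] with q hq
    rw [(hq (hφn q)).2.1, hφ2]
  have hup : u (σ p) - z ∈ Λ := by
    have h10 := hu.smul _ hpX c hc
    rw [← hyc] at h10
    have h11 := Λ.sub_mem hz h10
    have e : u y - z - (u y - u (σ p)) = u (σ p) - z := by ring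
    rwa [e] at h11
  have hlift : ∀ᶠ q in 𝓝 (0 : ℂ × ℂ), u (σ (p + φ q)) - (z + q.1) ∈ Λ := by
    filter_upwards [hφt.eventually h3] with q hq
    obtain ⟨-, -, h10⟩ := hq (hφn q)
    rw [hφ1, ← mul_assoc, ← h9, ← Complex.exp_add] at h10
    have h11 : Complex.exp (ε * (u (σ (p + φ q)) - u (σ p) - q.1)) = 1 := by
      have e : ε * (u (σ (p + φ q)) - u (σ p) - q.1) = ε * u (σ (p + φ q)) - (ε * u (σ p) + ε * q.1) := by ring
      rw [e, Complex.exp_sub, h10, div_self (Complex.exp_ne_zero _)]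
    have h12 : u (σ (p + φ q)) - u (σ p) - q.1 ∈ Λ := by
      rcases hε with rfl | rfl
      · rw [one_mul] at h11
        exact (hexp _).2 h11
      · have h13 := (hexp _).2 h11
        have h14 := Λ.neg_mem h13
        have e : -(-1 * (u (σ (p + φ q)) - u (σ p) - q.1)) = u (σ (p + φ q)) - u (σ p) - q.1 := by ring
        rwa [e] at h14
    have h13 := Λ.add_mem h12 hup
    have e : u (σ (p + φ q)) - u (σ p) - q.1 + (u (σ p) - z) = u (σ (p + φ q)) - (z + q.1) := by ring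
    rwa [e] at h13
  obtain ⟨g, hga, hge⟩ := hlog _ _ (fun q => z + q.1) hgX hD' (analyticAt_const.add analyticAt_fst) hlift
  have hbd : ∀ᶠ q in 𝓝 (0 : ℂ × ℂ), q.2 ≠ 0 → ‖g q‖ ≤ C := by
    filter_upwards [hge, hlift, hφt.eventually h5, hφt.eventually h6, hφt.eventually h3.eventually_nhds] with q h10 h11 h12 h13 h14 hq2
    have h15 : ∀ᶠ q' in 𝓝 q, (p + φ q').2 ≠ 0 := by
      have h16 : ContinuousAt (fun q' : ℂ × ℂ => (p + φ q').2) q := (continuousAt_const.add (hφa q).continuousAt).snd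
      exact h16.eventually_ne (by rw [hφ2]; exact hq2)
    have hVe : ∀ᶠ y in 𝓝 (p + φ q), σ y ∈ X \ D := by
      have h16 : ∀ᶠ y in 𝓝 (p + φ q), y.2 ≠ 0 := continuousAt_snd.eventually_ne (by rw [hφ2]; exact hq2)
      have h17 : ∀ᶠ y in 𝓝 (p + φ q), y.1 ≠ 0 := continuousAt_fst.eventually_ne (hφn q)
      filter_upwards [h14, h16, h17] with y hy1 hy2 hy3
      obtain ⟨h18, h19, -⟩ := hy1 hy3
      exact ⟨h18, fun h20 => hy2 (h19.1 h20)⟩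
    have hσq : AnalyticAt ℂ σ (p + φ q) := h13
    have hψa : AnalyticAt ℂ (fun q' => p + φ q') q := analyticAt_const.add (hφa q)
    have h16 := cf_change (α := α) (t := z + q.1) (V := X \ D) (fun h => hX.zero_notMem h.1)
      (fun x hx c hc => ⟨hX.smul_mem _ hx.1 c hc, fun h => hx.2 (by
        have h17 := hs _ h c⁻¹ (inv_ne_zero hc)
        rwa [smul_smul, inv_mul_cancel₀ hc, one_smul] at h17)⟩) (φ := fun q => σ (p + φ q)) (ψ := σ) (τ := fun q' => p + φ q') (p := q)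
      (AnalyticAt.comp (g := σ) (f := fun q' => p + φ q') hσq hψa) hσq hψa hVe h11
      (Eventually.of_forall fun y => ⟨1, one_ne_zero, (one_smul _ _).symm⟩)
    have h17 : jac (fun q' => p + φ q') q = p.1 * (ε * Complex.exp (ε * q.1)) := by
      have h18 : fderiv ℂ (fun q' => p + φ q') q = fderiv ℂ φ q := by rw [fderiv_const_add]
      have h19 := ph_jac p.1 ε q
      unfold jac at h19 ⊢
      rw [h18]
      exact h19
    have h18 := h12 (hφn q) (by rw [hφ2]; exact hq2) _ h11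
    rw [← h10 hq2]
    show ‖q.2 * cf α (fun q => σ (p + φ q)) (z + q.1) q‖ ≤ C
    rw [h16, h17]
    calc ‖q.2 * (cf α σ (z + q.1) (p + φ q) * (p.1 * (ε * Complex.exp (ε * q.1))))‖
        = ‖ε‖ * ‖(p + φ q).1 * (p + φ q).2 * cf α σ (z + q.1) (p + φ q)‖ := by
          rw [hφ1, hφ2, ← norm_mul]
          congr 1
          ring
      _ ≤ 1 * C := by
          have h19 : ‖ε‖ = 1 := by rcases hε with rfl | rfl <;> simp
          rw [h19]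
          gcongr
      _ = C := one_mul C
  have hg0 : ‖g 0‖ ≤ C := by
    have hct : Tendsto (fun t : ℂ => ((0, t) : ℂ × ℂ)) (𝓝 0) (𝓝 0) := by
      have h1 : Continuous fun t : ℂ => ((0, t) : ℂ × ℂ) := by fun_prop
      exact h1.tendsto' 0 0 rfl
    have h10 : Tendsto (fun t : ℂ => ‖g (0, t)‖) (𝓝[≠] 0) (𝓝 ‖g 0‖) := ((hga.continuousAt.tendsto.comp hct).norm).mono_left nhdsWithin_le_nhds
    refine le_of_tendsto h10 ?_
    filter_upwards [nhdsWithin_le_nhds (hct.eventually hbd), self_mem_nhdsWithin] with t ht1 ht2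
    exact ht1 ht2
  have hRA : RA α (σ p) z (g 0) := by
    refine ⟨_, _, g, hgX, ?_, hD', hlift, hga, hge, rfl⟩
    show σ (p + φ 0) = σ p
    rw [hφ0, add_zero]
  have hRA' := hRA.smul hX hu hs hcl hc
  rw [← hyc] at hRA'
  rw [RA.unique hX hu hΛ hs hcl hρ hRA']
  exact hg0

end Pool.Agent.H6.LU
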