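import Pool.Agent.H6.LU.Rb
import Pool.Agent.H6.LU.Bad

/-!
# LU Re: the residues along entire sections in the boundary curve are bounded
-/

set_option autoImplicit false

open Topology Filter Metric

noncomputable section

namespace Pool.Agent.H6.LU

open Pool.Agent.H17 (PN HolomorphicInto)
open Pool.Agent.H36.BP (EN coneOf coneOf_smul ne_zero_of_ofLp ofLp_ne_zero IsGermChart)
open Pool.Agent.H4.LU (Mem val IsParam IsInner IsHorChart IsEndChart IsEnd IsRegularEnd IsModel Over IsTangent IsLogForm VanishesOver IsNowhereZero)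
open Pool.Agent.H18.LU (OCone Dsc Nb part HorAt LFib LBase LogP ResBd)
open Pool.Agent.H62.EF (TorusMap Charts pr MN sec_uniq pr_smul pr_eq_iff isCompact_pr)
open Pool.Agent.H62.EL (BadSet IsNC TForm Per VanZero Thin tc)
open Pool.Agent.H14.PP (Tan CurveAt Chart jac IsCone)
open Pool.Agent.H86.LU (RA germ_shift isolated_pts hor_all sec_chart sec_near res_fun sec_shift)
open Pool.Agent.EG.LE (cf cf_change)

variable {M : ℕ} {Y V : Set (PN M)} {e : PN M → ℂ} {m : ℕ} {Ω : ℂ → (Fin (M + 1) → ℂ) → (Fin (M + 1) → ℂ) → (Fin (M + 1) → ℂ) → ℂ}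

theorem isCone_Y (h : IsModel Y V e) : IsCone (coneOf Y) where
  zero_notMem := zero_notMem_coneOf Y
  smul_mem := fun x hx c hc => coneOf_smul hx hc
  closed := by
    refine isClosed_of_closure_subset fun x hx => ?_
    by_cases hx0 : x = 0
    · exact Or.inl hx0
    · right
      refine closed_coneOf h x ?_ hx0
      rw [Set.insert_eq, closure_union, closure_singleton] at hx
      exact hx.resolve_left hx0

/-- `e'` is `e` or `1 / e` -/
def EE (e e' : PN M → ℂ) (ε : ℂ) : Prop := (ε = 1 ∧ e' = e) ∨ (ε = -1 ∧ e' = fun y => (e y)⁻¹)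

theorem EE.eps {e e' : PN M → ℂ} {ε : ℂ} (h : EE e e' ε) : ε = 1 ∨ ε = -1 := by
  rcases h with ⟨h, -⟩ | ⟨h, -⟩
  · exact Or.inl h
  · exact Or.inr h

/-- limits of `e'` -/
theorem EE.lim {e e' : PN M → ℂ} {ε : ℂ} (he : EE e e' ε) {x : EN M} (hx : x ∈ XX Y V e) :
    ∃ w : ℂ, w ≠ 0 ∧ Tendsto (ev e') (𝓝[coneOf V] x) (𝓝 w) := by
  obtain ⟨hxY, w, hw, hlim⟩ := hx
  rcases he with ⟨-, rfl⟩ | ⟨-, rfl⟩
  · exact ⟨w, hw, hlim⟩
  · exact ⟨w⁻¹, inv_ne_zero hw, tendsto_inv hw hlim⟩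

theorem EE.mem {e e' : PN M → ℂ} {ε : ℂ} (h : IsModel Y V e) (he : EE e e' ε) {x : EN M} (hx : x ∈ coneOf Y) {w : ℂ} (hw : w ≠ 0)
    (hlim : Tendsto (ev e') (𝓝[coneOf V] x) (𝓝 w)) (a : ℂ) : x ∈ XX Y V e ∧ Complex.exp (ε * uu V e a x) = Complex.exp (-(ε * a)) * w := by
  rcases he with ⟨rfl, rfl⟩ | ⟨rfl, rfl⟩
  · refine ⟨⟨hx, w, hw, hlim⟩, ?_⟩
    rw [one_mul, one_mul, exp_uu h hx hw hlim, mul_comm]
  · have h1 := tendsto_of_inv hw hlim
    refine ⟨⟨hx, _, inv_ne_zero hw, h1⟩, ?_⟩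
    rw [neg_one_mul, neg_one_mul, neg_neg, Complex.exp_neg, exp_uu h hx (inv_ne_zero hw) h1, mul_inv, inv_inv, ← Complex.exp_neg, neg_neg, mul_comm]

/-- the points over `0` or `∞` come from the charts of the model -/
theorem exists_endchart (h : IsModel Y V e) {e' : PN M → ℂ} {ε : ℂ} (he : EE e e' ε) {x : EN M} (hx : x ∈ DD Y V e') :
    ∃ (k : ℕ) (nd hor : Bool) (σ₀ : ℂ × ℂ → Fin (M + 1) → ℂ) (τ₀ : (Fin (M + 1) → ℂ) → ℂ × ℂ) (y : PN M) (c : ℂ),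
      IsEndChart Y V e' k nd hor σ₀ τ₀ y ∧ c ≠ 0 ∧ c • lp M (σ₀ 0) = x := by
  obtain ⟨hxY, hlim⟩ := id hx
  have hX : x ∉ XX Y V e := by
    intro hX
    obtain ⟨w, hw, hlim'⟩ := he.lim hX
    have := neBot_V h hxY
    exact hw (tendsto_nhds_unique hlim' hlim)
  obtain ⟨hx0, hxY'⟩ := id hxY
  rcases h.point _ hxY' with h1 | ⟨σ, τ, h1⟩ | ⟨k, nd, hor, σ, τ, h1⟩ | ⟨k, nd, hor, σ, τ, h1⟩
  · exfalso
    obtain ⟨σ, τ, c, i, j, h2⟩ := mch_of_inner h1 (x := x) ⟨hx0, rfl⟩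
    exact hX (h2.mem_XX h)
  · exfalso
    obtain ⟨c, hc, hcx⟩ := exists_scale h1.1 (x := x) ⟨hx0, rfl⟩
    obtain ⟨c', i, h2⟩ := mch_of_hor h1 hc hcx
    exact hX (h2.mem_XX h)
  · obtain ⟨c, hc, hcx⟩ := exists_scale h1.1 (x := x) ⟨hx0, rfl⟩
    have h2 := ech_of_end h1 hc hcx
    rcases he with ⟨-, rfl⟩ | ⟨-, rfl⟩
    · exact ⟨k, nd, hor, σ, τ, _, c, h1, hc, hcx⟩
    · exfalso
      exact tendsto_inv_unique h hxY (h2.tendsto h.sub) hlim
  · obtain ⟨c, hc, hcx⟩ := exists_scale h1.1 (x := x) ⟨hx0, rfl⟩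
    have h2 := ech_of_end h1 hc hcx
    rcases he with ⟨-, rfl⟩ | ⟨-, rfl⟩
    · exfalso
      exact tendsto_inv_unique h hxY hlim (h2.tendsto h.sub)
    · exact ⟨k, nd, hor, σ, τ, _, c, h1, hc, hcx⟩

/-- the bound of the form in an end chart -/
theorem end_bound (h : IsModel Y V e) (hΩ : IsLogForm Y V e m Ω) (a : ℂ) {K : Set (EN M)} (hK : K = coneOf V) {e' : PN M → ℂ} {ε : ℂ} (he : EE e e' ε)
    {k : ℕ} {nd hor : Bool} {σ₀ : ℂ × ℂ → Fin (M + 1) → ℂ} {τ₀ : (Fin (M + 1) → ℂ) → ℂ × ℂ} {y : PN M} (hch : IsEndChart Y V e' k nd hor σ₀ τ₀ y)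
    {c : ℂ} (hc : c ≠ 0) : ∃ C : ℝ, 0 ≤ C ∧ ∀ᶠ p in 𝓝 (0 : ℂ × ℂ), c • lp M (σ₀ p) ∈ coneOf V → ∀ t : ℂ, uu V e a (c • lp M (σ₀ p)) - t ∈ Lam →
      ‖(if nd = true ∨ hor = true then p.1 * p.2 else p.1) * cf (tf h hΩ a hK) (fun p => c • lp M (σ₀ p)) t p‖ ≤ C := by
  obtain ⟨C, hC⟩ : ∃ C : ℝ, ∀ᶠ p in 𝓝 (0 : ℂ × ℂ), ∀ z, Over V e z (σ₀ p) →
      ‖(if nd = true ∨ hor = true then p.1 * p.2 else p.1) * Ω z (σ₀ p) (fderiv ℂ σ₀ p (1, 0)) (fderiv ℂ σ₀ p (0, 1))‖ ≤ C := by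
    rcases he with ⟨-, rfl⟩ | ⟨-, rfl⟩
    · exact hΩ.zero k nd hor σ₀ τ₀ y hch
    · exact hΩ.infty k nd hor σ₀ τ₀ y hch
  obtain ⟨hp, -, -, hf⟩ := hch
  refine ⟨max C 0, le_max_right _ _, ?_⟩
  filter_upwards [hC, hf.eventually_nhds, hp.analytic.eventually_analyticAt] with p h1 h2 h3 hV t ht
  have hV0 : Mem V (σ₀ p) := (coneOf_smul_iff hc).1 hV
  have hp0 := h2.self_of_nhds.1.1 hV0
  have hVe : ∀ᶠ q in 𝓝 p, Mem V (σ₀ q) := by
    have h4 : ∀ᶠ q : ℂ × ℂ in 𝓝 p, q.1 ≠ 0 := continuousAt_fst.eventually_ne hp0.1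
    by_cases hb : nd = true ∨ hor = true
    · have h5 : ∀ᶠ q : ℂ × ℂ in 𝓝 p, q.2 ≠ 0 := continuousAt_snd.eventually_ne (hp0.2 hb)
      filter_upwards [h2, h4, h5] with q hq1 hq2 hq3
      exact hq1.1.2 ⟨hq2, fun _ => hq3⟩
    · filter_upwards [h2, h4] with q hq1 hq2
      exact hq1.1.2 ⟨hq2, fun h6 => absurd h6 hb⟩
  have hov : Over V e (t + a) (σ₀ p) := by
    obtain ⟨h6, h7⟩ := (over_iff h hV a t).1 ht
    refine ⟨hV0, ?_⟩
    have h8 : ev e (c • lp M (σ₀ p)) = Complex.exp (t + a) := h7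
    rw [ev_smul _ _ hc] at h8
    exact h8
  rw [cf_eq h hΩ a hK h3 hVe hc hov]
  exact (h1 _ hov).trans (le_max_left _ _)

/-- at the end charts where the boundary curve does not pass there are no points of the boundary curve over `ℂ^*` -/
theorem no_DH (h : IsModel Y V e) {e' : PN M → ℂ} {ε : ℂ} (he : EE e e' ε) {k : ℕ} {nd hor : Bool} {σ : ℂ × ℂ → EN M} {τ : EN M → ℂ × ℂ} {x : EN M}
    (hx : ECh Y V e' k nd hor σ τ x) (hb : nd = true ∨ hor = false) : ∀ᶠ y in 𝓝 x, y ∉ DH Y V e := by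
  filter_upwards [hx.loc hx.limit univ_mem] with y hy hyD
  obtain ⟨a, p, ha, -, hpW, hyp, -, hV, -⟩ := hy hyD.1.1
  obtain ⟨w, hw, hlim⟩ := he.lim hyD.1
  have h1 : Tendsto (ev e') (𝓝[coneOf V] (σ p)) (𝓝 w) := by
    have h2 := tendsto_ev_smul (inv_ne_zero ha) hlim
    rwa [hyp, smul_smul, inv_mul_cancel₀ ha, one_smul] at h2
  have h3 : w = if nd = true then p.1 * p.2 else p.1 := hpW w h1
  apply hyD.2
  rw [hV]
  rcases hb with rfl | rfl
  · rw [if_pos rfl] at h3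
    rw [h3] at hw
    exact ⟨left_ne_zero_of_mul hw, fun _ => right_ne_zero_of_mul hw⟩
  · cases nd with
    | true =>
      rw [if_pos rfl] at h3
      rw [h3] at hw
      exact ⟨left_ne_zero_of_mul hw, fun _ => right_ne_zero_of_mul hw⟩
    | false =>
      have h4 : w = p.1 := by simpa using h3
      rw [h4] at hw
      exact ⟨hw, fun h5 => by simp at h5⟩

theorem DH_sub : DH Y V e ⊆ XX Y V e := fun _ hx => hx.1

theorem DH_smul : ∀ x ∈ DH Y V e, ∀ c : ℂ, c ≠ 0 → c • x ∈ DH Y V e := fun x hx c hc =>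
  ⟨(ocone_XX Y V e).smul_mem _ hx.1 c hc, fun h => hx.2 ((coneOf_smul_iff hc).1 h)⟩

theorem DH_closed (h : IsModel Y V e) : ∀ x ∈ XX Y V e, x ∉ DH Y V e → ∀ᶠ y in 𝓝 x, y ∉ DH Y V e := by
  intro x hx hxD
  have hxV : x ∈ coneOf V := by
    by_contra h1
    exact hxD ⟨hx, h1⟩
  filter_upwards [V_open h hxV] with y hy hyD
  exact hyD.2 (hy hyD.1.1)

/-- local bounds of the residues -/
theorem local_res (h : IsModel Y V e) (hΩ : IsLogForm Y V e m Ω) (a : ℂ) {x : EN M} (hx : x ∈ coneOf Y) :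
    ∃ C R : ℝ, ∀ᶠ y in 𝓝 x, y ∈ DH Y V e → ∀ z ρ, uu V e a y - z ∈ Lam → R ≤ |z.re| → RA (tf h hΩ a (XX_diff h)) y z ρ → ‖ρ‖ ≤ C := by
  have hend : ∀ (e' : PN M → ℂ) (ε : ℂ), EE e e' ε → x ∈ DD Y V e' → ∃ C R : ℝ, ∀ᶠ y in 𝓝 x, y ∈ DH Y V e → ∀ z ρ, uu V e a y - z ∈ Lam → R ≤ |z.re| →
      RA (tf h hΩ a (XX_diff h)) y z ρ → ‖ρ‖ ≤ C := by
    intro e' ε he hx'
    obtain ⟨k, nd, hor, σ₀, τ₀, y₀, c, hch, hc, hcx⟩ := exists_endchart h he hx'
    have hE := ech_of_end hch hc hcx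
    by_cases hb : nd = true ∨ hor = false
    · refine ⟨0, 0, ?_⟩
      filter_upwards [no_DH h he hE hb] with y hy hyD
      exact absurd hyD hy
    · push Not at hb
      obtain ⟨hnd, hho⟩ := hb
      have hnd' : nd = false := by simpa using hnd
      have hho' : hor = true := by simpa using hho
      subst hnd' hho'
      have hk : k = 1 := hE.nd_k rfl
      subst hk
      obtain ⟨C, hC0, hC⟩ := end_bound h hΩ a (XX_diff h) he hch hc
      refine ⟨C, 0, ?_⟩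
      have hgerm := hE.gp.germ
      have hlimE := tendsto_chart (e := e') (V := V) h.sub hE.gp (E := fun p => p.1) (Eventually.of_forall fun p => continuousAt_fst) (by
        filter_upwards [hE.form] with p hp hpV
        have := hp.2 hpV
        simpa using this)
      have hform : ∀ᶠ p in 𝓝 (0 : ℂ × ℂ), p.1 ≠ 0 → c • lp M (σ₀ p) ∈ XX Y V e ∧ (c • lp M (σ₀ p) ∈ DH Y V e ↔ p.2 = 0) ∧
          Complex.exp (ε * uu V e a (c • lp M (σ₀ p))) = Complex.exp (-(ε * a)) * p.1 := by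
        filter_upwards [hlimE, hE.form, hE.gp.mem] with p h1 h2 h3 hp
        obtain ⟨h4, h5⟩ := he.mem h h3 hp h1 a
        refine ⟨h4, ?_, h5⟩
        constructor
        · rintro ⟨-, h6⟩
          by_contra h7
          exact h6 (h2.1.2 ⟨hp, fun _ => h7⟩)
        · intro h6
          exact ⟨h4, fun h7 => (h2.1.1 h7).2 (Or.inr rfl) h6⟩
      have hax : ∀ᶠ p in 𝓝 (0 : ℂ × ℂ), p.1 = 0 → c • lp M (σ₀ p) ∉ XX Y V e := by
        filter_upwards [hlimE, hE.gp.mem] with p h1 h2 h3 h4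
        obtain ⟨w, hw, hlim⟩ := he.lim h4
        have := neBot_V h h2
        have h5 : w = p.1 := tendsto_nhds_unique hlim h1
        exact hw (h5.trans h3)
      have hb' : ∀ᶠ p in 𝓝 (0 : ℂ × ℂ), p.1 ≠ 0 → p.2 ≠ 0 → ∀ t : ℂ, uu V e a (c • lp M (σ₀ p)) - t ∈ Lam →
          ‖p.1 * p.2 * cf (tf h hΩ a (XX_diff h)) (fun p => c • lp M (σ₀ p)) t p‖ ≤ C := by
        filter_upwards [hC, hE.form] with p h1 h2 hp1 hp2 t ht
        have h3 : c • lp M (σ₀ p) ∈ coneOf V := h2.1.2 ⟨hp1, fun _ => hp2⟩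
        have h4 := h1 h3 t ht
        simpa using h4
      have key := end_res (K := coneOf Y) (ocone_XX Y V e) (torus_XX h a) dsc_Lam DH_smul (DH_closed h) DH_sub (logP_tf h hΩ a)
        (fun w => mem_Lam) (fun x hx => hx.1) hgerm he.eps hform hax hb'
      have hc0 : c • lp M (σ₀ 0) = x := hcx
      rw [hc0] at key
      filter_upwards [key] with y hy hyD z ρ hz _ hρ
      exact hy hyD z ρ hz hρ
  rcases cover h hx with hX | hD | hD
  · obtain ⟨hor, σ, τ, c, i, j, h1⟩ := exists_mch h hX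
    refine ⟨0, |(c - a).re| + 2, ?_⟩
    have h2 : ∀ᶠ y in 𝓝 x, ‖(τ y).1 ^ i * (τ y).2 ^ j‖ < 1 := by
      have h3 : ContinuousAt (fun y => ‖(τ y).1 ^ i * (τ y).2 ^ j‖) x := by
        have h4 := h1.gp.τ_an.continuousAt
        exact ((h4.fst.pow i).mul (h4.snd.pow j)).norm
      refine h3.eventually_lt_const ?_
      have h5 : τ x = 0 := h1.gp.tau_zero le_rfl
      have h6 : (τ x).1 ^ i = 0 := by
        rw [h5, Prod.fst_zero, zero_pow]
        exact Nat.one_le_iff_ne_zero.1 h1.i_pos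
      show ‖(τ x).1 ^ i * (τ x).2 ^ j‖ < 1
      rw [h6, zero_mul, norm_zero]
      exact one_pos
    filter_upwards [h1.uu_sub h a, h2] with y h3 h4 hyD z ρ hz hR
    exfalso
    have h5 := (h3 hyD.1.1).2
    have h6 := Lam.sub_mem h5 hz
    have h7 := Lam_re h6
    have h8 : z.re = (c - a).re + ((τ y).1 ^ i * (τ y).2 ^ j).re := by
      have e : uu V e a y - (c - a + (τ y).1 ^ i * (τ y).2 ^ j) - (uu V e a y - z) = z - (c - a) - (τ y).1 ^ i * (τ y).2 ^ j := by ring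
      rw [e, Complex.sub_re, Complex.sub_re] at h7
      linarith
    have h9 : |((τ y).1 ^ i * (τ y).2 ^ j).re| ≤ 1 := (Complex.abs_re_le_norm _).trans h4.le
    have h10 : |z.re| ≤ |(c - a).re| + 1 := by
      rw [h8]
      exact (abs_add_le _ _).trans (by linarith)
    linarith
  · exact hend e 1 (Or.inl ⟨rfl, rfl⟩) hD
  · exact hend _ (-1) (Or.inr ⟨rfl, rfl⟩) hD

/-- the residues far from the middle part -/
theorem ends_res (h : IsModel Y V e) (hΩ : IsLogForm Y V e m Ω) (a : ℂ) :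
    ∃ C R : ℝ, ∀ y ∈ DH Y V e, ∀ z ρ, uu V e a y - z ∈ Lam → R ≤ |z.re| → RA (tf h hΩ a (XX_diff h)) y z ρ → ‖ρ‖ ≤ C := by
  have h1 : ∃ C R : ℝ, ∀ y ∈ {x : EN M | x ∈ coneOf Y ∧ ‖x‖ = 1}, y ∈ DH Y V e → ∀ z ρ, uu V e a y - z ∈ Lam → R ≤ |z.re| →
      RA (tf h hΩ a (XX_diff h)) y z ρ → ‖ρ‖ ≤ C := by
    refine (isCompact_unit h).induction_on (p := fun S => ∃ C R : ℝ, ∀ y ∈ S, y ∈ DH Y V e → ∀ z ρ, uu V e a y - z ∈ Lam → R ≤ |z.re| →
      RA (tf h hΩ a (XX_diff h)) y z ρ → ‖ρ‖ ≤ C) ⟨0, 0, fun y hy => absurd hy (Set.notMem_empty y)⟩ ?_ ?_ ?_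
    · rintro S T hST ⟨C, R, hC⟩
      exact ⟨C, R, fun y hy => hC y (hST hy)⟩
    · rintro S T ⟨C, R, hC⟩ ⟨C', R', hC'⟩
      refine ⟨max C C', max R R', fun y hy hyD z ρ hz hR hρ => ?_⟩
      rcases hy with hy | hy
      · exact (hC y hy hyD z ρ hz ((le_max_left _ _).trans hR) hρ).trans (le_max_left _ _)
      · exact (hC' y hy hyD z ρ hz ((le_max_right _ _).trans hR) hρ).trans (le_max_right _ _)
    · rintro x ⟨hx, -⟩
      obtain ⟨C, R, hC⟩ := local_res h hΩ a hx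
      exact ⟨_, mem_nhdsWithin_of_mem_nhds hC, C, R, fun y hy => hy⟩
  obtain ⟨C, R, hC⟩ := h1
  refine ⟨C, R, fun y hy z ρ hz hR hρ => ?_⟩
  have hy0 : y ≠ 0 := coneOf_ne hy.1.1
  have hc : ((‖y‖⁻¹ : ℝ) : ℂ) ≠ 0 := by
    exact_mod_cast inv_ne_zero (norm_ne_zero_iff.2 hy0)
  refine hC (((‖y‖⁻¹ : ℝ) : ℂ) • y) ⟨coneOf_smul hy.1.1 hc, ?_⟩ (DH_smul _ hy _ hc) z ρ ?_ hR
    (hρ.smul (ocone_XX Y V e) (torus_XX h a) DH_smul (DH_closed h) hc)
  · rw [norm_smul, Complex.norm_real, norm_inv, norm_norm, inv_mul_cancel₀ (norm_ne_zero_iff.2 hy0)]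
  · have h2 := Lam.add_mem ((torus_XX h a).smul _ hy.1 _ hc) hz
    rwa [sub_add_sub_cancel] at h2

/-- **Residues are bounded.** -/
theorem resBd_tf (h : IsModel Y V e) (hm : 1 ≤ m) (hΩ : IsLogForm Y V e m Ω) {B₁ : Set ℂ} {a : ℂ} {δ : ℝ}
    (E : LBase (XX Y V e) (DH Y V e) Lam (Gam m) (uu V e a) (BB B₁ a) δ) : ResBd (tf h hΩ a (XX_diff h)) := by
  set α := tf h hΩ a (XX_diff h) with hα
  have hX := E.cone
  have hΛ := E.dsc
  have hh := hor_all E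
  have hlog : LogP α := logP_tf h hΩ a
  have hper : Per α (Gam m) := per_tf h hm hΩ a (XX_diff h)
  intro F hF hFD hFu
  obtain ⟨ρ, hρ, hRA⟩ := res_fun hX E.tor hΛ E.D_sub E.D_smul E.D_closed hh hlog hF hFD hFu
  have hne : ∀ x ∈ DH Y V e, x ≠ 0 := fun x hx => coneOf_ne hx.1.1
  have hP1 : ∀ l ∈ Gam m, (∀ z, pr (F (z + l)) = pr (F z)) → ∀ z, ρ (z + l) = ρ z := by
    intro l hl h1 z
    obtain ⟨c, hc, h2⟩ := (pr_eq_iff (hne _ (hFD _)) (hne _ (hFD _))).1 (h1 z)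
    have h3 := ((hRA z).per hX E.D_smul E.D_closed hper E.le hl).smul hX E.tor E.D_smul E.D_closed hc
    rw [← h2] at h3
    exact RA.unique hX E.tor hΛ E.D_smul E.D_closed (hRA (z + l)) h3
  -- finitely many points over `Λ`
  have hcone : IsCone (part (XX Y V e) Lam (uu V e a) 0) := by
    refine ⟨fun h0 => hX.zero_notMem h0.1, fun x hx c hc => ⟨hX.smul_mem _ hx.1 c hc, ?_⟩, E.closed 0⟩
    obtain ⟨l, hl, hl1⟩ := hx.2
    refine ⟨l + (uu V e a (c • x) - uu V e a x), Lam.add_mem hl (E.tor.smul _ hx.1 c hc), ?_⟩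
    have e1 : uu V e a (c • x) - (l + (uu V e a (c • x) - uu V e a x)) = uu V e a x - l := by ring
    rw [e1]
    exact hl1
  have hfin0 : {y : MN M | ∃ x ∈ DH Y V e, uu V e a x ∈ Lam ∧ pr x = y}.Finite := by
    set S : Set (MN M) := {y : MN M | ∃ x ∈ DH Y V e, uu V e a x ∈ Lam ∧ pr x = y} with hS
    have h1 : (S ∩ pr '' (part (XX Y V e) Lam (uu V e a) 0)).Finite := by
      refine (isCompact_pr hcone).induction_on (p := fun t => (S ∩ t).Finite) (by simp) ?_ ?_ ?_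
      · intro s t hst ht
        exact ht.subset (Set.inter_subset_inter_right S hst)
      · intro s t h2 h3
        rw [Set.inter_union_distrib_left]
        exact h2.union h3
      · rintro _ ⟨x₀, hx₀, rfl⟩
        obtain ⟨ε, hε, h2⟩ := isolated_pts E.tor hΛ E.D_sub hX.zero_notMem E.D_smul E.D_closed hh hx₀.1
        refine ⟨ball (pr x₀) ε, nhdsWithin_le_nhds (ball_mem_nhds _ hε), ?_⟩
        refine (Set.finite_singleton (pr x₀)).subset ?_
        rintro y ⟨⟨x, hx, hux, rfl⟩, hy⟩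
        exact h2 x hx hux hy
    refine h1.subset ?_
    rintro y ⟨x, hx, hux, rfl⟩
    exact ⟨⟨x, hx, hux, rfl⟩, x, ⟨E.D_sub hx, _, hux, by rw [sub_self, norm_zero]⟩, rfl⟩
  -- a period
  obtain ⟨l₀, hl₀, hl₀0, hl₀p⟩ : ∃ l₀ ∈ Gam m, l₀ ≠ 0 ∧ ∀ z, pr (F (z + l₀)) = pr (F z) := by
    set g : ℤ → ℂ := fun n => n * (2 * Real.pi * Complex.I * m) with hgdef
    have hgΓ : ∀ n, g n ∈ Gam m := fun n => (mem_Gam_iff hm).2 ⟨n, rfl⟩
    have hgne : (2 * Real.pi * Complex.I * m : ℂ) ≠ 0 := by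
      have h1 : (m : ℂ) ≠ 0 := by exact_mod_cast Nat.one_le_iff_ne_zero.1 hm
      exact mul_ne_zero Complex.two_pi_I_ne_zero h1
    have hginj : Function.Injective g := by
      intro n n' hnn
      have h1 := mul_right_cancel₀ hgne hnn
      exact_mod_cast h1
    have hmaps : ∀ n : ℤ, pr (F (g n)) ∈ {y : MN M | ∃ x ∈ DH Y V e, uu V e a x ∈ Lam ∧ pr x = y} := by
      intro n
      refine ⟨F (g n), hFD _, ?_, rfl⟩
      have h1 := Lam.add_mem (hFu (g n)) (E.le (hgΓ n))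
      rwa [sub_add_cancel] at h1
    obtain ⟨n, -, n', -, hnn, heq⟩ := Set.infinite_univ.exists_ne_map_eq_of_mapsTo (f := fun n : ℤ => pr (F (g n)))
      (s := Set.univ) (fun n _ => hmaps n) hfin0
    refine ⟨g n - g n', (Gam m).sub_mem (hgΓ n) (hgΓ n'), sub_ne_zero.2 fun h1 => hnn (hginj h1), ?_⟩
    -- the two translates agree
    have e1 : ∀ {b : ℂ}, b ∈ Gam m → Differentiable ℂ (fun z => F (z + b)) ∧ (∀ z, F (z + b) ∈ DH Y V e) ∧ ∀ z, uu V e a (F (z + b)) - z ∈ Lam := by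
      intro b hb
      have := sec_shift hF hFD hFu (E.le ((Gam m).neg_mem hb))
      simpa only [sub_neg_eq_add] using this
    obtain ⟨a1, a2, a3⟩ := e1 (hgΓ n)
    obtain ⟨b1, b2, b3⟩ := e1 (hgΓ n')
    have h0 : pr (F (0 + g n)) = pr (F (0 + g n')) := by
      rw [zero_add, zero_add]
      exact heq
    obtain ⟨c₀, hc₀, h1⟩ := (pr_eq_iff (hne _ (a2 0)) (hne _ (b2 0))).1 h0
    obtain ⟨σ, τ, r, B, h2, -⟩ := sec_chart E.tor hΛ E.D_sub E.D_smul hh b1 b2 b3 0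
    have h3 := sec_near E.tor hΛ E.D_sub E.D_smul b1 b2 b3 B h2
    have h4 := sec_near E.tor hΛ E.D_sub E.D_smul (F := fun z => c₀⁻¹ • F (z + g n)) (a1.const_smul c₀⁻¹)
      (fun z => E.D_smul _ (a2 z) _ (inv_ne_zero hc₀)) (fun z => by
      have h5 := Lam.add_mem (E.tor.smul _ (E.D_sub (a2 z)) c₀⁻¹ (inv_ne_zero hc₀)) (a3 z)
      have e : uu V e a (c₀⁻¹ • F (z + g n)) - uu V e a (F (z + g n)) + (uu V e a (F (z + g n)) - z) = uu V e a (c₀⁻¹ • F (z + g n)) - z := by ring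
      rwa [e] at h5) B (by rw [h2, h1, smul_smul, inv_mul_cancel₀ hc₀, one_smul])
    have h5 : ∀ w, pr (F (w + g n)) = pr (F (w + g n')) := by
      intro w
      refine sec_uniq (isCone_Y h) (Λ := ⊤) (u := uu V e a) (z₀ := 0) (F := fun z => F (z + g n)) (G := fun z => F (z + g n'))
        ⟨a1, fun z => (a2 z).1.1, fun z => AddSubgroup.mem_top _⟩ ⟨b1, fun z => (b2 z).1.1, fun z => AddSubgroup.mem_top _⟩ ?_ w
      filter_upwards [h3, h4] with w h5 h6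
      obtain ⟨-, c, hc, h7⟩ := h5
      obtain ⟨-, c', hc', h8⟩ := h6
      rw [h7, pr_smul _ hc, ← pr_smul (F (w + g n)) (inv_ne_zero hc₀), h8, pr_smul _ hc']
    intro w
    have h6 := h5 (w - g n')
    rw [sub_add_cancel] at h6
    have e2 : w - g n' + g n = w + (g n - g n') := by ring
    rwa [e2] at h6
  -- the bound
  obtain ⟨C₁, R₁, hends⟩ := ends_res h hΩ a
  have hperρ := hP1 l₀ hl₀ hl₀p
  have hperZ : ∀ (n : ℤ) (z : ℂ), ρ (z + n * l₀) = ρ z := by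
    intro n
    induction n using Int.induction_on with
    | zero => intro z; simp
    | succ n ih =>
      intro z
      have e : z + ((n : ℤ) + 1 : ℤ) * l₀ = (z + (n : ℤ) * l₀) + l₀ := by push_cast; ring
      rw [e, hperρ, ih]
    | pred n ih =>
      intro z
      have h1 := hperρ (z + ((-(n : ℤ) - 1 : ℤ) : ℂ) * l₀)
      have e : z + ((-(n : ℤ) - 1 : ℤ) : ℂ) * l₀ + l₀ = z + ((-(n : ℤ) : ℤ) : ℂ) * l₀ := by push_cast; ring
      rw [e, ih] at h1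
      exact h1.symm
  have hl₀re : l₀.re = 0 := Lam_re (E.le hl₀)
  have hl₀im : l₀.im ≠ 0 := fun h1 => hl₀0 (Complex.ext hl₀re h1)
  set R : ℝ := max R₁ 0 + |l₀.im| with hR
  obtain ⟨C₂, hC₂⟩ : ∃ C : ℝ, ∀ z ∈ closedBall (0 : ℂ) R, ‖ρ z‖ ≤ C :=
    (isCompact_closedBall (0 : ℂ) R).exists_bound_of_continuousOn hρ.continuous.continuousOn
  have hbd : ∀ z, ‖ρ z‖ ≤ max C₁ C₂ := by
    intro z
    by_cases hz : R₁ ≤ |z.re|
    · refine (hends (F z) (hFD z) z (ρ z) (hFu z) hz (hRA z)).trans (le_max_left _ _)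
    · push Not at hz
      set n : ℤ := -round (z.im / l₀.im) with hn
      have h1 := hperZ n z
      rw [← h1]
      refine (hC₂ _ ?_).trans (le_max_right _ _)
      rw [mem_closedBall_zero_iff]
      have h2 : (z + n * l₀).re = z.re := by
        rw [Complex.add_re, ← Complex.ofReal_intCast, Complex.re_ofReal_mul, hl₀re, mul_zero, add_zero]
      have h3 : (z + n * l₀).im = z.im - round (z.im / l₀.im) * l₀.im := by
        rw [Complex.add_im, ← Complex.ofReal_intCast, Complex.im_ofReal_mul, hn]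
        push_cast
        ring
      have h4 : |(z + n * l₀).im| ≤ |l₀.im| := by
        rw [h3]
        have h5 : z.im - round (z.im / l₀.im) * l₀.im = (z.im / l₀.im - round (z.im / l₀.im)) * l₀.im := by
          field_simp
        rw [h5, abs_mul]
        have h6 := abs_sub_round (z.im / l₀.im)
        calc |z.im / l₀.im - round (z.im / l₀.im)| * |l₀.im| ≤ 1 * |l₀.im| := by
              gcongr
              linarith
          _ = |l₀.im| := one_mul _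
      calc ‖z + n * l₀‖ ≤ |(z + n * l₀).re| + |(z + n * l₀).im| := Complex.norm_le_abs_re_add_abs_im _
        _ ≤ max R₁ 0 + |l₀.im| := by
          rw [h2]
          gcongr
          exact hz.le.trans (le_max_left _ _)
  refine ⟨max C₁ C₂, ?_⟩
  intro z₀ σ τ h1 h2 h3 h4
  obtain ⟨g, hg, hge⟩ := hlog σ τ (fun p => z₀ + p.1) h1 h3 (analyticAt_const.add analyticAt_fst) h4
  refine ⟨g, hg, ?_, hge⟩
  have h5 : RA α (F z₀) z₀ (g 0) := ⟨σ, τ, g, h1, h2, h3, h4, hg, hge, rfl⟩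
  rw [RA.unique hX E.tor hΛ E.D_smul E.D_closed h5 (hRA z₀)]
  exact hbd z₀

end Pool.Agent.H6.LU
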