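import Pool.Agent.H6.LU.Conv

/-!
# LU Sets: the parts of the cone

`XX`: the cone over the part of `Y` over `ℂ^*`; `DD`: the cone over the fibre over `0`; `lm`: the continuous extension of `e` to `XX`; `uu = log lm - a`.
-/

set_option autoImplicit false

open Topology Filter Metric

noncomputable section

namespace Pool.Agent.H6.LU

open Pool.Agent.H17 (PN HolomorphicInto)
open Pool.Agent.H36.BP (EN coneOf coneOf_smul ne_zero_of_ofLp ofLp_ne_zero)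
open Pool.Agent.H4.LU (Mem val IsParam IsInner IsHorChart IsEndChart IsEnd IsRegularEnd IsModel)

variable {M : ℕ}

/-- a chart at a point over `ℂ^*`, in `V` (`hor = false`) or at the boundary curve (`hor = true`) -/
structure MCh (Y V : Set (PN M)) (e : PN M → ℂ) (hor : Bool) (σ : ℂ × ℂ → EN M) (τ : EN M → ℂ × ℂ) (c : ℂ) (i j : ℕ) (x : EN M) : Prop where
  gp : GP (coneOf Y) 1 σ τ x
  i_pos : 1 ≤ i
  j_zero : hor = true → j = 0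
  form : ∀ᶠ p in 𝓝 (0 : ℂ × ℂ), (σ p ∈ coneOf V ↔ (hor = true → p.2 ≠ 0)) ∧ (σ p ∈ coneOf V → ev e (σ p) = Complex.exp (c + p.1 ^ i * p.2 ^ j))

/-- a chart at a point over `0` -/
structure ECh (Y V : Set (PN M)) (e : PN M → ℂ) (k : ℕ) (nd hor : Bool) (σ : ℂ × ℂ → EN M) (τ : EN M → ℂ × ℂ) (x : EN M) : Prop where
  gp : GP (coneOf Y) k σ τ x
  k_pos : 1 ≤ k
  nd_k : nd = false → k = 1
  form : ∀ᶠ p in 𝓝 (0 : ℂ × ℂ), (σ p ∈ coneOf V ↔ p.1 ≠ 0 ∧ (nd = true ∨ hor = true → p.2 ≠ 0)) ∧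
    (σ p ∈ coneOf V → ev e (σ p) = if nd = true then p.1 * p.2 else p.1)

/-- the points of the cone over `y` are the multiples of the centre -/
theorem exists_scale {Y : Set (PN M)} {k : ℕ} {σ : ℂ × ℂ → Fin (M + 1) → ℂ} {τ : (Fin (M + 1) → ℂ) → ℂ × ℂ} {y : PN M}
    (h : IsParam Y k σ τ y) {x : EN M} (hx : ∃ hx : x.ofLp ≠ 0, Projectivization.mk ℂ x.ofLp hx = y) : ∃ c : ℂ, c ≠ 0 ∧ c • lp M (σ 0) = x := by
  obtain ⟨hx0, hxy⟩ := hx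
  obtain ⟨h0, h1⟩ := h.center
  rw [← h1, Projectivization.mk_eq_mk_iff'] at hxy
  obtain ⟨c, hc⟩ := hxy
  refine ⟨c, ?_, ?_⟩
  · rintro rfl
    rw [zero_smul] at hc
    exact hx0 hc.symm
  · rw [← map_smul, hc, ← pl_apply, lp_pl]

theorem mch_of_hor {Y V : Set (PN M)} {e : PN M → ℂ} {σ : ℂ × ℂ → Fin (M + 1) → ℂ} {τ : (Fin (M + 1) → ℂ) → ℂ × ℂ} {y : PN M}
    (h : IsHorChart Y V e σ τ y) {x : EN M} {c : ℂ} (hc : c ≠ 0) (hx : c • lp M (σ 0) = x) :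
    ∃ (c' : ℂ) (i : ℕ), MCh Y V e true (fun p => c • lp M (σ p)) (fun x => τ (pl M (c⁻¹ • x))) c' i 0 x := by
  obtain ⟨hp, c', i, hi, hf⟩ := h
  refine ⟨c', i, hx ▸ gp_of_param hp hc, hi, fun _ => rfl, ?_⟩
  filter_upwards [hf] with p hp
  have hmem : c • lp M (σ p) ∈ coneOf V ↔ Mem V (σ p) := (coneOf_smul_iff hc).trans mem_coneOf'
  refine ⟨by rw [hmem, hp.1]; simp, fun h1 => ?_⟩
  rw [hmem, hp.1] at h1
  rw [ev_smul _ _ hc, pow_zero, mul_one]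
  exact hp.2 h1

theorem mch_of_inner {Y V : Set (PN M)} {e : PN M → ℂ} {y : PN M} (h : IsInner Y V e y) {x : EN M}
    (hx : ∃ hx : x.ofLp ≠ 0, Projectivization.mk ℂ x.ofLp hx = y) :
    ∃ σ τ c i j, MCh Y V e false σ τ c i j x := by
  obtain ⟨σ, τ, c', i, j, hp, hi, hf⟩ := h
  obtain ⟨c, hc, hcx⟩ := exists_scale hp hx
  refine ⟨_, _, c', i, j, hcx ▸ gp_of_param hp hc, hi, fun h => absurd h (by simp), ?_⟩
  filter_upwards [hf] with p hp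
  have hmem : c • lp M (σ p) ∈ coneOf V ↔ Mem V (σ p) := (coneOf_smul_iff hc).trans mem_coneOf'
  refine ⟨by rw [hmem]; simp [hp.1], fun _ => ?_⟩
  rw [ev_smul _ _ hc]
  exact hp.2

theorem ech_of_end {Y V : Set (PN M)} {e : PN M → ℂ} {k : ℕ} {nd hor : Bool} {σ : ℂ × ℂ → Fin (M + 1) → ℂ} {τ : (Fin (M + 1) → ℂ) → ℂ × ℂ} {y : PN M}
    (h : IsEndChart Y V e k nd hor σ τ y) {x : EN M} {c : ℂ} (hc : c ≠ 0) (hx : c • lp M (σ 0) = x) :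
    ECh Y V e k nd hor (fun p => c • lp M (σ p)) (fun x => τ (pl M (c⁻¹ • x))) x := by
  obtain ⟨hp, hk, hnd, hf⟩ := h
  refine ⟨hx ▸ gp_of_param hp hc, hk, hnd, ?_⟩
  filter_upwards [hf] with p hp
  have hmem : c • lp M (σ p) ∈ coneOf V ↔ Mem V (σ p) := (coneOf_smul_iff hc).trans mem_coneOf'
  refine ⟨by rw [hmem, hp.1], fun h1 => ?_⟩
  rw [ev_smul _ _ hc]
  exact hp.2 (hmem.1 h1)

theorem cases_point {Y V : Set (PN M)} {e : PN M → ℂ} (h : IsModel Y V e) {x : EN M} (hx : x ∈ coneOf Y) :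
    (∃ hor σ τ c i j, MCh Y V e hor σ τ c i j x) ∨ (∃ k nd hor σ τ, ECh Y V e k nd hor σ τ x) ∨
      ∃ k nd hor σ τ, ECh Y V (fun y => (e y)⁻¹) k nd hor σ τ x := by
  obtain ⟨hx0, hxY⟩ := hx
  rcases h.point _ hxY with h1 | ⟨σ, τ, h1⟩ | ⟨k, nd, hor, σ, τ, h1⟩ | ⟨k, nd, hor, σ, τ, h1⟩
  · exact Or.inl ⟨false, mch_of_inner h1 ⟨hx0, rfl⟩⟩
  · obtain ⟨c, hc, hcx⟩ := exists_scale h1.1 ⟨hx0, rfl⟩
    obtain ⟨c', i, h2⟩ := mch_of_hor h1 hc hcx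
    exact Or.inl ⟨true, _, _, _, _, _, h2⟩
  · obtain ⟨c, hc, hcx⟩ := exists_scale h1.1 ⟨hx0, rfl⟩
    exact Or.inr (Or.inl ⟨_, _, _, _, _, ech_of_end h1 hc hcx⟩)
  · obtain ⟨c, hc, hcx⟩ := exists_scale h1.1 ⟨hx0, rfl⟩
    exact Or.inr (Or.inr ⟨_, _, _, _, _, ech_of_end h1 hc hcx⟩)

variable {Y V : Set (PN M)} {e : PN M → ℂ}

/-! ## density of `V` -/

theorem GP.mem_closure {X : Set (EN M)} {k : ℕ} {σ : ℂ × ℂ → EN M} {τ : EN M → ℂ × ℂ} {x : EN M} (h : GP X k σ τ x) {S : Set (EN M)}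
    (hS : ∀ᶠ p in 𝓝 (0 : ℂ × ℂ), p.1 ≠ 0 → p.2 ≠ 0 → σ p ∈ S) : x ∈ closure S := by
  rw [mem_closure_iff_frequently]
  have h1 : Tendsto (fun t : ℂ => ((t, t) : ℂ × ℂ)) (𝓝[≠] 0) (𝓝 (0 : ℂ × ℂ)) := by
    have h2 : Continuous fun t : ℂ => ((t, t) : ℂ × ℂ) := by fun_prop
    exact (h2.tendsto 0).mono_left nhdsWithin_le_nhds
  have h3 : ∀ᶠ t in 𝓝[≠] (0 : ℂ), σ (t, t) ∈ S := by
    filter_upwards [h1.eventually hS, self_mem_nhdsWithin] with t ht ht0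
    exact ht ht0 ht0
  have h4 : Tendsto (fun t : ℂ => σ (t, t)) (𝓝[≠] 0) (𝓝 x) := by
    have h5 := h.σ_an.continuousAt.tendsto
    rw [h.center] at h5
    exact h5.comp h1
  exact h4.frequently h3.frequently

theorem MCh.mem_closure {hor : Bool} {σ : ℂ × ℂ → EN M} {τ : EN M → ℂ × ℂ} {c : ℂ} {i j : ℕ} {x : EN M} (h : MCh Y V e hor σ τ c i j x) :
    x ∈ closure (coneOf V) := by
  refine h.gp.mem_closure ?_
  filter_upwards [h.form] with p hp _ h2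
  exact hp.1.2 fun _ => h2

theorem ECh.mem_closure {k : ℕ} {nd hor : Bool} {σ : ℂ × ℂ → EN M} {τ : EN M → ℂ × ℂ} {x : EN M} (h : ECh Y V e k nd hor σ τ x) :
    x ∈ closure (coneOf V) := by
  refine h.gp.mem_closure ?_
  filter_upwards [h.form] with p hp h1 h2
  exact hp.1.2 ⟨h1, fun _ => h2⟩

theorem mem_closure_V (h : IsModel Y V e) {x : EN M} (hx : x ∈ coneOf Y) : x ∈ closure (coneOf V) := by
  rcases cases_point h hx with ⟨_, _, _, _, _, _, h1⟩ | ⟨_, _, _, _, _, h1⟩ | ⟨_, _, _, _, _, h1⟩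
  · exact h1.mem_closure
  · exact h1.mem_closure
  · exact h1.mem_closure

theorem neBot_V (h : IsModel Y V e) {x : EN M} (hx : x ∈ coneOf Y) : (𝓝[coneOf V] x).NeBot :=
  mem_closure_iff_nhdsWithin_neBot.1 (mem_closure_V h hx)

theorem coneOf_ne {x : EN M} (hx : x ∈ coneOf Y) : x ≠ 0 := ne_zero_of_ofLp hx.1

theorem coneOf_mono {Y V : Set (PN M)} (h : V ⊆ Y) : coneOf V ⊆ coneOf Y := fun _ ⟨h1, h2⟩ => ⟨h1, h h2⟩

/-! ## limits of `e` -/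

theorem GP.tau_zero {X : Set (EN M)} {k : ℕ} {σ : ℂ × ℂ → EN M} {τ : EN M → ℂ × ℂ} {x : EN M} (h : GP X k σ τ x) (hk : 1 ≤ k) : τ x = 0 := by
  have h1 := h.coord.self_of_nhds
  rw [h.center] at h1
  rw [h1]
  simp [Nat.one_le_iff_ne_zero.1 hk]

theorem GP.center_mem {X : Set (EN M)} {k : ℕ} {σ : ℂ × ℂ → EN M} {τ : EN M → ℂ × ℂ} {x : EN M} (h : GP X k σ τ x) : x ∈ X := by
  have h1 := h.mem.self_of_nhds
  rwa [h.center] at h1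

/-- in a chart of order `1` -/
theorem GP.near1 {X : Set (EN M)} {σ : ℂ × ℂ → EN M} {τ : EN M → ℂ × ℂ} {x : EN M} (h : GP X 1 σ τ x) (hx : x ≠ 0) {W : Set (ℂ × ℂ)}
    (hW : W ∈ 𝓝 (0 : ℂ × ℂ)) {A : Set ℂ} (hA : A ∈ 𝓝 (1 : ℂ)) : ∀ᶠ y in 𝓝 x, τ y ∈ W ∧ (y ∈ X → ∃ a : ℂ, a ≠ 0 ∧ a ∈ A ∧ y = a • σ (τ y)) := by
  have h1 : ∀ᶠ y in 𝓝 x, τ y ∈ W := by
    refine h.τ_an.continuousAt.eventually_mem ?_
    rw [h.tau_zero le_rfl]
    exact hW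
  filter_upwards [h1, h.near le_rfl hx hW hA] with y hy hy'
  refine ⟨hy, fun hyX => ?_⟩
  obtain ⟨a, p, ha, haA, -, h2, h3⟩ := hy' hyX
  have h4 : p = τ y := by rw [h3]; simp
  exact ⟨a, ha, haA, h4 ▸ h2⟩

theorem MCh.ne {hor : Bool} {σ : ℂ × ℂ → EN M} {τ : EN M → ℂ × ℂ} {c : ℂ} {i j : ℕ} {x : EN M} (h : MCh Y V e hor σ τ c i j x) : x ≠ 0 :=
  coneOf_ne h.gp.center_mem

theorem ECh.ne {k : ℕ} {nd hor : Bool} {σ : ℂ × ℂ → EN M} {τ : EN M → ℂ × ℂ} {x : EN M} (h : ECh Y V e k nd hor σ τ x) : x ≠ 0 :=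
  coneOf_ne h.gp.center_mem

/-- the local equations of `V` and `e` -/
theorem MCh.loc {hor : Bool} {σ : ℂ × ℂ → EN M} {τ : EN M → ℂ × ℂ} {c : ℂ} {i j : ℕ} {x : EN M} (h : MCh Y V e hor σ τ c i j x) :
    ∀ᶠ y in 𝓝 x, y ∈ coneOf Y → (y ∈ coneOf V ↔ (hor = true → (τ y).2 ≠ 0)) ∧
      (y ∈ coneOf V → ev e y = Complex.exp (c + (τ y).1 ^ i * (τ y).2 ^ j)) := by
  filter_upwards [h.gp.near1 h.ne h.form univ_mem] with y hy hyX
  obtain ⟨h1, h2⟩ := hy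
  obtain ⟨a, ha, -, h3⟩ := h2 hyX
  have h4 : y ∈ coneOf V ↔ σ (τ y) ∈ coneOf V := by conv_lhs => rw [h3, coneOf_smul_iff ha]
  refine ⟨h4.trans h1.1, fun h5 => ?_⟩
  conv_lhs => rw [h3, ev_smul _ _ ha]
  exact h1.2 (h4.1 h5)

theorem MCh.tendsto (hm : V ⊆ Y) {hor : Bool} {σ : ℂ × ℂ → EN M} {τ : EN M → ℂ × ℂ} {c : ℂ} {i j : ℕ} {x : EN M} (h : MCh Y V e hor σ τ c i j x) :
    ∀ᶠ y in 𝓝 x, Tendsto (ev e) (𝓝[coneOf V] y) (𝓝 (Complex.exp (c + (τ y).1 ^ i * (τ y).2 ^ j))) := by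
  filter_upwards [h.loc.eventually_nhds, h.gp.τ_an.eventually_analyticAt] with y hy hτ
  have h1 : Tendsto (fun y' => Complex.exp (c + (τ y').1 ^ i * (τ y').2 ^ j)) (𝓝[coneOf V] y) (𝓝 (Complex.exp (c + (τ y).1 ^ i * (τ y).2 ^ j))) := by
    have h2 : ContinuousAt (fun y' => Complex.exp (c + (τ y').1 ^ i * (τ y').2 ^ j)) y := by
      have h3 := hτ.continuousAt
      fun_prop
    exact h2.tendsto.mono_left nhdsWithin_le_nhds
  refine h1.congr' ?_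
  filter_upwards [mem_nhdsWithin_of_mem_nhds hy, self_mem_nhdsWithin] with y' h2 h3
  exact ((h2 (coneOf_mono hm h3)).2 h3).symm

theorem ECh.loc {k : ℕ} {nd hor : Bool} {σ : ℂ × ℂ → EN M} {τ : EN M → ℂ × ℂ} {x : EN M} (h : ECh Y V e k nd hor σ τ x) {W : Set (ℂ × ℂ)}
    (hW : W ∈ 𝓝 (0 : ℂ × ℂ)) {A : Set ℂ} (hA : A ∈ 𝓝 (1 : ℂ)) :
    ∀ᶠ y in 𝓝 x, y ∈ coneOf Y → ∃ (a : ℂ) (p : ℂ × ℂ), a ≠ 0 ∧ a ∈ A ∧ p ∈ W ∧ y = a • σ p ∧ τ y = (p.1 ^ k, p.2 ^ k) ∧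
      (y ∈ coneOf V ↔ p.1 ≠ 0 ∧ (nd = true ∨ hor = true → p.2 ≠ 0)) ∧ (y ∈ coneOf V → ev e y = if nd = true then p.1 * p.2 else p.1) := by
  filter_upwards [h.gp.near h.k_pos h.ne (inter_mem h.form hW) hA] with y hy hyX
  obtain ⟨a, p, ha, haA, hpW, h3, h4⟩ := hy hyX
  obtain ⟨h1, h1'⟩ := hpW
  have h5 : y ∈ coneOf V ↔ σ p ∈ coneOf V := by conv_lhs => rw [h3, coneOf_smul_iff ha]
  refine ⟨a, p, ha, haA, h1', h3, h4, h5.trans h1.1, fun h6 => ?_⟩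
  conv_lhs => rw [h3, ev_smul _ _ ha]
  exact h1.2 (h5.1 h6)

theorem ECh.tendsto (hm : V ⊆ Y) {k : ℕ} {nd hor : Bool} {σ : ℂ × ℂ → EN M} {τ : EN M → ℂ × ℂ} {x : EN M} (h : ECh Y V e k nd hor σ τ x) :
    Tendsto (ev e) (𝓝[coneOf V] x) (𝓝 0) := by
  rw [Metric.tendsto_nhds]
  intro ε hε
  have hW : ball (0 : ℂ × ℂ) (min ε 1) ∈ 𝓝 (0 : ℂ × ℂ) := ball_mem_nhds _ (lt_min hε one_pos)
  filter_upwards [mem_nhdsWithin_of_mem_nhds (h.loc hW univ_mem), self_mem_nhdsWithin] with y hy hyV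
  obtain ⟨a, p, -, -, hp, -, -, -, h1⟩ := hy (coneOf_mono hm hyV)
  rw [h1 hyV, dist_zero_right]
  rw [mem_ball_zero_iff, Prod.norm_def, max_lt_iff] at hp
  have h2 := lt_of_lt_of_le hp.1 (min_le_left _ _)
  have h3 := lt_of_lt_of_le hp.2 (min_le_right _ _)
  split_ifs
  · rw [norm_mul]
    calc ‖p.1‖ * ‖p.2‖ ≤ ‖p.1‖ * 1 := by gcongr
      _ < ε := by rw [mul_one]; exact h2
  · exact h2

/-- the cone over the part of `Y` over `ℂ^*` -/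
def XX (Y V : Set (PN M)) (e : PN M → ℂ) : Set (EN M) := {x | x ∈ coneOf Y ∧ ∃ c : ℂ, c ≠ 0 ∧ Tendsto (ev e) (𝓝[coneOf V] x) (𝓝 c)}

/-- the cone over the fibre over `0` -/
def DD (Y V : Set (PN M)) (e : PN M → ℂ) : Set (EN M) := {x | x ∈ coneOf Y ∧ Tendsto (ev e) (𝓝[coneOf V] x) (𝓝 0)}

/-- the continuous extension of `e` -/
def lm (V : Set (PN M)) (e : PN M → ℂ) (x : EN M) : ℂ := limUnder (𝓝[coneOf V] x) (ev e)

/-- the logarithm of `e` minus `a` -/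
def uu (V : Set (PN M)) (e : PN M → ℂ) (a : ℂ) (x : EN M) : ℂ := Complex.log (lm V e x) - a

theorem lm_eq (h : IsModel Y V e) {x : EN M} (hx : x ∈ coneOf Y) {c : ℂ} (hc : Tendsto (ev e) (𝓝[coneOf V] x) (𝓝 c)) : lm V e x = c := by
  haveI := neBot_V h hx
  exact hc.limUnder_eq

/-- the period group -/
def Lam : AddSubgroup ℂ where
  carrier := {w | Complex.exp w = 1}
  add_mem' := fun {a b} ha hb => by
    show Complex.exp (a + b) = 1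
    rw [Complex.exp_add, show Complex.exp a = 1 from ha, show Complex.exp b = 1 from hb, one_mul]
  zero_mem' := Complex.exp_zero
  neg_mem' := fun {a} ha => by
    show Complex.exp (-a) = 1
    rw [Complex.exp_neg, show Complex.exp a = 1 from ha, inv_one]

theorem mem_Lam {w : ℂ} : w ∈ Lam ↔ Complex.exp w = 1 := Iff.rfl

theorem sub_mem_Lam {z w : ℂ} : z - w ∈ Lam ↔ Complex.exp z = Complex.exp w := by
  rw [mem_Lam, Complex.exp_sub, div_eq_one_iff_eq (Complex.exp_ne_zero w)]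

theorem exp_uu (h : IsModel Y V e) {x : EN M} {a : ℂ} (hx : x ∈ coneOf Y) {c : ℂ} (hc0 : c ≠ 0) (hc : Tendsto (ev e) (𝓝[coneOf V] x) (𝓝 c)) :
    Complex.exp (uu V e a x) = c * Complex.exp (-a) := by
  unfold uu
  rw [sub_eq_add_neg, Complex.exp_add, lm_eq h hx hc, Complex.exp_log hc0]

/-- the lift of `u` in a chart -/
theorem MCh.uu_sub (h : IsModel Y V e) {hor : Bool} {σ : ℂ × ℂ → EN M} {τ : EN M → ℂ × ℂ} {c : ℂ} {i j : ℕ} {x : EN M}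
    (hx : MCh Y V e hor σ τ c i j x) (a : ℂ) : ∀ᶠ y in 𝓝 x, y ∈ coneOf Y → y ∈ XX Y V e ∧ uu V e a y - (c - a + (τ y).1 ^ i * (τ y).2 ^ j) ∈ Lam := by
  filter_upwards [hx.tendsto h.sub] with y hy hyY
  refine ⟨⟨hyY, _, Complex.exp_ne_zero _, hy⟩, ?_⟩
  rw [sub_mem_Lam, exp_uu h hyY (Complex.exp_ne_zero _) hy, ← Complex.exp_add]
  congr 1
  ring

theorem MCh.uu_sigma (h : IsModel Y V e) {hor : Bool} {σ : ℂ × ℂ → EN M} {τ : EN M → ℂ × ℂ} {c : ℂ} {i j : ℕ} {x : EN M}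
    (hx : MCh Y V e hor σ τ c i j x) (a : ℂ) : ∀ᶠ p in 𝓝 (0 : ℂ × ℂ), σ p ∈ XX Y V e ∧ uu V e a (σ p) - (c - a + p.1 ^ i * p.2 ^ j) ∈ Lam := by
  have h1 : Tendsto σ (𝓝 0) (𝓝 x) := by
    have h5 := hx.gp.σ_an.continuousAt.tendsto
    rwa [hx.gp.center] at h5
  filter_upwards [h1.eventually (hx.uu_sub h a), hx.gp.mem, hx.gp.coord] with p hp hp1 hp2
  obtain ⟨h3, h4⟩ := hp hp1
  rw [hp2, pow_one, pow_one] at h4
  exact ⟨h3, h4⟩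

/-! ## the three parts -/

theorem MCh.mem_XX (h : IsModel Y V e) {hor : Bool} {σ : ℂ × ℂ → EN M} {τ : EN M → ℂ × ℂ} {c : ℂ} {i j : ℕ} {x : EN M}
    (hx : MCh Y V e hor σ τ c i j x) : x ∈ XX Y V e := ((hx.uu_sub h 0).self_of_nhds hx.gp.center_mem).1

theorem ECh.mem_DD (h : IsModel Y V e) {k : ℕ} {nd hor : Bool} {σ : ℂ × ℂ → EN M} {τ : EN M → ℂ × ℂ} {x : EN M}
    (hx : ECh Y V e k nd hor σ τ x) : x ∈ DD Y V e := ⟨hx.gp.center_mem, hx.tendsto h.sub⟩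

theorem tendsto_inv_unique (h : IsModel Y V e) {x : EN M} (hx : x ∈ coneOf Y) {c : ℂ} (h1 : Tendsto (ev e) (𝓝[coneOf V] x) (𝓝 c))
    (h2 : Tendsto (ev fun y => (e y)⁻¹) (𝓝[coneOf V] x) (𝓝 0)) : False := by
  haveI := neBot_V h hx
  have h3 : ∀ᶠ y in 𝓝[coneOf V] x, ev e y * ev (fun y => (e y)⁻¹) y = 1 ∨ ev e y = 0 := by
    filter_upwards [self_mem_nhdsWithin] with y hy
    rw [ev_inv e hy.1]
    by_cases h0 : ev e y = 0
    · exact Or.inr h0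
    · exact Or.inl (mul_inv_cancel₀ h0)
  have h4 : Tendsto (fun y => ev e y * ev (fun y => (e y)⁻¹) y) (𝓝[coneOf V] x) (𝓝 0) := by
    have := h1.mul h2
    rwa [mul_zero] at this
  have h5 : ∀ᶠ y in 𝓝[coneOf V] x, ev e y * ev (fun y => (e y)⁻¹) y ≠ 1 := by
    refine h4.eventually_ne ?_
    exact zero_ne_one
  -- `e` is not zero on `V`
  have h6 : ∀ᶠ y in 𝓝[coneOf V] x, ev e y ≠ 0 := by
    filter_upwards [self_mem_nhdsWithin] with y hy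
    obtain ⟨hy0, hyV⟩ := hy
    have hyY : y ∈ coneOf Y := ⟨hy0, h.sub hyV⟩
    rcases cases_point h hyY with ⟨hor, σ, τ, c, i, j, h7⟩ | ⟨k, nd, hor, σ, τ, h7⟩ | ⟨k, nd, hor, σ, τ, h7⟩
    · rw [(h7.loc.self_of_nhds hyY).2 ⟨hy0, hyV⟩]
      exact Complex.exp_ne_zero _
    · exfalso
      have h8 := h7.form.self_of_nhds
      rw [h7.gp.center] at h8
      exact (h8.1.1 ⟨hy0, hyV⟩).1 rfl
    · exfalso
      have h8 := h7.form.self_of_nhds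
      rw [h7.gp.center] at h8
      exact (h8.1.1 ⟨hy0, hyV⟩).1 rfl
  obtain ⟨y, hy1, hy2, hy3⟩ := (h3.and (h5.and h6)).exists
  rcases hy1 with hy1 | hy1
  · exact hy2 hy1
  · exact hy3 hy1

theorem exists_mch (h : IsModel Y V e) {x : EN M} (hx : x ∈ XX Y V e) : ∃ hor σ τ c i j, MCh Y V e hor σ τ c i j x := by
  obtain ⟨hxY, c, hc0, hc⟩ := hx
  rcases cases_point h hxY with h1 | ⟨_, _, _, _, _, h1⟩ | ⟨_, _, _, _, _, h1⟩
  · exact h1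
  · exfalso
    haveI := neBot_V h hxY
    exact hc0 (tendsto_nhds_unique hc (h1.tendsto h.sub))
  · exfalso
    exact tendsto_inv_unique h hxY hc (h1.tendsto h.sub)

theorem exists_ech (h : IsModel Y V e) {x : EN M} (hx : x ∈ DD Y V e) : ∃ k nd hor σ τ, ECh Y V e k nd hor σ τ x := by
  obtain ⟨hxY, hc⟩ := hx
  rcases cases_point h hxY with ⟨hor, σ, τ, c, i, j, h1⟩ | h1 | ⟨_, _, _, _, _, h1⟩
  · exfalso
    haveI := neBot_V h hxY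
    obtain ⟨-, c', hc', h2⟩ := h1.mem_XX h
    exact hc' (tendsto_nhds_unique h2 hc)
  · exact h1
  · exfalso
    exact tendsto_inv_unique h hxY hc (h1.tendsto h.sub)

/-- the points of `V` -/
theorem exists_inner (h : IsModel Y V e) {x : EN M} (hx : x ∈ coneOf V) : ∃ σ τ c i j, MCh Y V e false σ τ c i j x := by
  rcases cases_point h (coneOf_mono h.sub hx) with ⟨hor, σ, τ, c, i, j, h1⟩ | ⟨k, nd, hor, σ, τ, h7⟩ | ⟨k, nd, hor, σ, τ, h7⟩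
  · cases hor with
    | false => exact ⟨σ, τ, c, i, j, h1⟩
    | true =>
      exfalso
      have h8 := h1.form.self_of_nhds
      rw [h1.gp.center] at h8
      exact h8.1.1 hx rfl rfl
  · exfalso
    have h8 := h7.form.self_of_nhds
    rw [h7.gp.center] at h8
    exact (h8.1.1 hx).1 rfl
  · exfalso
    have h8 := h7.form.self_of_nhds
    rw [h7.gp.center] at h8
    exact (h8.1.1 hx).1 rfl

theorem V_open (h : IsModel Y V e) {x : EN M} (hx : x ∈ coneOf V) : ∀ᶠ y in 𝓝 x, y ∈ coneOf Y → y ∈ coneOf V := by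
  obtain ⟨σ, τ, c, i, j, h1⟩ := exists_inner h hx
  filter_upwards [h1.loc] with y hy hyY
  exact (hy hyY).1.2 (by simp)

theorem V_sub_XX (h : IsModel Y V e) : coneOf V ⊆ XX Y V e := by
  intro x hx
  obtain ⟨σ, τ, c, i, j, h1⟩ := exists_inner h hx
  exact h1.mem_XX h

theorem tendsto_V (h : IsModel Y V e) {x : EN M} (hx : x ∈ coneOf V) : Tendsto (ev e) (𝓝[coneOf V] x) (𝓝 (ev e x)) := by
  obtain ⟨σ, τ, c, i, j, h1⟩ := exists_inner h hx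
  have h2 := (h1.tendsto h.sub).self_of_nhds
  rwa [← (h1.loc.self_of_nhds (coneOf_mono h.sub hx)).2 hx] at h2

theorem ev_ne_zero (h : IsModel Y V e) {x : EN M} (hx : x ∈ coneOf V) : ev e x ≠ 0 := by
  obtain ⟨σ, τ, c, i, j, h1⟩ := exists_inner h hx
  rw [(h1.loc.self_of_nhds (coneOf_mono h.sub hx)).2 hx]
  exact Complex.exp_ne_zero _

theorem exp_uu_V (h : IsModel Y V e) {x : EN M} (hx : x ∈ coneOf V) (a : ℂ) : Complex.exp (uu V e a x) = ev e x * Complex.exp (-a) :=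
  exp_uu h (coneOf_mono h.sub hx) (ev_ne_zero h hx) (tendsto_V h hx)

/-- `u x = z` for points of `V` -/
theorem uu_sub_iff (h : IsModel Y V e) {x : EN M} (hx : x ∈ coneOf V) (a z : ℂ) : uu V e a x - z ∈ Lam ↔ ev e x = Complex.exp (z + a) := by
  rw [sub_mem_Lam, exp_uu_V h hx, Complex.exp_add, Complex.exp_neg, ← div_eq_mul_inv, div_eq_iff (Complex.exp_ne_zero a)]

theorem cover (h : IsModel Y V e) {x : EN M} (hx : x ∈ coneOf Y) : x ∈ XX Y V e ∨ x ∈ DD Y V e ∨ x ∈ DD Y V fun y => (e y)⁻¹ := by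
  rcases cases_point h hx with ⟨_, _, _, _, _, _, h1⟩ | ⟨_, _, _, _, _, h1⟩ | ⟨_, _, _, _, _, h1⟩
  · exact Or.inl (h1.mem_XX h)
  · exact Or.inr (Or.inl (h1.mem_DD h))
  · exact Or.inr (Or.inr ⟨h1.gp.center_mem, h1.tendsto h.sub⟩)

end Pool.Agent.H6.LU
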